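import Pool.Agent.Lib.MP_c27bde_al.RC.Spec

/-!
MP_c27bde_al, RC, module ACC: chain condition for invariant closed sets.
-/

set_option autoImplicit false

namespace FPT.RC.ACCM

open Set FPT FPT.GF FPT.RC

theorem chain_min {ι : Type} (ZZ : Set (Set ℝ)) (hne : ZZ.Nonempty)
    (hch : ∀ Z ∈ ZZ, ∀ Z' ∈ ZZ, Z ⊆ Z' ∨ Z' ⊆ Z) (P : ι → Set ℝ → Prop)
    (hmono : ∀ r Z Z', P r Z → Z' ⊆ Z → P r Z') (F : Set ι) (hF : F.Finite) :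
    (∀ r ∈ F, ∃ Z ∈ ZZ, P r Z) → ∃ Z ∈ ZZ, ∀ r ∈ F, P r Z := by
  induction F, hF using Set.Finite.induction_on with
  | empty =>
    intro _
    obtain ⟨Z, hZ⟩ := hne
    exact ⟨Z, hZ, fun r hr => absurd hr (Set.notMem_empty r)⟩
  | @insert r0 F0 hn hs ih =>
    intro h
    obtain ⟨Z, hZ, hZP⟩ := ih (fun r hr => h r (Set.mem_insert_of_mem _ hr))
    obtain ⟨Z', hZ', hZP'⟩ := h r0 (Set.mem_insert _ _)
    rcases hch Z hZ Z' hZ' with hle | hle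
    · refine ⟨Z, hZ, fun r hr => ?_⟩
      rcases Set.mem_insert_iff.1 hr with rfl | hr
      · exact hmono _ _ _ hZP' hle
      · exact hZP r hr
    · refine ⟨Z', hZ', fun r hr => ?_⟩
      rcases Set.mem_insert_iff.1 hr with rfl | hr
      · exact hZP'
      · exact hmono _ _ _ (hZP r hr) hle

/-- the statement for one `n` -/
def Acc1 (n : ℕ) : Prop := ∀ G : Subgroup Hm, PLs G → Bal G → G.FG → BN G n →
  ∀ ZZ : Set (Set ℝ), ZZ.Nonempty → (∀ Z ∈ ZZ, IsClosed Z ∧ Inv G Z) →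
    (∀ Z ∈ ZZ, ∀ Z' ∈ ZZ, Z ⊆ Z' ∨ Z' ⊆ Z) →
    ∃ Z ∈ ZZ, ∀ g ∈ G, (∀ z, (∀ Z' ∈ ZZ, z ∈ Z') → g z = z) → ∀ z ∈ Z, g z = z

/-- one gap -/
theorem gap_case (hRS : SpecRS) (hFGJ : SpecFGJ) (hBJ : SpecBJ) (m : ℕ) (hih : Acc1 m)
    (G : Subgroup Hm) (hpl : PLs G) (hbal : Bal G) (hbn : BN G (m + 1))
    (ZZ : Set (Set ℝ)) (hne : ZZ.Nonempty) (hcl : ∀ Z ∈ ZZ, IsClosed Z ∧ Inv G Z)
    (hch : ∀ Z ∈ ZZ, ∀ Z' ∈ ZZ, Z ⊆ Z' ∨ Z' ⊆ Z) (a b : ℝ)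
    (hS : Setg G a b {z | a < z ∧ z < b ∧ ∀ Z' ∈ ZZ, z ∈ Z'}) (p q : ℝ)
    (hgap : Gap a b {z | a < z ∧ z < b ∧ ∀ Z' ∈ ZZ, z ∈ Z'} p q) :
    ∃ Z ∈ ZZ, ∀ s ∈ Sb G p q, ∀ z ∈ Z, p ≤ z → z ≤ q → s z = z := by
  obtain ⟨Γ, hRJ, hΓpl, hΓbal⟩ := hRS.ex G hpl p q hgap.pq
  have hΓfg : Γ.FG := hFGJ G a b _ hS p q Γ hgap hRJ
  have hΓbn : BN Γ m := hBJ G a b _ hS p q Γ hgap hRJ hΓpl hΓfg m hbn
  obtain ⟨f, hRes, -⟩ := GF.MainM.ra (Sb G p q) p q hgap.pq (fun g hg => hpl g hg.1)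
    (fun g hg => hg.2.1) (fun g hg => hg.2.2)
  have h𝒵 := hih Γ hΓpl (hΓbal hbal) hΓfg hΓbn ((fun Z => Z ∩ Icc p q) '' ZZ) (hne.image _)
    (by
      rintro _ ⟨Z, hZ, rfl⟩
      refine ⟨(hcl Z hZ).1.inter isClosed_Icc, ?_⟩
      intro γ hγ z hz
      obtain ⟨g, hg, h1, -⟩ := (hRJ γ).1 hγ
      obtain ⟨hzZ, hz1, hz2⟩ := hz
      rw [h1 z hz1 hz2]
      refine ⟨(hcl Z hZ).2 g hg.1 z hzZ, ?_, ?_⟩
      · calc p = g p := hg.2.1.symm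
          _ ≤ g z := g.le_iff_le.2 hz1
      · calc g z ≤ g q := g.le_iff_le.2 hz2
          _ = q := hg.2.2)
    (by
      rintro _ ⟨Z, hZ, rfl⟩ _ ⟨Z', hZ', rfl⟩
      rcases hch Z hZ Z' hZ' with h | h
      · exact Or.inl (Set.inter_subset_inter_left _ h)
      · exact Or.inr (Set.inter_subset_inter_left _ h))
  obtain ⟨_, ⟨Z, hZ, rfl⟩, hfix⟩ := h𝒵
  refine ⟨Z, hZ, fun s hs z hz h1 h2 => ?_⟩
  have hγ : f ⟨s, hs⟩ ∈ Γ := (hRJ _).2 ⟨s, hs, hRes.1 ⟨s, hs⟩, hRes.2 ⟨s, hs⟩⟩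
  have hz' := hfix (f ⟨s, hs⟩) hγ (by
    intro w hw
    obtain ⟨Z1, hZ1⟩ := hne
    have hwI : w ∈ Icc p q := (hw _ ⟨Z1, hZ1, rfl⟩).2
    rw [hRes.1 ⟨s, hs⟩ w hwI.1 hwI.2]
    show s w = w
    rcases hwI.1.lt_or_eq with h3 | h3
    · rcases hwI.2.lt_or_eq with h4 | h4
      · exfalso
        refine hgap.no w ⟨lt_of_le_of_lt hgap.ap h3, lt_of_lt_of_le h4 hgap.qb, ?_⟩ ⟨h3, h4⟩
        intro Z' hZ'
        exact (hw _ ⟨Z', hZ', rfl⟩).1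
      · rw [h4]; exact hs.2.2
    · rw [← h3]; exact hs.2.1) z ⟨hz, h1, h2⟩
  rw [hRes.1 ⟨s, hs⟩ z h1 h2] at hz'
  exact hz'

/-- one orbital -/
theorem orb_case (hGP : SpecGP) (hRS : SpecRS) (hFGJ : SpecFGJ) (hGO : SpecGO) (hBJ : SpecBJ)
    (hB0 : SpecB0) (hCPT : SpecCPT) (n : ℕ) (hih : ∀ m, n = m + 1 → Acc1 m)
    (G : Subgroup Hm) (hpl : PLs G) (hbal : Bal G) (hfg : G.FG) (hbn : BN G n)
    (ZZ : Set (Set ℝ)) (hne : ZZ.Nonempty) (hcl : ∀ Z ∈ ZZ, IsClosed Z ∧ Inv G Z)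
    (hch : ∀ Z ∈ ZZ, ∀ Z' ∈ ZZ, Z ⊆ Z' ∨ Z' ⊆ Z) (a b : ℝ) (ho : Orb G a b) :
    ∃ Z ∈ ZZ, ∀ g ∈ G, (∀ z, (∀ Z' ∈ ZZ, z ∈ Z') → g z = z) →
      ∀ z ∈ Z, a < z → z < b → g z = z := by
  by_cases hc : ∃ z, a < z ∧ z < b ∧ ∀ Z' ∈ ZZ, z ∈ Z'
  · obtain ⟨z0, hz0⟩ := hc
    have hS : Setg G a b {z | a < z ∧ z < b ∧ ∀ Z' ∈ ZZ, z ∈ Z'} := by
      refine ⟨hpl, hbal, hfg, ho, fun z hz => ⟨hz.1, hz.2.1⟩, ?_, ?_, ⟨z0, hz0⟩⟩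
      · intro g hg z hz
        refine ⟨?_, ?_, fun Z' hZ' => (hcl Z' hZ').2 g hg z (hz.2.2 Z' hZ')⟩
        · calc a = g a := (ho.fa g hg).symm
            _ < g z := g.lt_iff_lt.2 hz.1
        · calc g z < g b := g.lt_iff_lt.2 hz.2.1
            _ = b := ho.fb g hg
      · intro x h1 h2 hx
        exact ⟨h1, h2, fun Z' hZ' =>
          closure_minimal (fun z hz => hz.2.2 Z' hZ') (hcl Z' hZ').1 hx⟩
    rcases n with _ | m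
    · obtain ⟨g, hg, hgne⟩ := ho.mv z0 hz0.1 hz0.2.1
      exact absurd (hB0.zero G hpl hfg hbn g hg z0) hgne
    · obtain ⟨F, hF, hFg, hF2⟩ := hGO G a b _ hS
      obtain ⟨Z, hZ, hP⟩ := chain_min ZZ hne hch
        (fun (r : ℝ × ℝ) Z => ∀ s ∈ Sb G r.1 r.2, ∀ z ∈ Z, r.1 ≤ z → z ≤ r.2 → s z = z)
        (fun r Z Z' h hle s hs z hz h1 h2 => h s hs z (hle hz) h1 h2) F hF
        (fun r hr => gap_case hRS hFGJ hBJ m (hih m rfl) G hpl hbal hbn ZZ hne hcl hch a b hS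
          r.1 r.2 (hFg r hr))
      refine ⟨Z, hZ, fun g hg hfix z hz haz hzb => ?_⟩
      by_contra hgz
      have hzn : z ∉ {z | a < z ∧ z < b ∧ ∀ Z' ∈ ZZ, z ∈ Z'} := fun h => hgz (hfix z h.2.2)
      obtain ⟨p, q, hgap, hpz, hzq⟩ := hGP.ex G a b _ hS z haz hzb hzn
      have hgS : g ∈ Sb G p q := by
        refine ⟨hg, ?_, ?_⟩
        · rcases hgap.pz with h | h
          · rw [h]; exact ho.fa g hg
          · exact hfix p h.2.2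
        · rcases hgap.qz with h | h
          · rw [h]; exact ho.fb g hg
          · exact hfix q h.2.2
      obtain ⟨r, hr, h, hh, h1, h2⟩ := hF2 p q hgap ⟨g, hgS, z, hpz, hzq, hgz⟩
      have hs : h⁻¹ * g * h ∈ Sb G r.1 r.2 := by
        refine ⟨G.mul_mem (G.mul_mem (G.inv_mem hh) hg) hh, ?_, ?_⟩
        · show h⁻¹ (g (h r.1)) = r.1
          rw [h1, hgS.2.1, ← h1, RFM.apply_inv]
        · show h⁻¹ (g (h r.2)) = r.2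
          rw [h2, hgS.2.2, ← h2, RFM.apply_inv]
      have hz' : (h⁻¹ * g * h) (h⁻¹ z) = h⁻¹ z := by
        refine hP r hr _ hs (h⁻¹ z) ((hcl Z hZ).2 h⁻¹ (G.inv_mem hh) z hz) ?_ ?_
        · rw [← h.le_iff_le, RFM.inv_apply, h1]; exact hpz.le
        · rw [← h.le_iff_le, RFM.inv_apply, h2]; exact hzq.le
      apply hgz
      have h3 : h⁻¹ (g (h (h⁻¹ z))) = h⁻¹ z := hz'
      rw [RFM.inv_apply] at h3
      exact (h⁻¹ : Hm).injective h3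
  · by_cases hm : ∃ Z ∈ ZZ, ∀ z ∈ Z, ¬ (a < z ∧ z < b)
    · obtain ⟨Z, hZ, hmZ⟩ := hm
      exact ⟨Z, hZ, fun g _ _ z hz h1 h2 => absurd ⟨h1, h2⟩ (hmZ z hz)⟩
    · exfalso
      obtain ⟨u, v, hau, -, hvb, hCP⟩ := hCPT G a b hfg ho
      have hmeet : ∀ Z ∈ ZZ, ∃ z ∈ Z, u ≤ z ∧ z ≤ v := by
        intro Z hZ
        refine hCP Z (hcl Z hZ).2 ?_
        by_contra hno
        exact hm ⟨Z, hZ, fun z hz hz2 => hno ⟨z, hz, hz2⟩⟩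
      have : Nonempty ((fun Z => Z ∩ Icc u v) '' ZZ) := (hne.image _).to_subtype
      have hint : (⋂₀ ((fun Z => Z ∩ Icc u v) '' ZZ)).Nonempty := by
        apply IsCompact.nonempty_sInter_of_directed_nonempty_isCompact_isClosed
        · rintro _ ⟨Z, hZ, rfl⟩ _ ⟨Z', hZ', rfl⟩
          rcases hch Z hZ Z' hZ' with h | h
          · exact ⟨Z ∩ Icc u v, ⟨Z, hZ, rfl⟩, subset_rfl, Set.inter_subset_inter_left _ h⟩
          · exact ⟨Z' ∩ Icc u v, ⟨Z', hZ', rfl⟩, Set.inter_subset_inter_left _ h, subset_rfl⟩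
        · rintro _ ⟨Z, hZ, rfl⟩
          obtain ⟨z, hz, h1, h2⟩ := hmeet Z hZ
          exact ⟨z, hz, h1, h2⟩
        · rintro _ ⟨Z, hZ, rfl⟩
          exact isCompact_Icc.inter_left (hcl Z hZ).1
        · rintro _ ⟨Z, hZ, rfl⟩
          exact (hcl Z hZ).1.inter isClosed_Icc
      obtain ⟨z, hz⟩ := hint
      obtain ⟨Z1, hZ1⟩ := hne
      have hzI : z ∈ Icc u v := (hz _ ⟨Z1, hZ1, rfl⟩).2
      exact hc ⟨z, lt_of_lt_of_le hau hzI.1, lt_of_le_of_lt hzI.2 hvb,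
        fun Z' hZ' => (hz _ ⟨Z', hZ', rfl⟩).1⟩

theorem specACC (hGP : SpecGP) (hRS : SpecRS) (hFGJ : SpecFGJ) (hGO : SpecGO) (hBJ : SpecBJ)
    (hB0 : SpecB0) (hOF : SpecOF) (hCPT : SpecCPT) : SpecACC := by
  have main : ∀ n, Acc1 n := by
    intro n
    induction n using Nat.strong_induction_on with
    | _ n ih =>
      intro G hpl hbal hfg hbn ZZ hne hcl hch
      obtain ⟨F, hF, hFo, hF2⟩ := hOF G hpl hfg
      obtain ⟨Z, hZ, hP⟩ := chain_min ZZ hne hch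
        (fun (r : ℝ × ℝ) Z => ∀ g ∈ G, (∀ z, (∀ Z' ∈ ZZ, z ∈ Z') → g z = z) →
          ∀ z ∈ Z, r.1 < z → z < r.2 → g z = z)
        (fun r Z Z' h hle g hg hfix z hz h1 h2 => h g hg hfix z (hle hz) h1 h2) F hF
        (fun r hr => orb_case hGP hRS hFGJ hGO hBJ hB0 hCPT n
          (fun m hm => ih m (by omega)) G hpl hbal hfg hbn ZZ hne hcl hch r.1 r.2 (hFo r hr))
      refine ⟨Z, hZ, fun g hg hfix z hz => ?_⟩
      by_contra hgz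
      obtain ⟨r, hr, h1, h2⟩ := hF2 z ⟨g, hg, hgz⟩
      exact hgz (hP r hr g hg hfix z hz h1 h2)
  exact main

end FPT.RC.ACCM
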