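import Pool.Agent.Lib.MP_c27bde_al.RC.Spec

/-!
MP_c27bde_al, RC: chains of normal subgroups; the least normal subgroup is perfect.
-/

set_option autoImplicit false

namespace FPT.RC.ACHM

open Set FPT FPT.GF FPT.RC
open scoped commutatorElement

/-- the fixed point set of a subgroup of `G` -/
def FixS {G : Subgroup Hm} (N : Subgroup ↥G) : Set ℝ := {x | ∀ n ∈ N, n.1 x = x}

theorem fixS_closed {G : Subgroup Hm} (N : Subgroup ↥G) : IsClosed (FixS N) := by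
  have h : FixS N = ⋂ n ∈ N, {x | n.1 x = x} := by
    ext x
    simp [FixS]
  rw [h]
  apply isClosed_biInter
  intro n _
  exact isClosed_eq n.1.continuous continuous_id

theorem fixS_inv {G : Subgroup Hm} (N : Subgroup ↥G) (hN : N.Normal) : Inv G (FixS N) := by
  intro g hg x hx n hn
  have h1 := hN.conj_mem n hn (⟨g, hg⟩ : ↥G)⁻¹
  have h2 := hx _ h1
  have h3 : (((⟨g, hg⟩ : ↥G)⁻¹ * n * (⟨g, hg⟩ : ↥G)⁻¹⁻¹ : ↥G) : Hm) x = g⁻¹ (n.1 (g x)) := by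
    rw [inv_inv]
    rfl
  rw [h3] at h2
  have h4 : g (g⁻¹ (n.1 (g x))) = n.1 (g x) := by
    rw [← RelIso.mul_apply, mul_inv_cancel]
    rfl
  rw [h2] at h4
  exact h4.symm

theorem fixS_anti {G : Subgroup Hm} {N N' : Subgroup ↥G} (h : N ≤ N') : FixS N' ⊆ FixS N :=
  fun _ hx n hn => hx n (h hn)

/-- ascending chains of normal subgroups stabilize modulo the second derived subgroup -/
theorem ach (hB0 : SpecB0) (hACC : SpecACC) (hDSP : SpecDSP) (G : Subgroup Hm) (hpl : PLs G)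
    (hbal : Bal G) (hfg : G.FG) (𝒩 : Set (Subgroup ↥G)) (hne : 𝒩.Nonempty)
    (hnor : ∀ N ∈ 𝒩, N.Normal) (hch : ∀ N ∈ 𝒩, ∀ N' ∈ 𝒩, N ≤ N' ∨ N' ≤ N) :
    ∃ N ∈ 𝒩, ⁅⁅sSup 𝒩, sSup 𝒩⁆, ⁅sSup 𝒩, sSup 𝒩⁆⁆ ≤ N := by
  obtain ⟨n, hn⟩ := hB0.ex G hpl hfg
  obtain ⟨Z, ⟨N, hN, rfl⟩, hZ⟩ := hACC n G hpl hbal hfg hn (FixS '' 𝒩) (hne.image _)
    (by
      rintro _ ⟨N, hN, rfl⟩
      exact ⟨fixS_closed N, fixS_inv N (hnor N hN)⟩)
    (by
      rintro _ ⟨N, hN, rfl⟩ _ ⟨N', hN', rfl⟩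
      rcases hch N hN N' hN' with h | h
      · right; exact fixS_anti h
      · left; exact fixS_anti h)
  refine ⟨N, hN, ?_⟩
  apply hDSP G hpl N (sSup 𝒩) (hnor N hN)
  intro x hx m hm
  refine hZ m.1 m.2 ?_ x hx
  intro z hz
  have hdir : DirectedOn (· ≤ ·) 𝒩 := by
    intro A hA B hB
    rcases hch A hA B hB with h | h
    · exact ⟨B, hB, h, le_refl _⟩
    · exact ⟨A, hA, le_refl _, h⟩
  obtain ⟨N', hN', hm'⟩ := (Subgroup.mem_sSup_of_directedOn hne hdir).1 hm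
  exact hz (FixS N') ⟨N', hN', rfl⟩ m hm'

/-- the least normal subgroup is perfect -/
theorem perf {C : (G : Type) → [Group G] → Prop} (hC : Cls C) {L : Type} [Group L]
    (N : Subgroup L) (hN : N.Normal) (h : C (L ⧸ N))
    (hmin : ∀ (N' : Subgroup L) (_ : N'.Normal), C (L ⧸ N') → N ≤ N') : ⁅N, N⁆ = N := by
  apply le_antisymm (Subgroup.commutator_le_left N N)
  have hD : (⁅N, N⁆ : Subgroup L).Normal := Subgroup.commutator_normal N N
  apply hmin _ hD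
  have hle : ⁅N, N⁆ ≤ N := Subgroup.commutator_le_left N N
  have hM : (N.map (QuotientGroup.mk' ⁅N, N⁆)).Normal :=
    hN.map _ (QuotientGroup.mk'_surjective _)
  refine hC.ext (L ⧸ ⁅N, N⁆) (N.map (QuotientGroup.mk' ⁅N, N⁆)) ?_ ?_
  · apply hC.ab
    rintro ⟨_, a, ha, rfl⟩ ⟨_, b, hb, rfl⟩
    apply Subtype.ext
    show QuotientGroup.mk' ⁅N, N⁆ a * QuotientGroup.mk' ⁅N, N⁆ b =
      QuotientGroup.mk' ⁅N, N⁆ b * QuotientGroup.mk' ⁅N, N⁆ a
    rw [← commutatorElement_eq_one_iff_mul_comm]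
    have h1 : QuotientGroup.mk' ⁅N, N⁆ ⁅a, b⁆ = 1 := by
      rw [← MonoidHom.mem_ker, QuotientGroup.ker_mk']
      exact Subgroup.commutator_mem_commutator ha hb
    rwa [map_commutatorElement] at h1
  · exact hC.iso _ _ (QuotientGroup.quotientQuotientEquivQuotient ⁅N, N⁆ N hle).symm h

end FPT.RC.ACHM
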