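import Pool.Agent.Lib.MP_c27bde_al.RC.Spec

/-! MP_c27bde_al, RC, module B0: finitely many orbits of break points (helper39). -/

set_option autoImplicit false

namespace FPT.RC.B0M

open Set FPT FPT.GF

theorem brk_orbit (S : Set Hm) (hpl : PLs (Subgroup.closure S)) (g : Hm)
    (hg : g ∈ Subgroup.closure S) : ∀ x, er g x ≠ el g x →
      ∃ e ∈ ⋃ s ∈ S, {x | er s x ≠ el s x}, ∃ k ∈ Subgroup.closure S, k e = x := by
  induction hg using Subgroup.closure_induction with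
  | mem s hs =>
    intro x hx
    exact ⟨x, mem_iUnion₂.2 ⟨s, hs, hx⟩, 1, Subgroup.one_mem _, rfl⟩
  | one =>
    intro x hx
    rw [FINM.pl2.er1, FINM.pl2.el1] at hx
    exact absurd rfl hx
  | mul g h hg hh ihg ihh =>
    intro x hx
    by_cases hb : er h x ≠ el h x
    · exact ihh x hb
    · push Not at hb
      rw [FINM.plb.erM g h x (hpl g hg) (hpl h hh), FINM.plb.elM g h x (hpl g hg) (hpl h hh), hb]
        at hx
      obtain ⟨e, he, k, hk, hke⟩ := ihg (h x) (fun hc => hx (by rw [hc]))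
      refine ⟨e, he, h⁻¹ * k, Subgroup.mul_mem _ (Subgroup.inv_mem _ hh) hk, ?_⟩
      rw [RelIso.mul_apply, hke, ← RelIso.mul_apply, inv_mul_cancel]
      rfl
  | inv g hg ih =>
    intro x hx
    have hx1 : x = g (g⁻¹ x) := by
      rw [← RelIso.mul_apply, mul_inv_cancel]
      rfl
    rw [hx1, FINM.pl2.erI g _ (hpl g hg), FINM.pl2.elI g _ (hpl g hg)] at hx
    obtain ⟨e, he, k, hk, hke⟩ := ih (g⁻¹ x) (fun hc => hx (by rw [hc]))
    refine ⟨e, he, g * k, Subgroup.mul_mem _ hg hk, ?_⟩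
    rw [RelIso.mul_apply, hke, ← hx1]

theorem ex (G : Subgroup Hm) (hpl : PLs G) (hfg : G.FG) : ∃ n, BN G n := by
  obtain ⟨S, hS, hSf⟩ := (Subgroup.fg_iff G).1 hfg
  have hEf : (⋃ s ∈ S, {x | er s x ≠ el s x}).Finite :=
    hSf.biUnion fun s hs => FINM.plb.brk s (hpl s (hS ▸ Subgroup.subset_closure hs))
  refine ⟨hEf.toFinset.card, hEf.toFinset, le_rfl, ?_⟩
  rintro x ⟨-, g, hg, hb⟩
  subst hS
  obtain ⟨e, he, k, hk, hke⟩ := brk_orbit S hpl g hg x hb
  exact ⟨e, hEf.mem_toFinset.2 he, k, hk, hke⟩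

/-- some element has a non-trivial germ at the left end of an orbital -/
theorem germ (G : Subgroup Hm) (hpl : PLs G) (hfg : G.FG) (a b : ℝ) (hab : a < b)
    (fa : ∀ g ∈ G, g a = a) (horb : ∀ v, a < v → v < b → ∃ g ∈ G, g v ≠ v) :
    ∃ t ∈ G, er t a ≠ 0 := by
  by_contra hcon
  push Not at hcon
  obtain ⟨S, rfl, hSf⟩ := (Subgroup.fg_iff G).1 hfg
  obtain ⟨ε, hε, hfix⟩ := RDM.common_eps S hSf a fun s hs =>
    FINM.pl2.er0 s a (hpl s (Subgroup.subset_closure hs)) (fa s (Subgroup.subset_closure hs))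
      (hcon s (Subgroup.subset_closure hs))
  have h1 := min_le_left ε ((b - a) / 2)
  have h2 := min_le_right ε ((b - a) / 2)
  have h3 : 0 < min ε ((b - a) / 2) := lt_min hε (by linarith)
  obtain ⟨g, hg, hne⟩ := horb (a + min ε ((b - a) / 2)) (by linarith) (by linarith)
  exact hne (RDM.fix_closure S _ (fun s hs => hfix s hs _ (by linarith) (by linarith)) g hg)

theorem specB0 (hLIN : SpecLIN) : SpecB0 := by
  refine ⟨ex, ?_⟩
  intro G hpl hfg hBN g hg x
  by_contra hne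
  obtain ⟨a, b, hax, hxb, fa, fb, horb⟩ := FINM.ord.orbital G hpl x ⟨g, hg, hne⟩
  have hab : a < b := hax.trans hxb
  obtain ⟨t, ht, ht0⟩ := germ G hpl hfg a b hab fa horb
  have hmv : ∃ y, a < y ∧ y < b ∧ t y ≠ y := by
    by_contra hcon
    push Not at hcon
    apply ht0
    apply FINM.pl2.er0'
    refine ⟨(b - a) / 2, by linarith, fun y hy1 hy2 => ?_⟩
    rcases hy1.eq_or_lt with h | h
    · rw [← h, fa t ht]
    · exact hcon y h (by linarith)
  obtain ⟨y, hy1, hy2, hy3⟩ := hmv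
  obtain ⟨z, hz1, hz2, hz3⟩ := hLIN.brk t (hpl t ht) a b (fa t ht) (fb t ht) y hy1 hy2 hy3
  obtain ⟨E, hE, hEx⟩ := hBN
  obtain ⟨e, he, -⟩ := hEx z ⟨horb z hz1 hz2, t, ht, hz3⟩
  rw [Nat.le_zero, Finset.card_eq_zero] at hE
  rw [hE] at he
  simp at he

end FPT.RC.B0M
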