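import Pool.Agent.Lib.MP_c27bde_al.RC.Spec

/-!
MP_c27bde_al, RC: module BJ (the number of orbits of moved break points drops when one passes to a gap).
-/

set_option autoImplicit false

namespace FPT.RC.BJM

open Set FPT FPT.GF FPT.RC

/-- every element of the stabilizer of `(p,q)` induces an element of `Γ` -/
theorem rest {G Γ : Subgroup Hm} {p q : ℝ} (hpq : p < q) (hG : PLs G) (hR : RJ G p q Γ)
    {s : Hm} (hs : s ∈ Sb G p q) : ∃ γ ∈ Γ, ∀ w, p ≤ w → w ≤ q → γ w = s w := by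
  obtain ⟨f, ⟨h1, h2⟩, -⟩ := MainM.ra (Sb G p q) p q hpq (fun g hg => hG g hg.1)
    (fun g hg => hg.2.1) (fun g hg => hg.2.2)
  refine ⟨f ⟨s, hs⟩, ?_, fun w hw hw' => h1 _ w hw hw'⟩
  rw [hR]
  exact ⟨s, hs, fun w hw hw' => h1 _ w hw hw', fun w hw => h2 _ w hw⟩

/-- if `g e = x` and `g' e = y` then `g g'⁻¹` maps `y` to `x` -/
theorem map_of {g g' : Hm} {e x y : ℝ} (h : g e = x) (h' : g' e = y) : (g * g'⁻¹) y = x := by
  rw [RelIso.mul_apply, ← h', RelIso.inv_apply_self, h]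

theorem specBJ (hGP : SpecGP) (hRS : SpecRS) (hSTR : SpecSTR) : SpecBJ := by
  classical
  intro G a b Z hS p q Γ hgap hR hPL hFG n ⟨E, hcard, hE⟩
  obtain ⟨x0, ha0, hb0, hbr0, hnm⟩ := hSTR G a b Z hS p q Γ hgap hR hFG
  obtain ⟨e0, he0, g0, hg0, hge0⟩ := hE x0 ⟨hS.orb.mv x0 ha0 hb0, hbr0⟩
  let P : ℝ → ℝ → Prop := fun e y => BrO Γ y ∧ ∃ g ∈ G, g e = y
  let φ : ℝ → ℝ := fun e => if h : ∃ y, P e y then h.choose else 0
  have hφ : ∀ e, (∃ y, P e y) → P e (φ e) := by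
    intro e h
    simp only [φ, dif_pos h]
    exact h.choose_spec
  refine ⟨(E.erase e0).image φ, ?_, ?_⟩
  · have h1 := Finset.card_image_le (s := E.erase e0) (f := φ)
    have h2 := Finset.card_erase_of_mem he0
    omega
  · intro x hx
    obtain ⟨hpx, hxq, ⟨s, hs, hsx⟩, ⟨t, ht, htx⟩⟩ := hRS.brk G Γ p q hS.pl hPL hR x hx
    obtain ⟨e, he, g, hg, hge⟩ := hE x ⟨⟨s, hs.1, hsx⟩, ⟨t, ht.1, htx⟩⟩
    have hne : e ≠ e0 := by
      rintro rfl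
      have h1 : (g * g0⁻¹) x0 = x := map_of hge hge0
      have h3 := hnm (g * g0⁻¹) (G.mul_mem hg (G.inv_mem hg0)) (by rw [h1]; exact hpx)
        (by rw [h1]; exact hxq) s hs
      rw [h1] at h3
      exact hsx h3
    obtain ⟨hy, g', hg', hge'⟩ : P e (φ e) := hφ e ⟨x, hx, g, hg, hge⟩
    obtain ⟨hpy, hyq, -, -⟩ := hRS.brk G Γ p q hS.pl hPL hR (φ e) hy
    refine ⟨φ e, Finset.mem_image_of_mem φ (Finset.mem_erase.2 ⟨hne, he⟩), ?_⟩
    have h1 : (g * g'⁻¹) (φ e) = x := map_of hge hge'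
    have h2 : g * g'⁻¹ ∈ Sb G p q :=
      hGP.st G a b Z hS p q hgap _ (G.mul_mem hg (G.inv_mem hg')) (φ e) hpy hyq
        (by rw [h1]; exact hpx) (by rw [h1]; exact hxq)
    obtain ⟨γ, hγ, hγe⟩ := rest hgap.pq hS.pl hR h2
    exact ⟨γ, hγ, by rw [hγe (φ e) hpy.le hyq.le, h1]⟩

end FPT.RC.BJM
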