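import Pool.Agent.Lib.MP_c27bde_al.RC.Spec

/-!
MP_c27bde_al, RC: a maximal chain of normal subgroups is a normal system whose factors are chief factors.
-/

set_option autoImplicit false

namespace FPT.RC.CHFM

open Set FPT FPT.GF FPT.RC

/-- all chief factors are in `C` -/
def Chief (C : (G : Type) → [Group G] → Prop) (L : Type) [Group L] : Prop :=
  ∀ A B : Subgroup L, A.Normal → B.Normal → A < B →
    (∀ D : Subgroup L, D.Normal → A ≤ D → D ≤ B → D = A ∨ D = B) →
    ∀ _ : (A.subgroupOf B).Normal, C (↥B ⧸ A.subgroupOf B)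

theorem sup_normal {L : Type} [Group L] (T : Set (Subgroup L)) (hT : ∀ N ∈ T, N.Normal) :
    (sSup T).Normal := by
  constructor
  intro n hn g
  have h : sSup T ≤ (sSup T).comap (MulAut.conj g).toMonoidHom := by
    apply sSup_le
    intro N hN x hx
    rw [Subgroup.mem_comap]
    exact (le_sSup hN : N ≤ sSup T) ((hT N hN).conj_mem x hx g)
  exact h hn

theorem inf_normal {L : Type} [Group L] (T : Set (Subgroup L)) (hT : ∀ N ∈ T, N.Normal) :
    (sInf T).Normal := by
  constructor
  intro n hn g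
  rw [Subgroup.mem_sInf] at hn ⊢
  intro N hN
  exact (hT N hN).conj_mem n (hn N hN) g

/-- a maximal chain of normal subgroups -/
theorem ex_sys (C : (G : Type) → [Group G] → Prop) (L : Type) [Group L] (h : Chief C L) :
    ∃ S, NSys C L S := by
  obtain ⟨M, hM⟩ : ∃ M : Set {N : Subgroup L // N.Normal}, IsMaxChain (· ≤ ·) M :=
    ⟨_, maxChain_spec⟩
  obtain ⟨S, hS⟩ : ∃ S : Set (Subgroup L), S = Subtype.val '' M := ⟨_, rfl⟩
  have hmem : ∀ N : Subgroup L, N ∈ S ↔ ∃ hN : N.Normal, (⟨N, hN⟩ : {N : Subgroup L // N.Normal}) ∈ M := by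
    intro N
    rw [hS]
    constructor
    · rintro ⟨⟨N', hN'⟩, h1, rfl⟩
      exact ⟨hN', h1⟩
    · rintro ⟨hN, h1⟩
      exact ⟨⟨N, hN⟩, h1, rfl⟩
  have hnor : ∀ N ∈ S, N.Normal := fun N hN => ((hmem N).1 hN).1
  have hch : ∀ N ∈ S, ∀ N' ∈ S, N ≤ N' ∨ N' ≤ N := by
    intro N hN N' hN'
    obtain ⟨h1, h2⟩ := (hmem N).1 hN
    obtain ⟨h3, h4⟩ := (hmem N').1 hN'
    exact hM.isChain.total h2 h4
  have hmax : ∀ D : Subgroup L, D.Normal → (∀ N ∈ S, N ≤ D ∨ D ≤ N) → D ∈ S := by
    intro D hD hc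
    rw [hmem]
    refine ⟨hD, ?_⟩
    have h1 : IsChain (· ≤ ·) (insert (⟨D, hD⟩ : {N : Subgroup L // N.Normal}) M) := by
      apply hM.isChain.insert
      intro b hb _
      rcases hc b.1 ((hmem b.1).2 ⟨b.2, hb⟩) with h | h
      · right; exact h
      · left; exact h
    have h2 := hM.2 h1 (Set.subset_insert _ _)
    rw [h2]
    exact Set.mem_insert _ _
  refine ⟨S, hnor, hch, ?_, ?_, ?_, ?_, ?_⟩
  · exact hmax ⊥ inferInstance (fun N _ => Or.inr bot_le)
  · exact hmax ⊤ inferInstance (fun N _ => Or.inl le_top)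
  · intro T hT hne
    apply hmax _ (sup_normal T (fun N hN => hnor N (hT hN)))
    intro N hN
    by_cases hx : ∃ t ∈ T, N ≤ t
    · obtain ⟨t, ht, hNt⟩ := hx
      exact Or.inl (hNt.trans (le_sSup ht))
    · right
      apply sSup_le
      intro t ht
      rcases hch t (hT ht) N hN with h1 | h1
      · exact h1
      · exact absurd ⟨t, ht, h1⟩ hx
  · intro T hT hne
    apply hmax _ (inf_normal T (fun N hN => hnor N (hT hN)))
    intro N hN
    by_cases hx : ∃ t ∈ T, t ≤ N
    · obtain ⟨t, ht, hNt⟩ := hx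
      exact Or.inr ((sInf_le ht).trans hNt)
    · left
      apply le_sInf
      intro t ht
      rcases hch t (hT ht) N hN with h1 | h1
      · exact absurd ⟨t, ht, h1⟩ hx
      · exact h1
  · intro A hA B hB hAB hD hn
    refine h A B (hnor A hA) (hnor B hB) hAB ?_ hn
    intro D hDn h1 h2
    apply hD D _ h1 h2
    apply hmax D hDn
    intro N hN
    by_cases h3 : N ≤ A
    · exact Or.inl (h3.trans h1)
    · have h4 : A ≤ N := by
        rcases hch A hA N hN with h | h
        · exact h
        · exact absurd h h3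
      by_cases h5 : B ≤ N
      · exact Or.inr (h2.trans h5)
      · have h6 : N ≤ B := by
          rcases hch N hN B hB with h | h
          · exact h
          · exact absurd h h5
        rcases hD N hN h4 h6 with h | h
        · exact absurd (le_of_eq h) h3
        · exact absurd (le_of_eq h.symm) h5

end FPT.RC.CHFM
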