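import Pool.Agent.Lib.MP_c27bde_al.RC.Spec

/-!
MP_c27bde_al, RC, module CLA: elementary amenable groups and solvable groups are classes.
-/

set_option autoImplicit false

namespace FPT.RC.CLAM

open Set FPT FPT.GF
open scoped commutatorElement

/-- finite powers -/
theorem pow_fin (C : (G : Type) → [Group G] → Prop)
    (iso : ∀ (G G' : Type) [Group G] [Group G'], (G ≃* G') → C G → C G')
    (ab : ∀ (G : Type) [Group G], (∀ a b : G, a * b = b * a) → C G)
    (sub : ∀ (G : Type) [Group G] (K : Subgroup G), C G → C ↥K)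
    (ext : ∀ (G : Type) [Group G] (N : Subgroup G) [N.Normal], C ↥N → C (G ⧸ N) → C G)
    (A : Type) [Group A] (hA : C A) (ι : Type) (I : Finset ι) :
    ∀ (B : Type) [Group B] (f : ι → (B →* A)), (∀ b, (∀ i ∈ I, f i b = 1) → b = 1) → C B := by
  classical
  induction I using Finset.induction_on with
  | empty =>
    intro B _ f h
    apply ab
    intro a b
    rw [h a (by simp), h b (by simp)]
  | insert i I hi ih =>
    intro B _ f h
    refine ext B (f i).ker ?_ ?_
    · refine ih ↥(f i).ker (fun j => (f j).comp (f i).ker.subtype) ?_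
      intro b hb
      apply Subtype.ext
      apply h
      intro j hj
      rcases Finset.mem_insert.1 hj with rfl | hj
      · exact b.2
      · exact hb j hj
    · exact iso _ _ (QuotientGroup.quotientKerEquivRange (f i)).symm (sub A (f i).range hA)

theorem ea_iso (G G' : Type) [Group G] [Group G'] (e : G ≃* G') (h : EA G) : EA G' := by
  intro C h1 h2 h3 h4 h5 h6 h7
  exact h7 G G' e (h C h1 h2 h3 h4 h5 h6 h7)

theorem ea_sub (G : Type) [Group G] (K : Subgroup G) (h : EA G) : EA ↥K := by
  intro C h1 h2 h3 h4 h5 h6 h7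
  exact h3 G K (h C h1 h2 h3 h4 h5 h6 h7)

theorem ea_quo (G : Type) [Group G] (N : Subgroup G) [N.Normal] (h : EA G) : EA (G ⧸ N) := by
  intro C h1 h2 h3 h4 h5 h6 h7
  exact h4 G N (h C h1 h2 h3 h4 h5 h6 h7)

theorem ea_ext (G : Type) [Group G] (N : Subgroup G) [N.Normal] (h : EA ↥N)
    (h' : EA (G ⧸ N)) : EA G := by
  intro C h1 h2 h3 h4 h5 h6 h7
  exact h5 G N (h C h1 h2 h3 h4 h5 h6 h7) (h' C h1 h2 h3 h4 h5 h6 h7)

theorem ea_loc (G : Type) [Group G]
    (h : ∀ s : Finset G, EA ↥(Subgroup.closure (s : Set G))) : EA G := by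
  intro C h1 h2 h3 h4 h5 h6 h7
  exact h6 G fun s => h s C h1 h2 h3 h4 h5 h6 h7

theorem ea_pow (G A : Type) [Group G] [Group A] (ι : Type) (f : ι → (G →* A)) (hA : EA A)
    (hfin : ∀ g, {i | f i g ≠ 1}.Finite) (hinj : ∀ g, (∀ i, f i g = 1) → g = 1) : EA G := by
  classical
  refine ea_loc G fun s => ?_
  obtain ⟨I, hI⟩ : ∃ I : Finset ι, I = s.biUnion fun g => (hfin g).toFinset := ⟨_, rfl⟩
  refine pow_fin (fun G [Group G] => EA G) ea_iso (fun G _ h => FINM.ea_of_comm G h) ea_sub
    ea_ext A hA ι I _ (fun i => (f i).comp (Subgroup.closure (s : Set G)).subtype) ?_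
  intro b hb
  apply Subtype.ext
  apply hinj
  intro i
  by_cases hi : i ∈ I
  · exact hb i hi
  · have h1 : Subgroup.closure (s : Set G) ≤ (f i).ker := by
      rw [Subgroup.closure_le]
      intro g hg
      by_contra h2
      apply hi
      rw [hI, Finset.mem_biUnion]
      exact ⟨g, hg, by
        rw [Set.Finite.mem_toFinset]
        exact h2⟩
    exact h1 b.2

theorem ea_of_derived (n : ℕ) : ∀ (G : Type) [Group G], derivedSeries G n = ⊥ → EA G := by
  induction n with
  | zero =>
    intro G _ h
    rw [derivedSeries_zero] at h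
    apply FINM.ea_of_comm
    intro x y
    have hx : x ∈ (⊥ : Subgroup G) := h ▸ Subgroup.mem_top x
    have hy : y ∈ (⊥ : Subgroup G) := h ▸ Subgroup.mem_top y
    rw [Subgroup.mem_bot.1 hx, Subgroup.mem_bot.1 hy]
  | succ n ih =>
    intro G _ h
    refine ea_ext G (derivedSeries G n) ?_ ?_
    · apply FINM.ea_of_comm
      intro x y
      rw [derivedSeries_succ] at h
      have h1 : ⁅x.1, y.1⁆ ∈ (⊥ : Subgroup G) := h ▸ Subgroup.commutator_mem_commutator x.2 y.2
      have h2 := commutatorElement_eq_one_iff_mul_comm.1 (Subgroup.mem_bot.1 h1)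
      exact Subtype.ext h2
    · apply ih
      rw [← map_derivedSeries_eq (f := QuotientGroup.mk' (derivedSeries G n))
        (QuotientGroup.mk'_surjective _) n, Subgroup.map_eq_bot_iff, QuotientGroup.ker_mk']



theorem specCLA : SpecCLA where
  ea :=
    { iso := ea_iso
      ab := fun G _ h => FINM.ea_of_comm G h
      sub := ea_sub
      quo := ea_quo
      ext := ea_ext
      pow := ea_pow }
  so :=
    { iso := fun G G' _ _ e h => by
        have := h
        exact Group.isSolvable_of_surjective (f := e.toMonoidHom) e.surjective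
      ab := fun G _ h => by
        refine ⟨1, ?_⟩
        rw [derivedSeries_succ, derivedSeries_zero, Subgroup.commutator_eq_bot_iff_le_centralizer]
        intro a _ b _
        exact h b a
      sub := fun G _ K h => by
        have := h
        infer_instance
      quo := fun G _ N _ h => by
        have := h
        infer_instance
      ext := fun G _ N _ h h' => by
        have := h
        have := h'
        exact Group.isSolvable_of_ker_le_range N.subtype (QuotientGroup.mk' N)
          (by rw [QuotientGroup.ker_mk', Subgroup.range_subtype])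
      pow := fun G A _ _ ι f hA _ hinj => by
        obtain ⟨n, hn⟩ := hA
        refine ⟨n, ?_⟩
        rw [eq_bot_iff]
        intro g hg
        rw [Subgroup.mem_bot]
        apply hinj
        intro i
        have h1 := map_derivedSeries_le_derivedSeries (f i) n (Subgroup.mem_map_of_mem (f i) hg)
        rw [hn, Subgroup.mem_bot] at h1
        exact h1 }
  loc := fun H _ h => ea_loc H fun s => h _ ⟨s, rfl⟩
  fte := fun h => FINM.no_copy FT (MulEquiv.refl FT) FT h
    ⟨MonoidHom.id FT, Function.injective_id⟩
  fts := fun h => by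
    obtain ⟨n, hn⟩ := h
    exact FINM.no_copy FT (MulEquiv.refl FT) FT (ea_of_derived n FT hn)
      ⟨MonoidHom.id FT, Function.injective_id⟩

end FPT.RC.CLAM
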