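import Pool.Agent.Lib.MP_c27bde_al.RC.Spec

/-! Module CPT (theorem RC, MP_c27bde_al): a compact piece of an orbital which meets every invariant set that meets the orbital. -/

set_option autoImplicit false

namespace FPT.RC.CPTM

open Set FPT FPT.GF FPT.RC

theorem specCPT : SpecCPT := by
  classical
  intro G a b hfg hO
  obtain ⟨S, hS⟩ := hfg
  have hSG : ∀ s ∈ S, s ∈ G := fun s hs => by
    rw [← hS]
    exact Subgroup.subset_closure hs
  set u : ℝ := (a + b) / 2 with hu
  have hau : a < u := by have := hO.lt; rw [hu]; linarith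
  have hub : u < b := by have := hO.lt; rw [hu]; linarith
  set T : Finset Hm := insert 1 (S ∪ S.image (·⁻¹)) with hT
  have hTG : ∀ s ∈ T, s ∈ G := by
    intro s hs
    rw [hT, Finset.mem_insert, Finset.mem_union, Finset.mem_image] at hs
    rcases hs with rfl | hs | ⟨t, ht, rfl⟩
    · exact G.one_mem
    · exact hSG s hs
    · exact G.inv_mem (hSG t ht)
  obtain ⟨t, htT, hmax⟩ := T.exists_max_image (fun s : Hm => s u) ⟨1, Finset.mem_insert_self _ _⟩
  have hlt : ∀ (g : Hm) (x y : ℝ), x < y → g x < g y := fun g x y h => g.lt_iff_lt.2 h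
  refine ⟨u, t u, hau, ?_, ?_, ?_⟩
  · have := hmax 1 (Finset.mem_insert_self _ _)
    simpa using this
  · calc t u < t b := hlt t u b hub
      _ = b := hO.fb t (hTG t htT)
  · intro Z hZ hz
    obtain ⟨z, hzZ, haz, hzb⟩ := hz
    by_contra hno
    push Not at hno
    have hORD := FINM.ord
    obtain ⟨g0, hg0, hg0u⟩ := hORD.orbL G a b hO.fa hO.fb hO.mv z u haz hzb hau
    have hw : g0 z ∈ Z := hZ g0 hg0 z hzZ
    have haw : a < g0 z := by
      calc a = g0 a := (hO.fa g0 hg0).symm
        _ < g0 z := hlt g0 a z haz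
    have hstep : ∀ s ∈ T, ∀ y ∈ Z, y < u → s y < u := by
      intro s hs y hy hyu
      by_contra hcon
      rw [not_lt] at hcon
      have h1 := hno (s y) (hZ s (hTG s hs) y hy) hcon
      have h2 := hlt s y u hyu
      have h3 : s u ≤ t u := hmax s hs
      linarith
    have hall : ∀ g ∈ G, g ∈ G ∧ ∀ y ∈ Z, y < u → g y < u := by
      intro g hg
      refine ⟨hg, ?_⟩
      rw [← hS] at hg
      induction hg using Subgroup.closure_induction_left with
      | one => intro y _ hyu; simpa using hyu
      | mul_left x hx y hy ih =>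
        intro w hw hwu
        rw [RelIso.mul_apply]
        have hyG : y ∈ G := by rw [← hS]; exact hy
        exact hstep x (Finset.mem_insert_of_mem (Finset.mem_union_left _ hx)) _
          (hZ y hyG w hw) (ih w hw hwu)
      | inv_mul_cancel x hx y hy ih =>
        intro w hw hwu
        rw [RelIso.mul_apply]
        have hyG : y ∈ G := by rw [← hS]; exact hy
        exact hstep x⁻¹ (Finset.mem_insert_of_mem (Finset.mem_union_right _
          (Finset.mem_image_of_mem _ hx))) _ (hZ y hyG w hw) (ih w hw hwu)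
    obtain ⟨g, hg, hgu⟩ := hORD.orbR G a b hO.fa hO.fb hO.mv (g0 z) u haw
      (hg0u.trans hub) hub
    have := (hall g hg).2 (g0 z) hw hg0u
    linarith

end FPT.RC.CPTM
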