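import Pool.Agent.Lib.MP_c27bde_al.RC.Spec

/-!
MP_c27bde_al, RC, module DSP: if the subgroup `M` fixes all points fixed by the normal subgroup `N`
then the second derived subgroup of `M` is contained in `N`.
-/

set_option autoImplicit false

namespace FPT.RC.DSPM

open Set FPT FPT.GF
open scoped commutatorElement

theorem specDSP : SpecDSP := by
  intro G hpl N M hN hfix
  obtain ⟨H, hH⟩ : ∃ H : Subgroup Hm, H = Fx G {x | ∀ n ∈ N, n.1 x = x} := ⟨_, rfl⟩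
  have key : ∀ k1 ∈ ⁅H, H⁆, ∀ k2 ∈ ⁅H, H⁆, k1 * k2 * k1⁻¹ * k2⁻¹ ∈ N.map G.subtype := by
    intro k1 hk1 k2 hk2
    refine RFM.comm_mem FINM.plb FINM.pl2 FINM.ord H (N.map G.subtype) ?_ ?_ ?_ ?_ k1 k2 hk1 hk2
    · intro g hg
      rw [hH] at hg
      exact hpl g hg.1
    · rintro g ⟨z, hz, rfl⟩
      rw [hH]
      exact ⟨z.2, fun x hx => hx z hz⟩
    · rintro h hh n ⟨w, hw, rfl⟩
      rw [hH] at hh
      exact ⟨⟨h, hh.1⟩ * w * ⟨h, hh.1⟩⁻¹, hN.conj_mem w hw _, rfl⟩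
    · intro u hu g hg
      rw [hH] at hg
      exact hg.2 u (fun n hn => hu _ ⟨n, hn, rfl⟩)
  have hMH : M.map G.subtype ≤ H := by
    rintro g ⟨m, hm, rfl⟩
    rw [hH]
    exact ⟨m.2, fun x hx => hfix x hx m hm⟩
  have hm : ∀ z ∈ ⁅M, M⁆, G.subtype z ∈ ⁅H, H⁆ := by
    intro z hz
    have h2 := Subgroup.map_commutator M M G.subtype
    have h3 : G.subtype z ∈ (⁅M, M⁆ : Subgroup ↥G).map G.subtype := ⟨z, hz, rfl⟩
    rw [h2] at h3
    exact Subgroup.commutator_mono hMH hMH h3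
  rw [Subgroup.commutator_le]
  intro x hx y hy
  obtain ⟨w, hw, hw'⟩ := key _ (hm x hx) _ (hm y hy)
  have h3 : w = ⁅x, y⁆ := Subtype.ext hw'
  rw [← h3]
  exact hw

end FPT.RC.DSPM
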