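import Pool.Agent.Lib.MP_c27bde_al.RC.Spec

/-! MP_c27bde_al, RC, module FGJ: the group induced on a gap is finitely generated (helper39). -/

set_option autoImplicit false

namespace FPT.RC.FGJM

open Set FPT FPT.GF

/-- `g` is affine on `[u,v]` -/
def Lin (g : Hm) (u v : ℝ) : Prop :=
  ∀ y, u ≤ y → y ≤ v → (g y - g u) * (v - u) = (g v - g u) * (y - u)

theorem lin_one (u v : ℝ) : Lin 1 u v := by
  intro y _ _
  show (y - u) * (v - u) = (v - u) * (y - u)
  ring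

theorem lin_mul {g h : Hm} {u v : ℝ} (huv : u < v) (hh : Lin h u v)
    (hg : Lin g (h u) (h v)) : Lin (g * h) u v := by
  intro y hy hyv
  have h1 := hg (h y) (h.monotone hy) (h.monotone hyv)
  have h2 := hh y hy hyv
  have h3 : (0:ℝ) < h v - h u := sub_pos.2 (h.strictMono huv)
  have h4 : ((g (h y) - g (h u)) * (v - u) - (g (h v) - g (h u)) * (y - u)) * (h v - h u) = 0 := by
    have : ((g (h y) - g (h u)) * (v - u) - (g (h v) - g (h u)) * (y - u)) * (h v - h u)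
        = (v - u) * ((g (h y) - g (h u)) * (h v - h u) - (g (h v) - g (h u)) * (h y - h u))
          + (g (h v) - g (h u)) * ((h y - h u) * (v - u) - (h v - h u) * (y - u)) := by ring
    rw [this, h1, h2]
    ring
  have h5 := (mul_eq_zero.1 h4).resolve_right h3.ne'
  show (g (h y) - g (h u)) * (v - u) = (g (h v) - g (h u)) * (y - u)
  linarith

theorem inv_app (g : Hm) (x : ℝ) : g⁻¹ (g x) = x := by
  rw [← RelIso.mul_apply, inv_mul_cancel]
  rfl

theorem app_inv (g : Hm) (x : ℝ) : g (g⁻¹ x) = x := by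
  rw [← RelIso.mul_apply, mul_inv_cancel]
  rfl

theorem lin_inv {g : Hm} {u v : ℝ} (hg : Lin g u v) : Lin g⁻¹ (g u) (g v) := by
  intro y hy hyv
  have h1 : u ≤ g⁻¹ y := by
    have := (g⁻¹).monotone hy
    rwa [inv_app] at this
  have h2 : g⁻¹ y ≤ v := by
    have := (g⁻¹).monotone hyv
    rwa [inv_app] at this
  have h3 := hg (g⁻¹ y) h1 h2
  rw [app_inv] at h3
  rw [inv_app, inv_app]
  linarith

theorem lin_fix {g : Hm} {u v : ℝ} (huv : u < v) (hg : Lin g u v) (hu : g u = u) (hv : g v = v)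
    (y : ℝ) (hy : u ≤ y) (hyv : y ≤ v) : g y = y := by
  have h1 := hg y hy hyv
  rw [hu, hv] at h1
  have h2 : (g y - y) * (v - u) = 0 := by
    have : (g y - y) * (v - u) = (g y - u) * (v - u) - (v - u) * (y - u) := by ring
    rw [this, h1]
    ring
  have h3 := (mul_eq_zero.1 h2).resolve_right (by linarith)
  linarith

theorem lin_of (hLIN : SpecLIN) {g : Hm} (hg : IsPL g) {u v : ℝ} (huv : u < v)
    (h : ∀ x, u < x → x < v → er g x = el g x) : Lin g u v := by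
  intro y hy hyv
  rw [hLIN.lin g hg u v huv h y hy hyv, hLIN.lin g hg u v huv h v huv.le le_rfl]
  ring

/-- the translates of `(p,q)` -/
def TG (G : Subgroup Hm) (p q : ℝ) : Set (ℝ × ℝ) := {P | ∃ h ∈ G, h p = P.1 ∧ h q = P.2}

section

variable {G : Subgroup Hm} {p q : ℝ}

theorem tg_lt (hpq : p < q) {P : ℝ × ℝ} (hP : P ∈ TG G p q) : P.1 < P.2 := by
  obtain ⟨h, -, h1, h2⟩ := hP
  rw [← h1, ← h2]
  exact h.strictMono hpq

theorem tg_act {P : ℝ × ℝ} (hP : P ∈ TG G p q) {g : Hm} (hg : g ∈ G) :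
    (g P.1, g P.2) ∈ TG G p q := by
  obtain ⟨h, hh, h1, h2⟩ := hP
  exact ⟨g * h, G.mul_mem hg hh, by rw [RelIso.mul_apply, h1], by rw [RelIso.mul_apply, h2]⟩

/-- `P ~ P'` -/
def Eqv (G : Subgroup Hm) (P P' : ℝ × ℝ) : Prop :=
  ∃ g ∈ G, g P.1 = P'.1 ∧ g P.2 = P'.2 ∧ Lin g P.1 P.2

def std (hpq : p < q) : Setoid ↥(TG G p q) where
  r P P' := Eqv G P.1 P'.1
  iseqv := by
    refine ⟨?_, ?_, ?_⟩
    · intro P
      exact ⟨1, G.one_mem, rfl, rfl, lin_one _ _⟩
    · rintro P P' ⟨g, hg, h1, h2, h3⟩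
      refine ⟨g⁻¹, G.inv_mem hg, ?_, ?_, ?_⟩
      · rw [← h1, inv_app]
      · rw [← h2, inv_app]
      · rw [← h1, ← h2]
        exact lin_inv h3
    · rintro P P' P'' ⟨g, hg, h1, h2, h3⟩ ⟨h, hh, h4, h5, h6⟩
      refine ⟨h * g, G.mul_mem hh hg, ?_, ?_, ?_⟩
      · rw [RelIso.mul_apply, h1, h4]
      · rw [RelIso.mul_apply, h2, h5]
      · apply lin_mul (tg_lt hpq P.2) h3
        rw [h1, h2]
        exact h6

/-- the system of the `u_P` -/
theorem exists_u (hpq : p < q) : ∃ u : ℝ × ℝ → Hm, (∀ P ∈ TG G p q, u P ∈ G ∧ u P p = P.1 ∧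
    u P q = P.2) ∧ ∀ P ∈ TG G p q, ∀ g ∈ G, Lin g P.1 P.2 → ∀ w, p ≤ w → w ≤ q →
      ((u (g P.1, g P.2))⁻¹ * g * u P) w = w := by
  classical
  have hr : ∀ P : ↥(TG G p q), Eqv G (Quotient.mk (std (G := G) hpq) P).out.1 P.1 := fun P =>
    @Quotient.mk_out _ (std (G := G) hpq) P
  choose a ha ha1 ha2 ha3 using hr
  have hv : ∀ P : ↥(TG G p q), ∃ h ∈ G, h p = P.1.1 ∧ h q = P.1.2 := fun P => P.2
  choose v hv hv1 hv2 using hv
  let U : ↥(TG G p q) → Hm := fun P => a P * v (Quotient.mk (std (G := G) hpq) P).out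
  have hU : ∀ P : ↥(TG G p q), U P ∈ G ∧ U P p = P.1.1 ∧ U P q = P.1.2 := by
    intro P
    refine ⟨G.mul_mem (ha P) (hv _), ?_, ?_⟩
    · show (a P * v (Quotient.mk (std (G := G) hpq) P).out) p = P.1.1
      rw [RelIso.mul_apply, hv1, ha1]
    · show (a P * v (Quotient.mk (std (G := G) hpq) P).out) q = P.1.2
      rw [RelIso.mul_apply, hv2, ha2]
  refine ⟨fun P => if h : P ∈ TG G p q then U ⟨P, h⟩ else 1, ?_, ?_⟩
  · intro P hP
    simp only [dif_pos hP]
    exact hU ⟨P, hP⟩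
  · intro P hP g hg hlin w hw hwq
    have hP' := tg_act hP hg
    simp only [dif_pos hP, dif_pos hP']
    set P1 : ↥(TG G p q) := ⟨P, hP⟩ with hP1
    set P2 : ↥(TG G p q) := ⟨(g P.1, g P.2), hP'⟩ with hP2
    have hrel : Quotient.mk (std (G := G) hpq) P1
        = Quotient.mk (std (G := G) hpq) P2 := by
      apply Quotient.sound
      exact ⟨g, hg, rfl, rfl, hlin⟩
    have hUU : ((U P2)⁻¹ * g * U P1) =
        (v (Quotient.mk (std (G := G) hpq) P1).out)⁻¹ * ((a P2)⁻¹ * g * a P1) * v (Quotient.mk (std (G := G) hpq) P1).out := by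
      show (a P2 * v (Quotient.mk (std (G := G) hpq) P2).out)⁻¹ * g * (a P1 * v (Quotient.mk (std (G := G) hpq) P1).out) = _
      rw [← hrel]
      group
    rw [hUU]
    set c := (Quotient.mk (std (G := G) hpq) P1).out with hc
    have hc1 : c.1.1 < c.1.2 := tg_lt hpq c.2
    have e1 : a P1 c.1.1 = P.1 := ha1 P1
    have e2 : a P1 c.1.2 = P.2 := ha2 P1
    have e3 : a P2 c.1.1 = g P.1 := by
      have := ha1 P2
      rw [← hrel] at this
      exact this
    have e4 : a P2 c.1.2 = g P.2 := by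
      have := ha2 P2
      rw [← hrel] at this
      exact this
    have l1 : Lin (a P1) c.1.1 c.1.2 := ha3 P1
    have l2 : Lin (a P2) c.1.1 c.1.2 := by
      have := ha3 P2
      rw [← hrel] at this
      exact this
    have l3 : Lin (g * a P1) c.1.1 c.1.2 := by
      apply lin_mul hc1 l1
      rw [e1, e2]
      exact hlin
    have l4 : Lin ((a P2)⁻¹ * (g * a P1)) c.1.1 c.1.2 := by
      apply lin_mul hc1 l3
      have := lin_inv l2
      rw [e3, e4] at this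
      rw [RelIso.mul_apply, RelIso.mul_apply, e1, e2]
      exact this
    have f1 : ((a P2)⁻¹ * (g * a P1)) c.1.1 = c.1.1 := by
      rw [RelIso.mul_apply, RelIso.mul_apply, e1, ← e3, inv_app]
    have f2 : ((a P2)⁻¹ * (g * a P1)) c.1.2 = c.1.2 := by
      rw [RelIso.mul_apply, RelIso.mul_apply, e2, ← e4, inv_app]
    have hw1 : c.1.1 ≤ v c w := by
      have := (v c).monotone hw
      rwa [hv1] at this
    have hw2 : v c w ≤ c.1.2 := by
      have := (v c).monotone hwq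
      rwa [hv2] at this
    have h5 := lin_fix hc1 l4 f1 f2 (v c w) hw1 hw2
    rw [RelIso.mul_apply, RelIso.mul_apply, mul_assoc, h5, inv_app]

theorem specFGJ (hLIN : SpecLIN) (hGP : SpecGP) : SpecFGJ := by
  classical
  intro G a b Z hs p q Γ hgap hΓ
  have hpq := hgap.pq
  obtain ⟨S, hS, hSf⟩ := (Subgroup.fg_iff G).1 hs.fg
  obtain ⟨u, hu, hu2⟩ := exists_u (G := G) hpq
  have hSb : Sb G p q ≤ G := fun g hg => hg.1
  obtain ⟨ρ, hρ, -⟩ := MainM.ra (Sb G p q) p q hpq (fun g hg => hs.pl g (hSb hg))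
    (fun g hg => hg.2.1) (fun g hg => hg.2.2)
  -- Γ is the range of ρ
  have hΓ1 : Γ = ρ.range := by
    ext γ
    rw [hΓ γ]
    constructor
    · rintro ⟨g, hg, h1, h2⟩
      refine ⟨⟨g, hg⟩, ?_⟩
      apply RelIso.ext
      intro w
      rcases le_or_gt w p with h | h
      · rw [hρ.2 _ w (Or.inl h), h2 w (Or.inl h)]
      · rcases le_or_gt q w with h' | h'
        · rw [hρ.2 _ w (Or.inr h'), h2 w (Or.inr h')]
        · rw [hρ.1 _ w h.le h'.le, h1 w h.le h'.le]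
    · rintro ⟨g, rfl⟩
      exact ⟨g.1, g.2, fun w h1 h2 => hρ.1 g w h1 h2, fun w h1 => hρ.2 g w h1⟩
  let R : Hm → Hm := fun s => if h : s ∈ Sb G p q then ρ ⟨s, h⟩ else 1
  have hR : ∀ s (h : s ∈ Sb G p q), R s = ρ ⟨s, h⟩ := fun s h => dif_pos h
  have hRm : ∀ s ∈ Sb G p q, ∀ t ∈ Sb G p q, R (s * t) = R s * R t := by
    intro s hs' t ht
    rw [hR s hs', hR t ht, hR _ ((Sb G p q).mul_mem hs' ht), ← map_mul]
    rfl
  have hRi : ∀ s ∈ Sb G p q, R s⁻¹ = (R s)⁻¹ := by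
    intro s hs'
    rw [hR s hs', hR _ ((Sb G p q).inv_mem hs'), ← map_inv]
    rfl
  have hR1 : ∀ s ∈ Sb G p q, (∀ w, p ≤ w → w ≤ q → s w = w) → R s = 1 := by
    intro s hs' h
    rw [hR s hs']
    apply RelIso.ext
    intro w
    rcases le_or_gt w p with h' | h'
    · rw [hρ.2 _ w (Or.inl h')]
      rfl
    · rcases le_or_gt q w with h'' | h''
      · rw [hρ.2 _ w (Or.inr h'')]
        rfl
      · rw [hρ.1 _ w h'.le h''.le]
        exact h w h'.le h''.le
  -- the cocycle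
  let c : Hm → ℝ × ℝ → Hm := fun g P => (u (g P.1, g P.2))⁻¹ * g * u P
  have hc : ∀ g ∈ G, ∀ P ∈ TG G p q, c g P ∈ Sb G p q := by
    intro g hg P hP
    obtain ⟨h1, h2, h3⟩ := hu P hP
    obtain ⟨h4, h5, h6⟩ := hu _ (tg_act hP hg)
    refine ⟨G.mul_mem (G.mul_mem (G.inv_mem h4) hg) h1, ?_, ?_⟩
    · show ((u (g P.1, g P.2))⁻¹ * g * u P) p = p
      rw [RelIso.mul_apply, RelIso.mul_apply, h2]
      have h7 := inv_app (u (g P.1, g P.2)) p
      rw [h5] at h7
      exact h7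
    · show ((u (g P.1, g P.2))⁻¹ * g * u P) q = q
      rw [RelIso.mul_apply, RelIso.mul_apply, h3]
      have h7 := inv_app (u (g P.1, g P.2)) q
      rw [h6] at h7
      exact h7
  -- non-linear pairs
  let N : Set (Hm × (ℝ × ℝ)) := {x | x.1 ∈ S ∧ x.2 ∈ TG G p q ∧ ¬ Lin x.1 x.2.1 x.2.2}
  have hgp : ∀ P ∈ TG G p q, Gap a b Z P.1 P.2 := by
    rintro P ⟨h, hh, h1, h2⟩
    rw [← h1, ← h2]
    exact hGP.im G a b Z hs p q hgap h hh
  have hNf : N.Finite := by
    have h1 : ∀ s ∈ S, {P | P ∈ TG G p q ∧ ¬ Lin s P.1 P.2}.Finite := by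
      intro s hs'
      have hsG : s ∈ G := hS ▸ Subgroup.subset_closure hs'
      have hex : ∀ P : ℝ × ℝ, ∃ x, (P ∈ TG G p q ∧ ¬ Lin s P.1 P.2) →
          P.1 < x ∧ x < P.2 ∧ er s x ≠ el s x := by
        intro P
        by_cases hP : P ∈ TG G p q ∧ ¬ Lin s P.1 P.2
        · have : ∃ x, P.1 < x ∧ x < P.2 ∧ er s x ≠ el s x := by
            by_contra hcon
            push Not at hcon
            exact hP.2 (lin_of hLIN (hs.pl s hsG) (tg_lt hpq hP.1) hcon)
          obtain ⟨x, hx⟩ := this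
          exact ⟨x, fun _ => hx⟩
        · exact ⟨0, fun h => absurd h hP⟩
      choose x hx using hex
      refine Set.Finite.of_injOn (f := x) ?_ ?_ (FINM.plb.brk s (hs.pl s hsG))
      · intro P hP
        exact (hx P hP).2.2
      · intro P hP P' hP' he
        have h1 := hx P hP
        have h2 := hx P' hP'
        rw [← he] at h2
        have h3 := hGP.uq a b Z P.1 P.2 P'.1 P'.2 (x P) (hgp P hP.1) (hgp P' hP'.1) h1.1 h1.2.1
          h2.1 h2.2.1
        exact Prod.ext h3.1 h3.2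
    refine (hSf.biUnion fun s hs' => (h1 s hs').image (fun P => (s, P))).subset ?_
    rintro ⟨s, P⟩ ⟨h2, h3, h4⟩
    exact mem_iUnion₂.2 ⟨s, h2, P, ⟨h3, h4⟩, rfl⟩
  let T : Set Hm := (fun x : Hm × (ℝ × ℝ) => R (c x.1 x.2)) '' N
  have hTf : T.Finite := hNf.image _
  have hclaim : ∀ g ∈ Subgroup.closure S, ∀ P ∈ TG G p q, R (c g P) ∈ Subgroup.closure T := by
    intro g hg
    induction hg using Subgroup.closure_induction with
    | mem s hs' =>
      intro P hP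
      have hsG : s ∈ G := hS ▸ Subgroup.subset_closure hs'
      by_cases hl : Lin s P.1 P.2
      · rw [hR1 _ (hc s hsG P hP) (hu2 P hP s hsG hl)]
        exact Subgroup.one_mem _
      · exact Subgroup.subset_closure ⟨(s, P), ⟨hs', hP, hl⟩, rfl⟩
    | one =>
      intro P hP
      have h1 : c 1 P = 1 := by
        show (u P)⁻¹ * 1 * u P = 1
        group
      rw [h1, hR1 1 (Sb G p q).one_mem (fun _ _ _ => rfl)]
      exact Subgroup.one_mem _
    | mul g h hg hh ihg ihh =>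
      intro P hP
      have hgG : g ∈ G := hS ▸ hg
      have hhG : h ∈ G := hS ▸ hh
      have h1 : c (g * h) P = c g (h P.1, h P.2) * c h P := by
        show (u (g (h P.1), g (h P.2)))⁻¹ * (g * h) * u P =
          ((u (g (h P.1), g (h P.2)))⁻¹ * g * u (h P.1, h P.2)) * ((u (h P.1, h P.2))⁻¹ * h * u P)
        group
      rw [h1, hRm _ (hc g hgG _ (tg_act hP hhG)) _ (hc h hhG P hP)]
      exact Subgroup.mul_mem _ (ihg _ (tg_act hP hhG)) (ihh P hP)
    | inv g hg ih =>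
      intro P hP
      have hgG : g ∈ G := hS ▸ hg
      have hP' := tg_act hP (G.inv_mem hgG)
      have h1 : c g⁻¹ P = (c g (g⁻¹ P.1, g⁻¹ P.2))⁻¹ := by
        show (u (g⁻¹ P.1, g⁻¹ P.2))⁻¹ * g⁻¹ * u P =
          ((u (g (g⁻¹ P.1), g (g⁻¹ P.2)))⁻¹ * g * u (g⁻¹ P.1, g⁻¹ P.2))⁻¹
        rw [app_inv, app_inv]
        group
      rw [h1, hRi _ (hc g hgG _ hP')]
      exact Subgroup.inv_mem _ (ih _ hP')
  have hP0 : (p, q) ∈ TG G p q := ⟨1, G.one_mem, rfl, rfl⟩
  obtain ⟨hu0, hu0p, hu0q⟩ := hu _ hP0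
  have hu0S : u (p, q) ∈ Sb G p q := ⟨hu0, hu0p, hu0q⟩
  have hall : ∀ s ∈ Sb G p q, R s ∈ Subgroup.closure T := by
    intro s hs'
    have h1 : u (p, q) * s * (u (p, q))⁻¹ ∈ Sb G p q :=
      (Sb G p q).mul_mem ((Sb G p q).mul_mem hu0S hs') ((Sb G p q).inv_mem hu0S)
    have h2 : c (u (p, q) * s * (u (p, q))⁻¹) (p, q) = s := by
      show (u ((u (p, q) * s * (u (p, q))⁻¹) p, (u (p, q) * s * (u (p, q))⁻¹) q))⁻¹ *
        (u (p, q) * s * (u (p, q))⁻¹) * u (p, q) = s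
      rw [h1.2.1, h1.2.2]
      group
    have h3 := hclaim (u (p, q) * s * (u (p, q))⁻¹) (by rw [hS]; exact h1.1) (p, q) hP0
    rwa [h2] at h3
  rw [Subgroup.fg_iff]
  refine ⟨T, ?_, hTf⟩
  rw [hΓ1]
  apply le_antisymm
  · rw [Subgroup.closure_le]
    rintro _ ⟨⟨s, P⟩, ⟨h1, h2, -⟩, rfl⟩
    have hsG : s ∈ G := hS ▸ Subgroup.subset_closure h1
    show R (c s P) ∈ ρ.range
    rw [hR _ (hc s hsG P h2)]
    exact ⟨_, rfl⟩
  · rintro _ ⟨s, rfl⟩
    have h1 := hall s.1 s.2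
    rwa [hR s.1 s.2] at h1

end

end FPT.RC.FGJM
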