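import Pool.Agent.Lib.MP_c27bde_al.RC.Spec

/-!
MP_c27bde_al, RC: normal systems and residual properties pass to subgroups.
-/

set_option autoImplicit false

namespace FPT.RC.NSRM

open Set FPT FPT.GF FPT.RC

/-- embedded quotients -/
theorem emb {C : (G : Type) → [Group G] → Prop} (hC : Cls C) {A B : Type} [Group A] [Group B]
    (φ : A →* B) (N : Subgroup A) [N.Normal] (h : N = φ.ker) (hB : C B) : C (A ⧸ N) := by
  subst h
  exact hC.iso _ _ (QuotientGroup.quotientKerEquivRange φ).symm (hC.sub B φ.range hB)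

theorem dir {L : Type} [Group L] {S T : Set (Subgroup L)} (hch : ∀ N ∈ S, ∀ N' ∈ S, N ≤ N' ∨ N' ≤ N)
    (hT : T ⊆ S) : DirectedOn (· ≤ ·) T := by
  intro A hA B hB
  rcases hch A (hT hA) B (hT hB) with h | h
  · exact ⟨B, hB, h, le_refl _⟩
  · exact ⟨A, hA, le_refl _, h⟩

theorem r_sSup {L : Type} [Group L] {S : Set (Subgroup L)} (hch : ∀ N ∈ S, ∀ N' ∈ S, N ≤ N' ∨ N' ≤ N)
    (T : Set (Subgroup L)) (hT : T ⊆ S) (hne : T.Nonempty) (K : Subgroup L) :
    (sSup T).subgroupOf K = sSup ((fun N => N.subgroupOf K) '' T) := by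
  have hd : DirectedOn (· ≤ ·) ((fun N : Subgroup L => N.subgroupOf K) '' T) := by
    rintro _ ⟨A, hA, rfl⟩ _ ⟨B, hB, rfl⟩
    obtain ⟨D, hD, h1, h2⟩ := dir hch hT A hA B hB
    exact ⟨_, ⟨D, hD, rfl⟩, fun x hx => h1 hx, fun x hx => h2 hx⟩
  ext x
  rw [Subgroup.mem_sSup_of_directedOn (hne.image _) hd, Subgroup.mem_subgroupOf,
    Subgroup.mem_sSup_of_directedOn hne (dir hch hT)]
  constructor
  · rintro ⟨N, hN, hx⟩
    exact ⟨_, ⟨N, hN, rfl⟩, hx⟩
  · rintro ⟨_, ⟨N, hN, rfl⟩, hx⟩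
    exact ⟨N, hN, hx⟩

theorem r_sInf {L : Type} [Group L] (T : Set (Subgroup L)) (K : Subgroup L) :
    (sInf T).subgroupOf K = sInf ((fun N => N.subgroupOf K) '' T) := by
  ext x
  rw [Subgroup.mem_sInf, Subgroup.mem_subgroupOf, Subgroup.mem_sInf]
  constructor
  · rintro h _ ⟨N, hN, rfl⟩
    exact h N hN
  · intro h N hN
    exact h _ ⟨N, hN, rfl⟩

/-- restriction of a normal system to a subgroup -/
theorem nsys {C : (G : Type) → [Group G] → Prop} (hC : Cls C) {L : Type} [Group L]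
    (S : Set (Subgroup L)) (hS : NSys C L S) (K : Subgroup L) :
    NSys C ↥K ((fun N => N.subgroupOf K) '' S) := by
  constructor
  · rintro _ ⟨N, hN, rfl⟩
    exact (hS.nor N hN).subgroupOf K
  · rintro _ ⟨N, hN, rfl⟩ _ ⟨N', hN', rfl⟩
    rcases hS.chain N hN N' hN' with h | h
    · left; exact fun x hx => h hx
    · right; exact fun x hx => h hx
  · exact ⟨⊥, hS.bot, Subgroup.bot_subgroupOf K⟩
  · exact ⟨⊤, hS.top, Subgroup.top_subgroupOf K⟩
  · intro T hT hne
    obtain ⟨T0, hT0, rfl⟩ := Set.subset_image_iff.1 hT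
    have hne0 : T0.Nonempty := by simpa using hne
    exact ⟨sSup T0, hS.sup T0 hT0 hne0, r_sSup hS.chain T0 hT0 hne0 K⟩
  · intro T hT hne
    obtain ⟨T0, hT0, rfl⟩ := Set.subset_image_iff.1 hT
    have hne0 : T0.Nonempty := by simpa using hne
    exact ⟨sInf T0, hS.inf T0 hT0 hne0, r_sInf T0 K⟩
  · rintro _ ⟨A0, hA0, rfl⟩ _ ⟨B0, hB0, rfl⟩ hAB hD hnor
    obtain ⟨TA, hTA⟩ : ∃ TA : Set (Subgroup L), TA = {N | N ∈ S ∧ N.subgroupOf K ≤ A0.subgroupOf K} :=
      ⟨_, rfl⟩
    obtain ⟨TB, hTB⟩ : ∃ TB : Set (Subgroup L),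
        TB = {N | N ∈ S ∧ ¬ N.subgroupOf K ≤ A0.subgroupOf K} := ⟨_, rfl⟩
    have hAm : A0 ∈ TA := by rw [hTA]; exact ⟨hA0, le_refl _⟩
    have hBm : B0 ∈ TB := by rw [hTB]; exact ⟨hB0, fun h => absurd hAB (not_lt_of_ge h)⟩
    have hTAS : TA ⊆ S := by rw [hTA]; exact fun N hN => hN.1
    have hTBS : TB ⊆ S := by rw [hTB]; exact fun N hN => hN.1
    have hA : sSup TA ∈ S := hS.sup TA hTAS ⟨A0, hAm⟩
    have hB : sInf TB ∈ S := hS.inf TB hTBS ⟨B0, hBm⟩
    have hrA : (sSup TA).subgroupOf K = A0.subgroupOf K := by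
      apply le_antisymm
      · rw [r_sSup hS.chain TA hTAS ⟨A0, hAm⟩ K]
        apply sSup_le
        rintro _ ⟨N, hN, rfl⟩
        rw [hTA] at hN
        exact hN.2
      · exact fun x hx => (le_sSup hAm) hx
    have hrB : (sInf TB).subgroupOf K = B0.subgroupOf K := by
      apply le_antisymm
      · exact fun x hx => (sInf_le hBm) hx
      · rw [r_sInf TB K]
        apply le_sInf
        rintro _ ⟨N, hN, rfl⟩
        rw [hTB] at hN
        by_contra hlt
        have h1 : N.subgroupOf K ≤ B0.subgroupOf K := by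
          rcases hS.chain N hN.1 B0 hB0 with h | h
          · exact fun x hx => h hx
          · exact absurd (fun x hx => h hx) hlt
        have h2 : A0.subgroupOf K ≤ N.subgroupOf K := by
          rcases hS.chain N hN.1 A0 hA0 with h | h
          · exact absurd (fun x hx => h hx) hN.2
          · exact fun x hx => h hx
        rcases hD _ ⟨N, hN.1, rfl⟩ h2 h1 with h | h
        · exact hN.2 (le_of_eq h)
        · exact hlt (le_of_eq h.symm)
    have hlt : sSup TA < sInf TB := by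
      rcases hS.chain _ hA _ hB with h | h
      · refine lt_of_le_of_ne h ?_
        intro he
        have h1 : A0.subgroupOf K < B0.subgroupOf K := hAB
        rw [← hrA, he, hrB] at h1
        exact lt_irrefl _ h1
      · exfalso
        have h1 : B0.subgroupOf K ≤ A0.subgroupOf K := by
          rw [← hrA, ← hrB]
          exact fun x hx => h hx
        exact absurd hAB (not_lt_of_ge h1)
    have hnA := hS.nor _ hA
    have hnA' : ((sSup TA).subgroupOf (sInf TB)).Normal := hnA.subgroupOf _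
    have hq := hS.fac _ hA _ hB hlt (by
      intro D hD1 h1 h2
      by_cases h3 : D.subgroupOf K ≤ A0.subgroupOf K
      · left
        apply le_antisymm _ h1
        apply le_sSup
        rw [hTA]
        exact ⟨hD1, h3⟩
      · right
        apply le_antisymm h2
        apply sInf_le
        rw [hTB]
        exact ⟨hD1, h3⟩) hnA'
    have hle : ∀ x : ↥K, x ∈ B0.subgroupOf K → x.1 ∈ sInf TB := by
      intro x hx
      rw [← hrB] at hx
      exact hx
    obtain ⟨φ, hφ⟩ : ∃ φ : ↥(B0.subgroupOf K) →* ↥(sInf TB) ⧸ ((sSup TA).subgroupOf (sInf TB)),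
        ∀ x, φ x = QuotientGroup.mk' _ (⟨x.1.1, hle x.1 x.2⟩ : ↥(sInf TB)) :=
      ⟨{ toFun := fun x => QuotientGroup.mk' _ (⟨x.1.1, hle x.1 x.2⟩ : ↥(sInf TB))
         map_one' := by
          exact map_one (QuotientGroup.mk' ((sSup TA).subgroupOf (sInf TB)))
         map_mul' := by
          intro x y
          rw [← map_mul]
          rfl }, fun _ => rfl⟩
    refine emb hC φ _ ?_ hq
    ext x
    rw [MonoidHom.mem_ker, hφ, ← MonoidHom.mem_ker, QuotientGroup.ker_mk', Subgroup.mem_subgroupOf,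
      Subgroup.mem_subgroupOf]
    show x.1 ∈ A0.subgroupOf K ↔ x.1 ∈ (sSup TA).subgroupOf K
    rw [hrA]

/-- restriction of residual properties -/
theorem res {C : (G : Type) → [Group G] → Prop} (hC : Cls C) {L : Type} [Group L]
    (h : ∀ g : L, g ≠ 1 → ∃ (N : Subgroup L) (_ : N.Normal), g ∉ N ∧ C (L ⧸ N)) (K : Subgroup L) :
    ∀ g : ↥K, g ≠ 1 → ∃ (N : Subgroup ↥K) (_ : N.Normal), g ∉ N ∧ C (↥K ⧸ N) := by
  intro g hg
  obtain ⟨N, hN, hgN, hCN⟩ := h g.1 (fun h => hg (Subtype.ext h))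
  have hn : (N.subgroupOf K).Normal := hN.subgroupOf K
  refine ⟨N.subgroupOf K, hn, hgN, ?_⟩
  refine emb hC ((QuotientGroup.mk' N).comp K.subtype) _ ?_ hCN
  ext x
  rw [MonoidHom.mem_ker, MonoidHom.comp_apply, ← MonoidHom.mem_ker, QuotientGroup.ker_mk']
  rfl

/-- residually `C` from the least normal subgroup -/
theorem res_of_lst {C : (G : Type) → [Group G] → Prop} (hC : Cls C) {L : Type} [Group L]
    (hl : ∃ (N : Subgroup L) (_ : N.Normal), C (L ⧸ N) ∧
      ∀ (N' : Subgroup L) (_ : N'.Normal), C (L ⧸ N') → N ≤ N')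
    (h : ∀ g : L, g ≠ 1 → ∃ (N : Subgroup L) (_ : N.Normal), g ∉ N ∧ C (L ⧸ N)) : C L := by
  obtain ⟨N, hN, hCN, hmin⟩ := hl
  have hbot : N = ⊥ := by
    rw [eq_bot_iff]
    intro g hg
    rw [Subgroup.mem_bot]
    by_contra h1
    obtain ⟨N', hN', h2, h3⟩ := h g h1
    exact h2 (hmin N' hN' h3 hg)
  subst hbot
  exact hC.iso _ _ QuotientGroup.quotientBot hCN

end FPT.RC.NSRM
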