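import Pool.Agent.Lib.MP_c27bde_al.RC.Spec

/-!
MP_c27bde_al, RC: transport along isomorphisms.
-/

set_option autoImplicit false

namespace FPT.RC.TRM

open Set FPT FPT.GF FPT.RC

/-- quotients by corresponding subgroups -/
noncomputable def qiso {L L' : Type} [Group L] [Group L'] (e : L ≃* L') (N : Subgroup L)
    [N.Normal] (N' : Subgroup L') [N'.Normal] (h : N.map e.toMonoidHom = N') : L ⧸ N ≃* L' ⧸ N' :=
  QuotientGroup.congr N N' e h

theorem normal_map {L L' : Type} [Group L] [Group L'] (e : L ≃* L') (N : Subgroup L)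
    (hN : N.Normal) : (N.map e.toMonoidHom).Normal :=
  hN.map e.toMonoidHom e.surjective

theorem normal_comap {L L' : Type} [Group L] [Group L'] (e : L ≃* L') (N : Subgroup L')
    (hN : N.Normal) : (N.comap e.toMonoidHom).Normal :=
  hN.comap e.toMonoidHom

theorem map_comap {L L' : Type} [Group L] [Group L'] (e : L ≃* L') (N : Subgroup L') :
    (N.comap e.toMonoidHom).map e.toMonoidHom = N :=
  Subgroup.map_comap_eq_self_of_surjective e.surjective N

theorem comap_map {L L' : Type} [Group L] [Group L'] (e : L ≃* L') (N : Subgroup L) :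
    (N.map e.toMonoidHom).comap e.toMonoidHom = N :=
  Subgroup.comap_map_eq_self_of_injective e.injective N

/-- the least normal subgroup -/
theorem lst {C : (G : Type) → [Group G] → Prop} (hC : Cls C) {L L' : Type} [Group L] [Group L']
    (e : L ≃* L')
    (h : ∃ (N : Subgroup L') (_ : N.Normal), C (L' ⧸ N) ∧
      ∀ (N' : Subgroup L') (_ : N'.Normal), C (L' ⧸ N') → N ≤ N') :
    ∃ (N : Subgroup L) (_ : N.Normal), C (L ⧸ N) ∧
      ∀ (N' : Subgroup L) (_ : N'.Normal), C (L ⧸ N') → N ≤ N' := by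
  obtain ⟨N, hN, hCN, hmin⟩ := h
  have hN' := normal_comap e N hN
  refine ⟨N.comap e.toMonoidHom, hN', ?_, ?_⟩
  · exact hC.iso _ _ (qiso e (N.comap e.toMonoidHom) N (map_comap e N)).symm hCN
  · intro N' hn' hCN'
    have h1 := normal_map e N' hn'
    have h2 : C (L' ⧸ N'.map e.toMonoidHom) :=
      hC.iso _ _ (qiso e N' (N'.map e.toMonoidHom) rfl) hCN'
    have h3 := hmin _ h1 h2
    rw [← comap_map e N']
    exact Subgroup.comap_mono h3

/-- normal systems -/
theorem nsys {C : (G : Type) → [Group G] → Prop} (hC : Cls C) {L L' : Type} [Group L] [Group L']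
    (e : L ≃* L') (S : Set (Subgroup L)) (hS : NSys C L S) :
    NSys C L' ((fun N => N.map e.toMonoidHom) '' S) := by
  obtain ⟨φ, hφ⟩ : ∃ φ : Subgroup L ≃o Subgroup L', ∀ N, φ N = N.map e.toMonoidHom :=
    ⟨e.mapSubgroup, fun _ => rfl⟩
  have him : (fun N : Subgroup L => N.map e.toMonoidHom) '' S = φ '' S := by
    congr 1
    funext N
    exact (hφ N).symm
  rw [him]
  have pre : ∀ T : Set (Subgroup L'), T ⊆ φ '' S → ∃ T0 ⊆ S, φ '' T0 = T := by
    intro T hT
    exact Set.subset_image_iff.1 hT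
  constructor
  · rintro _ ⟨N, hN, rfl⟩
    rw [hφ]
    exact normal_map e N (hS.nor N hN)
  · rintro _ ⟨N, hN, rfl⟩ _ ⟨N', hN', rfl⟩
    rcases hS.chain N hN N' hN' with h | h
    · left; exact φ.monotone h
    · right; exact φ.monotone h
  · exact ⟨⊥, hS.bot, φ.map_bot⟩
  · exact ⟨⊤, hS.top, φ.map_top⟩
  · intro T hT hne
    obtain ⟨T0, hT0, rfl⟩ := pre T hT
    refine ⟨sSup T0, hS.sup T0 hT0 (by simpa using hne), ?_⟩
    rw [φ.map_sSup, sSup_image]
  · intro T hT hne
    obtain ⟨T0, hT0, rfl⟩ := pre T hT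
    refine ⟨sInf T0, hS.inf T0 hT0 (by simpa using hne), ?_⟩
    rw [φ.map_sInf, sInf_image]
  · rintro _ ⟨A, hA, rfl⟩ _ ⟨B, hB, rfl⟩ hAB hD hnor
    have hAB' : A < B := φ.lt_iff_lt.1 hAB
    have hnA := hS.nor A hA
    have hnor' : (A.subgroupOf B).Normal := hnA.subgroupOf B
    have h1 := hS.fac A hA B hB hAB' (by
      intro D hD1 h2 h3
      rcases hD (φ D) ⟨D, hD1, rfl⟩ (φ.monotone h2) (φ.monotone h3) with h4 | h4
      · left; exact φ.injective h4
      · right; exact φ.injective h4) hnor'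
    obtain ⟨eB, heB⟩ : ∃ eB : ↥B ≃* ↥(φ B), ∀ b : ↥B, ((eB b : ↥(φ B)) : L') = e b.1 := by
      rw [hφ]
      exact ⟨e.subgroupMap B, fun b => rfl⟩
    refine hC.iso _ _ (qiso eB (A.subgroupOf B) ((φ A).subgroupOf (φ B)) ?_) h1
    ext x
    rw [Subgroup.mem_map, Subgroup.mem_subgroupOf]
    have hmem : ∀ z : L', z ∈ φ A ↔ ∃ y ∈ A, e y = z := by
      intro z
      rw [hφ]
      exact Subgroup.mem_map
    rw [hmem]
    constructor
    · rintro ⟨y, hy, rfl⟩
      exact ⟨y.1, hy, (heB y).symm⟩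
    · rintro ⟨y, hy, hyx⟩
      refine ⟨⟨y, hAB'.le hy⟩, hy, ?_⟩
      apply Subtype.ext
      exact (heB _).trans hyx

end FPT.RC.TRM
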