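import Pool.Agent.Lib.MP_c27bde_al.RC.Spec
import Pool.Agent.Lib.MP_c27bde_al.RC.TR
import Pool.Agent.Lib.MP_c27bde_al.RC.ACH
import Pool.Agent.Lib.MP_c27bde_al.RC.NSR

/-!
MP_c27bde_al, RC: the theorem for abstract groups with a faithful PL representation.
-/

set_option autoImplicit false

namespace FPT.RC.FNM

open Set FPT FPT.GF FPT.RC
open scoped commutatorElement

/-- residually `C` -/
def Res (C : (G : Type) → [Group G] → Prop) (L : Type) [Group L] : Prop :=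
  ∀ g : L, g ≠ 1 → ∃ (N : Subgroup L) (_ : N.Normal), g ∉ N ∧ C (L ⧸ N)

/-- the image in the group of PL homeomorphisms -/
theorem setup (T : Type) [Group T] (e : T ≃* FT) (K : Type) [Group K] (ρ : K →* Hm)
    (hρ : Function.Injective ρ) (hpl : ∀ g, IsPL (ρ g)) (hfg : Group.FG K)
    (hno : ¬ ∃ f : T →* K, Function.Injective f) :
    ∃ G : Subgroup Hm, PLs G ∧ Bal G ∧ G.FG ∧ Nonempty (K ≃* ↥G) := by
  have hP : PLs ρ.range := by
    rintro _ ⟨g, rfl⟩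
    exact hpl g
  have eq : K ≃* ↥ρ.range := MonoidHom.ofInjective hρ
  refine ⟨ρ.range, hP, ?_, ?_, ⟨eq⟩⟩
  · apply MainM.bal_of_no_copy T e ρ.range hP
    rintro ⟨f, hf⟩
    exact hno ⟨eq.symm.toMonoidHom.comp f, eq.symm.injective.comp hf⟩
  · rw [MonoidHom.range_eq_map]
    obtain ⟨S, hS⟩ := Group.fg_def.1 hfg
    rw [← hS, MonoidHom.map_closure, Subgroup.fg_iff]
    exact ⟨_, rfl, S.finite_toSet.image _⟩

section

variable (T : Type) [Group T] (e : T ≃* FT) (K : Type) [Group K] (ρ : K →* Hm)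
  (hρ : Function.Injective ρ) (hpl : ∀ g, IsPL (ρ g)) (hfg : Group.FG K)
  (hno : ¬ ∃ f : T →* K, Function.Injective f)

include e hρ hpl hfg hno

theorem lst (hLST : SpecLST) {C : (G : Type) → [Group G] → Prop} (hC : Cls C) :
    ∃ (N : Subgroup K) (_ : N.Normal), C (K ⧸ N) ∧
      ∀ (N' : Subgroup K) (_ : N'.Normal), C (K ⧸ N') → N ≤ N' := by
  obtain ⟨G, h1, h2, h3, ⟨eq⟩⟩ := setup T e K ρ hρ hpl hfg hno
  exact TRM.lst hC eq (hLST C hC G h1 h2 h3)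

theorem lstp (hLST : SpecLST) {C : (G : Type) → [Group G] → Prop} (hC : Cls C) :
    ∃ (N : Subgroup K) (_ : N.Normal), C (K ⧸ N) ∧
      (∀ (N' : Subgroup K) (_ : N'.Normal), C (K ⧸ N') → N ≤ N') ∧ ⁅N, N⁆ = N := by
  obtain ⟨N, h1, h2, h3⟩ := lst T e K ρ hρ hpl hfg hno hLST hC
  exact ⟨N, h1, h2, h3, ACHM.perf hC N h1 h2 h3⟩

theorem res (hLST : SpecLST) {C : (G : Type) → [Group G] → Prop} (hC : Cls C) (h : Res C K) :
    C K := NSRM.res_of_lst hC (lst T e K ρ hρ hpl hfg hno hLST hC) h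

theorem nsys (hSYS : SpecSYS) {C : (G : Type) → [Group G] → Prop} (hC : Cls C)
    (h : ∃ S, NSys C K S) : C K := by
  obtain ⟨S, hS⟩ := h
  obtain ⟨G, h1, h2, h3, ⟨eq⟩⟩ := setup T e K ρ hρ hpl hfg hno
  exact hC.iso _ _ eq.symm (hSYS C hC G h1 h2 h3 _ (TRM.nsys hC eq S hS))

theorem ach (hB0 : SpecB0) (hACC : SpecACC) (hDSP : SpecDSP) (𝒩 : Set (Subgroup K))
    (hne : 𝒩.Nonempty) (hnor : ∀ N ∈ 𝒩, N.Normal)
    (hch : ∀ N ∈ 𝒩, ∀ N' ∈ 𝒩, N ≤ N' ∨ N' ≤ N) :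
    ∃ N ∈ 𝒩, ⁅⁅sSup 𝒩, sSup 𝒩⁆, ⁅sSup 𝒩, sSup 𝒩⁆⁆ ≤ N := by
  obtain ⟨G, h1, h2, h3, ⟨eq⟩⟩ := setup T e K ρ hρ hpl hfg hno
  obtain ⟨φ, hφ⟩ : ∃ φ : Subgroup K ≃o Subgroup ↥G, ∀ N, φ N = N.map eq.toMonoidHom :=
    ⟨eq.mapSubgroup, fun _ => rfl⟩
  obtain ⟨_, ⟨N, hN, rfl⟩, hle⟩ := ACHM.ach hB0 hACC hDSP G h1 h2 h3 (φ '' 𝒩) (hne.image _)
    (by
      rintro _ ⟨N, hN, rfl⟩
      rw [hφ]
      exact TRM.normal_map eq N (hnor N hN))
    (by
      rintro _ ⟨N, hN, rfl⟩ _ ⟨N', hN', rfl⟩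
      rcases hch N hN N' hN' with h | h
      · left; exact φ.monotone h
      · right; exact φ.monotone h)
  refine ⟨N, hN, ?_⟩
  have h4 : sSup (φ '' 𝒩) = (sSup 𝒩).map eq.toMonoidHom := by
    rw [← hφ, φ.map_sSup, sSup_image]
  rw [h4, hφ, ← Subgroup.map_commutator, ← Subgroup.map_commutator] at hle
  rw [← TRM.comap_map eq ⁅⁅sSup 𝒩, sSup 𝒩⁆, ⁅sSup 𝒩, sSup 𝒩⁆⁆, ← TRM.comap_map eq N]
  exact Subgroup.comap_mono hle

end

/-- a group with one of the two properties contains no copy of F -/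
theorem no_copy (hNOF : SpecNOF) (T : Type) [Group T] (e : T ≃* FT)
    {C : (G : Type) → [Group G] → Prop} (hC : Cls C) (hF : ¬ C FT) (K : Type) [Group K]
    (h : Res C K ∨ ∃ S, NSys C K S) : ¬ ∃ f : T →* K, Function.Injective f := by
  rintro ⟨f, hf⟩
  have eq : ↥f.range ≃* FT := (MonoidHom.ofInjective hf).symm.trans e
  rcases h with h | ⟨S, hS⟩
  · exact hNOF.res C hC hF ↥f.range eq (NSRM.res hC h f.range)
  · exact hNOF.sys C hC hF ↥f.range eq ⟨_, NSRM.nsys hC S hS f.range⟩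

/-- finitely generated groups -/
theorem fgp (hNOF : SpecNOF) (hLST : SpecLST) (hSYS : SpecSYS) (T : Type) [Group T] (e : T ≃* FT)
    {C : (G : Type) → [Group G] → Prop} (hC : Cls C) (hF : ¬ C FT) (K : Type) [Group K]
    (ρ : K →* Hm) (hρ : Function.Injective ρ) (hpl : ∀ g, IsPL (ρ g)) (hfg : Group.FG K)
    (h : Res C K ∨ ∃ S, NSys C K S) : C K := by
  have hno := no_copy hNOF T e hC hF K h
  rcases h with h | h
  · exact res T e K ρ hρ hpl hfg hno hLST hC h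
  · exact nsys T e K ρ hρ hpl hfg hno hSYS hC h

/-- all subgroups, elementary amenable quotients -/
theorem ea (hNOF : SpecNOF) (hLST : SpecLST) (hSYS : SpecSYS) (hCLA : SpecCLA) (T : Type) [Group T]
    (e : T ≃* FT) (H : Subgroup T)
    (h : ∀ L : Subgroup ↥H, L.FG → Res (fun G [Group G] => EA G) ↥L ∨
      ∃ S, NSys (fun G [Group G] => EA G) ↥L S) :
    EA ↥H ∧ ¬ ∃ f : T →* ↥H, Function.Injective f := by
  obtain ⟨θ, hθ, hpl⟩ := RFM.exists_rep T e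
  have hea : EA ↥H := by
    apply hCLA.loc
    intro L hL
    exact fgp hNOF hLST hSYS T e hCLA.ea hCLA.fte ↥L ((θ.comp H.subtype).comp L.subtype)
      ((hθ.comp (Subgroup.subtype_injective H)).comp (Subgroup.subtype_injective L))
      (fun g => hpl _) ((Group.fg_iff_subgroup_fg L).2 hL) (h L hL)
  exact ⟨hea, FINM.no_copy T e ↥H hea⟩

/-- finitely generated subgroups, solvable quotients -/
theorem so (hNOF : SpecNOF) (hLST : SpecLST) (hSYS : SpecSYS) (hCLA : SpecCLA) (T : Type) [Group T]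
    (e : T ≃* FT) (H : Subgroup T) (hfg : H.FG)
    (h : Res (fun G [Group G] => Group.IsSolvable G) ↥H ∨
      ∃ S, NSys (fun G [Group G] => Group.IsSolvable G) ↥H S) : Group.IsSolvable ↥H := by
  obtain ⟨θ, hθ, hpl⟩ := RFM.exists_rep T e
  exact fgp hNOF hLST hSYS T e hCLA.so hCLA.fts ↥H (θ.comp H.subtype)
    (hθ.comp (Subgroup.subtype_injective H)) (fun g => hpl _)
    ((Group.fg_iff_subgroup_fg H).2 hfg) h

end FPT.RC.FNM
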