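import Pool.Agent.Lib.MP_c27bde_al.RC.Spec

/-! MP_c27bde_al, RC, module GO: finitely many orbits of gaps with non-trivial stabilizer action. -/

set_option autoImplicit false

namespace FPT.RC.GOM

open Set FPT FPT.GF

/-- affine on `[u,v]` -/
def Aff (g : Hm) (u v : ℝ) : Prop := ∃ c d : ℝ, ∀ y, u ≤ y → y ≤ v → g y = c * y + d

theorem aff_mul {g1 g2 : Hm} {u v : ℝ} (h2 : Aff g2 u v) (h1 : Aff g1 (g2 u) (g2 v)) :
    Aff (g1 * g2) u v := by
  obtain ⟨c2, d2, h2⟩ := h2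
  obtain ⟨c1, d1, h1⟩ := h1
  refine ⟨c1 * c2, c1 * d2 + d1, fun y hy hy' => ?_⟩
  rw [RelIso.mul_apply, h1 (g2 y) (g2.monotone hy) (g2.monotone hy'), h2 y hy hy']
  ring

theorem app_inv (g : Hm) (y : ℝ) : g (g⁻¹ y) = y := by
  rw [← RelIso.mul_apply, mul_inv_cancel]; rfl

theorem inv_app (g : Hm) (y : ℝ) : g⁻¹ (g y) = y := by
  rw [← RelIso.mul_apply, inv_mul_cancel]; rfl

theorem aff_inv {g : Hm} {u v : ℝ} (huv : u < v) (h : Aff g (g⁻¹ u) (g⁻¹ v)) : Aff g⁻¹ u v := by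
  obtain ⟨c, d, h⟩ := h
  have hlt : g⁻¹ u < g⁻¹ v := (g⁻¹).strictMono huv
  have hc : c ≠ 0 := by
    rintro rfl
    have h1 := h _ le_rfl hlt.le
    have h2 := h _ hlt.le le_rfl
    rw [app_inv] at h1 h2
    linarith
  refine ⟨c⁻¹, -d * c⁻¹, fun y hy hy' => ?_⟩
  have h1 := h (g⁻¹ y) ((g⁻¹).monotone hy) ((g⁻¹).monotone hy')
  rw [app_inv] at h1
  field_simp
  linarith

theorem specGO (lin : SpecLIN) (gp : SpecGP) : SpecGO := by
  intro G a b Z hS
  obtain ⟨S, hSc⟩ := hS.fg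
  have hSG : ∀ s ∈ S, s ∈ G := fun s hs => by
    rw [← hSc]; exact Subgroup.subset_closure hs
  refine ⟨{r | Gap a b Z r.1 r.2 ∧ ∃ s ∈ S, ∃ x, r.1 < x ∧ x < r.2 ∧ er s x ≠ el s x}, ?_,
    fun r hr => hr.1, ?_⟩
  · classical
    have hB : (⋃ s ∈ S, {x | er s x ≠ el s x}).Finite :=
      Set.Finite.biUnion S.finite_toSet fun s hs => FINM.plb.brk s (hS.pl s (hSG s hs))
    let f : ℝ → ℝ × ℝ := fun x =>
      if h : ∃ r : ℝ × ℝ, Gap a b Z r.1 r.2 ∧ r.1 < x ∧ x < r.2 then h.choose else (0, 0)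
    refine (hB.image f).subset ?_
    rintro r ⟨hr, s, hs, x, h1, h2, h3⟩
    refine ⟨x, ?_, ?_⟩
    · simp only [Set.mem_iUnion]
      exact ⟨s, hs, h3⟩
    · have hex : ∃ r : ℝ × ℝ, Gap a b Z r.1 r.2 ∧ r.1 < x ∧ x < r.2 := ⟨r, hr, h1, h2⟩
      have hf : f x = hex.choose := dif_pos hex
      rw [hf]
      obtain ⟨g1, g2, g3⟩ := hex.choose_spec
      obtain ⟨e1, e2⟩ := gp.uq a b Z _ _ _ _ x g1 hr g2 g3 h1 h2
      exact Prod.ext e1 e2
  · intro p q hpq hex
    by_contra hno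
    obtain ⟨s, hs, x, hx, hxq, hmv⟩ := hex
    have hnb : ∀ h ∈ G, ∀ t ∈ S, ∀ y, h p < y → y < h q → er t y = el t y := by
      intro h hh t ht y hy hy'
      by_contra hne
      refine hno ⟨(h p, h q), ⟨gp.im G a b Z hS p q hpq h hh, t, ht, y, hy, hy', hne⟩, h⁻¹,
        G.inv_mem hh, inv_app h p, inv_app h q⟩
    have key : ∀ g ∈ Subgroup.closure (S : Set Hm), ∀ h ∈ G, Aff g (h p) (h q) := by
      intro g hg
      induction hg using Subgroup.closure_induction with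
      | mem t ht =>
        intro h hh
        have h1 := lin.lin t (hS.pl t (hSG t ht)) (h p) (h q) (h.strictMono hpq.pq)
          (hnb h hh t ht)
        refine ⟨(2:ℝ) ^ (er t (h p)), t (h p) - (2:ℝ) ^ (er t (h p)) * h p, fun y hy hy' => ?_⟩
        rw [h1 y hy hy']
        ring
      | one =>
        intro h hh
        exact ⟨1, 0, fun y _ _ => by rw [one_mul, add_zero]; rfl⟩
      | mul g1 g2 hg1 hg2 ih1 ih2 =>
        intro h hh
        refine aff_mul (ih2 h hh) ?_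
        have := ih1 (g2 * h) (G.mul_mem (by rw [← hSc]; exact hg2) hh)
        simpa only [RelIso.mul_apply] using this
      | inv g hg ih =>
        intro h hh
        refine aff_inv (h.strictMono hpq.pq) ?_
        have := ih (g⁻¹ * h) (G.mul_mem (G.inv_mem (by rw [← hSc]; exact hg)) hh)
        simpa only [RelIso.mul_apply] using this
    obtain ⟨hsG, hsp, hsq⟩ := hs
    obtain ⟨c, d, hcd⟩ := key s (by rw [hSc]; exact hsG) 1 G.one_mem
    have hp1 : (1 : Hm) p = p := rfl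
    have hq1 : (1 : Hm) q = q := rfl
    rw [hp1, hq1] at hcd
    have e1 := hcd p le_rfl hpq.pq.le
    have e2 := hcd q hpq.pq.le le_rfl
    have e3 := hcd x hx.le hxq.le
    rw [hsp] at e1
    rw [hsq] at e2
    have hc : (c - 1) * (q - p) = 0 := by linarith
    have hqp : q - p ≠ 0 := by have := hpq.pq; intro h; linarith
    have hc1 : c = 1 := by
      rcases mul_eq_zero.1 hc with h | h
      · linarith
      · exact absurd h hqp
    subst hc1
    apply hmv
    rw [e3]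
    linarith

end FPT.RC.GOM
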