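import Pool.Agent.Lib.MP_c27bde_al.RC.Spec

/-!
# RC, module GP (helper32): gaps of an invariant relatively closed set
-/

set_option autoImplicit false

namespace FPT.RC.GPM

open Set FPT FPT.GF FPT.RC

theorem inv_mem {G : Subgroup Hm} {Z : Set ℝ} (hI : Inv G Z) {g : Hm} (hg : g ∈ G) {z : ℝ}
    (h : z ∈ Z) : g⁻¹ z ∈ Z := hI g⁻¹ (G.inv_mem hg) z h

theorem app_inv (g : Hm) (z : ℝ) : g (g⁻¹ z) = z := by
  rw [← RelIso.mul_apply, mul_inv_cancel]; rfl

theorem lt_inv {g : Hm} {p z : ℝ} (h : g p < z) : p < g⁻¹ z := by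
  have h1 : g p < g (g⁻¹ z) := by rw [app_inv]; exact h
  exact g.lt_iff_lt.1 h1

theorem inv_lt {g : Hm} {p z : ℝ} (h : z < g p) : g⁻¹ z < p := by
  have h1 : g (g⁻¹ z) < g p := by rw [app_inv]; exact h
  exact g.lt_iff_lt.1 h1

theorem ex (G : Subgroup Hm) (a b : ℝ) (Z : Set ℝ) (hS : Setg G a b Z) (x : ℝ) (hax : a < x)
    (hxb : x < b) (hx : x ∉ Z) : ∃ p q, Gap a b Z p q ∧ p < x ∧ x < q := by
  set A : Set ℝ := {a} ∪ (Z ∩ Iic x) with hA
  set B : Set ℝ := {b} ∪ (Z ∩ Ici x) with hB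
  have hAn : A.Nonempty := ⟨a, Or.inl rfl⟩
  have hBn : B.Nonempty := ⟨b, Or.inl rfl⟩
  have hAx : ∀ y ∈ A, y ≤ x := by
    rintro y (hy | hy)
    · rw [mem_singleton_iff.1 hy]; exact hax.le
    · exact hy.2
  have hBx : ∀ y ∈ B, x ≤ y := by
    rintro y (hy | hy)
    · rw [mem_singleton_iff.1 hy]; exact hxb.le
    · exact hy.2
  have hAb : BddAbove A := ⟨x, hAx⟩
  have hBb : BddBelow B := ⟨x, hBx⟩
  have hap : a ≤ sSup A := le_csSup hAb (Or.inl rfl)
  have hqb : sInf B ≤ b := csInf_le hBb (Or.inl rfl)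
  have hpx : sSup A ≤ x := csSup_le hAn hAx
  have hxq : x ≤ sInf B := le_csInf hBn hBx
  have hpz : sSup A = a ∨ sSup A ∈ Z := by
    have h1 : sSup A ∈ closure A := csSup_mem_closure hAn hAb
    rw [hA, closure_union, closure_singleton] at h1
    rcases h1 with h1 | h1
    · exact Or.inl h1
    · rcases hap.eq_or_lt with h2 | h2
      · exact Or.inl h2.symm
      · exact Or.inr (hS.cl _ h2 (hpx.trans_lt hxb) (closure_mono inter_subset_left h1))
  have hqz : sInf B = b ∨ sInf B ∈ Z := by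
    have h1 : sInf B ∈ closure B := csInf_mem_closure hBn hBb
    rw [hB, closure_union, closure_singleton] at h1
    rcases h1 with h1 | h1
    · exact Or.inl h1
    · rcases hqb.eq_or_lt with h2 | h2
      · exact Or.inl h2
      · exact Or.inr (hS.cl _ (hax.trans_le hxq) h2 (closure_mono inter_subset_left h1))
  have hpx' : sSup A < x := by
    rcases hpx.eq_or_lt with h1 | h1
    · rcases hpz with h2 | h2
      · rw [h2]; exact hax
      · rw [h1] at h2; exact absurd h2 hx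
    · exact h1
  have hxq' : x < sInf B := by
    rcases hxq.eq_or_lt with h1 | h1
    · rcases hqz with h2 | h2
      · rw [h2]; exact hxb
      · rw [← h1] at h2; exact absurd h2 hx
    · exact h1
  refine ⟨sSup A, sInf B, ⟨hap, hpx'.trans hxq', hqb, hpz, hqz, ?_⟩, hpx', hxq'⟩
  rintro z hz ⟨h1, h2⟩
  rcases le_total z x with h3 | h3
  · exact absurd (le_csSup hAb (Or.inr ⟨hz, h3⟩)) (not_le.2 h1)
  · exact absurd (csInf_le hBb (Or.inr ⟨hz, h3⟩)) (not_le.2 h2)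

theorem im (G : Subgroup Hm) (a b : ℝ) (Z : Set ℝ) (hS : Setg G a b Z) (p q : ℝ)
    (h : Gap a b Z p q) (g : Hm) (hg : g ∈ G) : Gap a b Z (g p) (g q) := by
  have ha : g a = a := hS.orb.fa g hg
  have hb : g b = b := hS.orb.fb g hg
  refine ⟨?_, g.lt_iff_lt.2 h.pq, ?_, ?_, ?_, ?_⟩
  · rw [← ha]; exact g.le_iff_le.2 h.ap
  · rw [← hb]; exact g.le_iff_le.2 h.qb
  · rcases h.pz with h1 | h1
    · left; rw [h1, ha]
    · right; exact hS.inv g hg p h1
  · rcases h.qz with h1 | h1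
    · left; rw [h1, hb]
    · right; exact hS.inv g hg q h1
  · rintro z hz ⟨h1, h2⟩
    exact h.no _ (inv_mem hS.inv hg hz) ⟨lt_inv h1, inv_lt h2⟩

theorem le_of {a b : ℝ} {Z : Set ℝ} {p q p' q' x : ℝ} (h : Gap a b Z p q)
    (h' : Gap a b Z p' q') (hxq : x < q) (hpx' : p' < x) : p' ≤ p := by
  by_contra hc
  push Not at hc
  rcases h'.pz with h1 | h1
  · exact absurd h.ap (not_le.2 (h1 ▸ hc))
  · exact h.no _ h1 ⟨hc, hpx'.trans hxq⟩

theorem ge_of {a b : ℝ} {Z : Set ℝ} {p q p' q' x : ℝ} (h : Gap a b Z p q)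
    (h' : Gap a b Z p' q') (hpx : p < x) (hxq' : x < q') : q ≤ q' := by
  by_contra hc
  push Not at hc
  rcases h'.qz with h1 | h1
  · exact absurd h.qb (not_le.2 (h1 ▸ hc))
  · exact h.no _ h1 ⟨hpx.trans hxq', hc⟩

theorem uq (a b : ℝ) (Z : Set ℝ) (p q p' q' x : ℝ) (h : Gap a b Z p q) (h' : Gap a b Z p' q')
    (h1 : p < x) (h2 : x < q) (h3 : p' < x) (h4 : x < q') : p = p' ∧ q = q' :=
  ⟨le_antisymm (le_of h' h h4 h1) (le_of h h' h2 h3),
    le_antisymm (ge_of h h' h1 h4) (ge_of h' h h3 h2)⟩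

theorem ne (G : Subgroup Hm) (a b : ℝ) (Z : Set ℝ) (hS : Setg G a b Z) (p q : ℝ)
    (h : Gap a b Z p q) : (a < p ∧ p ∈ Z) ∨ (q < b ∧ q ∈ Z) := by
  obtain ⟨z, hz⟩ := hS.ne
  obtain ⟨h1, h2⟩ := hS.sub z hz
  rcases le_or_gt z p with h3 | h3
  · left
    have h4 : a < p := h1.trans_le h3
    exact ⟨h4, h.pz.resolve_left h4.ne'⟩
  · right
    have h4 : q ≤ z := by
      by_contra hc
      push Not at hc
      exact h.no z hz ⟨h3, hc⟩
    have h5 : q < b := h4.trans_lt h2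
    exact ⟨h5, h.qz.resolve_left h5.ne⟩

theorem st (G : Subgroup Hm) (a b : ℝ) (Z : Set ℝ) (hS : Setg G a b Z) (p q : ℝ)
    (h : Gap a b Z p q) (g : Hm) (hg : g ∈ G) (x : ℝ) (h1 : p < x) (h2 : x < q)
    (h3 : p < g x) (h4 : g x < q) : g ∈ Sb G p q := by
  obtain ⟨h5, h6⟩ := uq a b Z p q (g p) (g q) (g x) h (im G a b Z hS p q h g hg) h3 h4
    (g.lt_iff_lt.2 h1) (g.lt_iff_lt.2 h2)
  exact ⟨hg, h5.symm, h6.symm⟩

/-- module GP -/
theorem specGP : SpecGP := ⟨ex, im, uq, ne, st⟩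

end FPT.RC.GPM
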