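import Pool.Agent.Lib.MP_c27bde_al.RC.Spec

/-!
MP_c27bde_al, RC, module IND: the closure of the union of all closed invariant sets on which `G` acts
through a group in `C` has the same property.
-/

set_option autoImplicit false

namespace FPT.RC.INDM

open Set FPT FPT.GF FPT.RC

theorem inv_closure (G : Subgroup Hm) (U : Set ℝ) (hU : Inv G U) : Inv G (closure U) := by
  intro g hg z hz
  have hc : Continuous (fun x : ℝ => g x) := (g : ℝ ≃o ℝ).continuous
  have h1 : g z ∈ closure ((fun x : ℝ => g x) '' U) :=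
    image_closure_subset_closure_image hc ⟨z, hz, rfl⟩
  refine closure_mono ?_ h1
  rintro _ ⟨x, hx, rfl⟩
  exact hU g hg x hx

theorem specIND (_hGP : SpecGP) (hRS : SpecRS) (hFGJ : SpecFGJ) (hBJ : SpecBJ) (hB0 : SpecB0)
    (hOF : SpecOF) (hQU : SpecQU) (hQJ : SpecQJ) (hPW : SpecPW) : SpecIND := by
  intro C hC n
  induction n with
  | zero =>
    intro G hPL _ hFG hBN
    exact hQU.fix C hC G _ fun g hg z _ => hB0.zero G hPL hFG hBN g hg z
  | succ m ih =>
    intro G hPL hBal hFG hBN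
    obtain ⟨U, hU⟩ : ∃ U, U = ⋃₀ {Z | IsClosed Z ∧ Inv G Z ∧ Q C G Z} := ⟨_, rfl⟩
    rw [← hU]
    have hUinv : Inv G U := by
      intro g hg z hz
      rw [hU] at hz ⊢
      obtain ⟨Z, hZ, hzZ⟩ := hz
      exact ⟨Z, hZ, hZ.2.1 g hg z hzZ⟩
    have hYinv := inv_closure G U hUinv
    obtain ⟨F, hFfin, hForb, hFmov⟩ := hOF G hPL hFG
    -- one orbital
    have key : ∀ r ∈ F, Q C G (closure U ∩ Ioo r.1 r.2) := by
      intro r hr
      have hO := hForb r hr
      by_cases hcase : ∃ Z', (IsClosed Z' ∧ Inv G Z' ∧ Q C G Z') ∧ (Z' ∩ Ioo r.1 r.2).Nonempty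
      · obtain ⟨Z', ⟨hZc, hZi, hZQ⟩, hZne⟩ := hcase
        have hS : Setg G r.1 r.2 (Z' ∩ Ioo r.1 r.2) :=
          { pl := hPL
            bal := hBal
            fg := hFG
            orb := hO
            sub := fun z hz => hz.2
            inv := by
              intro g hg z hz
              refine ⟨hZi g hg z hz.1, ?_, ?_⟩
              · have h1 : g r.1 < g z := (g : ℝ ≃o ℝ).lt_iff_lt.2 hz.2.1
                rwa [hO.fa g hg] at h1
              · have h1 : g z < g r.2 := (g : ℝ ≃o ℝ).lt_iff_lt.2 hz.2.2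
                rwa [hO.fb g hg] at h1
            cl := by
              intro x h1 h2 h3
              refine ⟨?_, h1, h2⟩
              have h4 := closure_mono (inter_subset_left) h3
              rwa [hZc.closure_eq] at h4
            ne := hZne }
        have hZY : Z' ∩ Ioo r.1 r.2 ⊆ closure U := by
          intro z hz
          refine subset_closure ?_
          rw [hU]
          exact ⟨Z', ⟨hZc, hZi, hZQ⟩, hz.1⟩
        refine hPW C hC G r.1 r.2 _ hS (closure U) hYinv hZY
          (hQU.mono C G _ _ hZQ inter_subset_left) ?_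
        intro p q Γ hgap hRJ
        obtain ⟨Γ', hRJ', hPL', hBal'⟩ := hRS.ex G hPL p q hgap.pq
        have hΓ : Γ = Γ' := by
          ext γ
          rw [hRJ γ, hRJ' γ]
        have hPLΓ : PLs Γ := by rw [hΓ]; exact hPL'
        have hBalΓ : Bal Γ := by rw [hΓ]; exact hBal' hBal
        have hFGΓ : Γ.FG := hFGJ G r.1 r.2 _ hS p q Γ hgap hRJ
        have hBNΓ : BN Γ m := hBJ G r.1 r.2 _ hS p q Γ hgap hRJ hPLΓ hFGΓ m hBN
        have h1 := ih Γ hPLΓ hBalΓ hFGΓ hBNΓ
        refine hQU.mono C Γ _ _ h1 ?_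
        intro y hy
        have h2 : y ∈ closure (Ioo p q ∩ U) := isOpen_Ioo.inter_closure ⟨hy.2, hy.1⟩
        refine closure_mono ?_ h2
        intro x hx
        have hxU := hx.2
        rw [hU] at hxU
        obtain ⟨Z'', ⟨h3, h4, h5⟩, h6⟩ := hxU
        exact ⟨Z'' ∩ Icc p q, hQJ C hC G Γ p q hgap.pq hRJ Z'' h3 h4 h5,
          h6, hx.1.1.le, hx.1.2.le⟩
      · have hempty : closure U ∩ Ioo r.1 r.2 = ∅ := by
          rw [Set.eq_empty_iff_forall_notMem]
          intro y hy
          have h2 : y ∈ closure (Ioo r.1 r.2 ∩ U) := isOpen_Ioo.inter_closure ⟨hy.2, hy.1⟩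
          have h3 : (Ioo r.1 r.2 ∩ U).Nonempty := by
            rw [← closure_nonempty_iff]
            exact ⟨y, h2⟩
          obtain ⟨x, hx1, hx2⟩ := h3
          rw [hU] at hx2
          obtain ⟨Z'', h4, h5⟩ := hx2
          exact hcase ⟨Z'', h4, x, h5, hx1⟩
        rw [hempty]
        exact hQU.fix C hC G _ fun g _ z hz => absurd hz (Set.notMem_empty z)
    -- all orbitals
    have hfin : Q C G (⋃₀ (((fun r : ℝ × ℝ => closure U ∩ Ioo r.1 r.2) '' F) ∪
        {{x : ℝ | ∀ g ∈ G, g x = x}})) := by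
      refine hQU.fin C hC G _ ((hFfin.image _).union (Set.finite_singleton _)) ?_
      rintro W (⟨r, hr, rfl⟩ | hW)
      · exact key r hr
      · rw [Set.mem_singleton_iff] at hW
        rw [hW]
        exact hQU.fix C hC G _ fun g hg z hz => hz g hg
    refine hQU.mono C G _ _ hfin ?_
    intro y hy
    by_cases h : ∃ g ∈ G, g y ≠ y
    · obtain ⟨r, hr, h1, h2⟩ := hFmov y h
      exact ⟨_, Or.inl ⟨r, hr, rfl⟩, hy, h1, h2⟩
    · push Not at h
      exact ⟨_, Or.inr rfl, h⟩

end FPT.RC.INDM
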