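import Pool.Agent.Lib.MP_c27bde_al.RC.Spec

/-! MP_c27bde_al, RC, module LIN: a PL homeomorphism without breaks in an interval is affine there. -/

set_option autoImplicit false

namespace FPT.RC.LINM

open Set FPT FPT.GF

theorem lin (g : Hm) (hg : IsPL g) (p q : ℝ) (hpq : p < q)
    (hbr : ∀ x, p < x → x < q → er g x = el g x) (y : ℝ) (hy : p ≤ y) (hyq : y ≤ q) :
    g y = g p + (2:ℝ) ^ (er g p) * (y - p) := by
  set k : ℤ := er g p with hk
  set T : Set ℝ := {t | p ≤ t ∧ t ≤ q ∧ ∀ w, p ≤ w → w ≤ t → g w = g p + (2:ℝ) ^ k * (w - p)}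
    with hT
  have hpT : p ∈ T := by
    refine ⟨le_rfl, hpq.le, fun w h1 h2 => ?_⟩
    rw [le_antisymm h2 h1]; ring
  have hbdd : BddAbove T := ⟨q, fun t ht => ht.2.1⟩
  set y0 : ℝ := sSup T with hy0
  have h1 : p ≤ y0 := le_csSup hbdd hpT
  have h2 : y0 ≤ q := csSup_le ⟨p, hpT⟩ fun t ht => ht.2.1
  have hlt : ∀ w, p ≤ w → w < y0 → g w = g p + (2:ℝ) ^ k * (w - p) := by
    intro w hw hw0
    obtain ⟨t, ht, hwt⟩ := exists_lt_of_lt_csSup ⟨p, hpT⟩ hw0
    exact ht.2.2 w hw hwt.le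
  have hy0T : ∀ w, p ≤ w → w ≤ y0 → g w = g p + (2:ℝ) ^ k * (w - p) := by
    intro w hw hw0
    rcases hw0.lt_or_eq with h | h
    · exact hlt w hw h
    · rcases h1.lt_or_eq with h3 | h3
      · have hcl : IsClosed {y : ℝ | g y = g p + (2:ℝ) ^ k * (y - p)} :=
          isClosed_eq g.continuous (by fun_prop)
        have hsub : Ico p y0 ⊆ {y : ℝ | g y = g p + (2:ℝ) ^ k * (y - p)} :=
          fun z hz => hlt z hz.1 hz.2
        have h4 := closure_minimal hsub hcl
        rw [closure_Ico h3.ne] at h4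
        rw [h]
        exact h4 ⟨h3.le, le_rfl⟩
      · rw [h, ← h3]; ring
  have hfin : y0 = q := by
    by_contra hne
    have h3 : y0 < q := lt_of_le_of_ne h2 hne
    have her : er g y0 = k := by
      rcases h1.lt_or_eq with h4 | h4
      · have hL : HasL g y0 k := by
          refine ⟨y0 - p, by linarith, fun w hw hw' => ?_⟩
          rw [hy0T w (by linarith) hw', hy0T y0 h1 le_rfl]
          ring
        rw [hbr y0 h4 h3, PLBM.el_eq hL]
      · rw [← h4, hk]
    obtain ⟨ε, hε, hR⟩ := PLBM.hasR_er hg y0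
    rw [her] at hR
    have h5 : min (y0 + ε) q ∈ T := by
      refine ⟨le_min (by linarith) hpq.le, min_le_right _ _, fun w hw hw' => ?_⟩
      rcases le_total w y0 with h6 | h6
      · exact hy0T w hw h6
      · rw [hR w h6 (hw'.trans (min_le_left _ _)), hy0T y0 h1 le_rfl]
        ring
    have h6 : min (y0 + ε) q ≤ y0 := le_csSup hbdd h5
    have h7 : y0 < min (y0 + ε) q := lt_min (by linarith) h3
    linarith
  exact hy0T y hy (by rw [hfin]; exact hyq)

theorem brk (g : Hm) (hg : IsPL g) (p q : ℝ) (hp : g p = p) (hq : g q = q) (x : ℝ) (hx : p < x)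
    (hxq : x < q) (hmv : g x ≠ x) : ∃ y, p < y ∧ y < q ∧ er g y ≠ el g y := by
  by_contra hcon
  push Not at hcon
  have hpq : p < q := hx.trans hxq
  have h1 := lin g hg p q hpq hcon q hpq.le le_rfl
  rw [hp, hq] at h1
  have h2 : (2:ℝ) ^ (er g p) = 1 := by
    have h3 : ((2:ℝ) ^ (er g p) - 1) * (q - p) = 0 := by linarith
    rcases mul_eq_zero.1 h3 with h4 | h4
    · linarith
    · exfalso; linarith
  have h3 := lin g hg p q hpq hcon x hx.le hxq.le
  rw [hp, h2] at h3
  exact hmv (by linarith)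

theorem specLIN : SpecLIN := ⟨lin, brk⟩

end FPT.RC.LINM
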