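import Pool.Agent.Lib.MP_c27bde_al.RC.Spec

/-!
MP_c27bde_al, RC, module LST: the least normal subgroup with quotient in the class.
-/

set_option autoImplicit false

namespace FPT.RC.LSTM

open Set FPT FPT.GF FPT.RC

/-- quotients by larger normal subgroups stay in the class -/
theorem quo_le {C : (G : Type) → [Group G] → Prop} (hC : Cls C) (L : Type) [Group L]
    (N M : Subgroup L) [N.Normal] [M.Normal] (h : N ≤ M) (hN : C (L ⧸ N)) : C (L ⧸ M) :=
  hC.iso _ _ (QuotientGroup.quotientQuotientEquivQuotient N M h)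
    (hC.quo (L ⧸ N) (M.map (QuotientGroup.mk' N)) hN)

/-- `C (L / ker f)` -/
theorem quo_ker {C : (G : Type) → [Group G] → Prop} (hC : Cls C) (L A : Type) [Group L] [Group A]
    (f : L →* A) (hA : C A) : C (L ⧸ f.ker) :=
  hC.iso _ _ (QuotientGroup.quotientKerEquivRange f).symm (hC.sub A f.range hA)

/-- `C (L / M)` implies `C (L / M'')` -/
theorem quo_met {C : (G : Type) → [Group G] → Prop} (hC : Cls C) (hQU : SpecQU) (L : Type) [Group L]
    (M : Subgroup L) [M.Normal] (hM : C (L ⧸ M)) : C (L ⧸ ⁅⁅M, M⁆, ⁅M, M⁆⁆) := by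
  have hle : ⁅⁅M, M⁆, ⁅M, M⁆⁆ ≤ M.comap (MonoidHom.id L) := by
    rw [Subgroup.comap_id]
    exact (Subgroup.commutator_le_left _ _).trans (Subgroup.commutator_le_left _ _)
  refine hQU.ker C hC _ _ (QuotientGroup.map _ M (MonoidHom.id L) hle) hM ?_
  refine hQU.met C hC _ ?_
  generalize hφ : QuotientGroup.map ⁅⁅M, M⁆, ⁅M, M⁆⁆ M (MonoidHom.id L) hle = φ
  have hK : φ.ker = M.map (QuotientGroup.mk' ⁅⁅M, M⁆, ⁅M, M⁆⁆) := by
    rw [← hφ, QuotientGroup.ker_map, Subgroup.comap_id]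
  have htop : (⊤ : Subgroup ↥φ.ker).map φ.ker.subtype = φ.ker := by
    rw [← MonoidHom.range_eq_map, Subgroup.range_subtype]
  have hmap : (derivedSeries ↥φ.ker 2).map φ.ker.subtype = ⊥ := by
    rw [show (2 : ℕ) = 1 + 1 from rfl, derivedSeries_succ, derivedSeries_one, commutator_def,
      Subgroup.map_commutator, Subgroup.map_commutator, htop, hK, ← Subgroup.map_commutator,
      ← Subgroup.map_commutator]
    rw [Subgroup.map_eq_bot_iff, QuotientGroup.ker_mk']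
  exact (Subgroup.map_eq_bot_iff_of_injective _ φ.ker.subtype_injective).1 hmap

/-- the elements of `G` that fix `Y` pointwise, as a subgroup of `G` -/
def FixS (G : Subgroup Hm) (Y : Set ℝ) : Subgroup ↥G where
  carrier := {g | ∀ y ∈ Y, g.1 y = y}
  mul_mem' := by
    rintro g h h1 h2 y hy
    rw [Subgroup.coe_mul, RelIso.mul_apply, h2 y hy, h1 y hy]
  one_mem' := fun _ _ => rfl
  inv_mem' := by
    rintro g h1 y hy
    rw [Subgroup.coe_inv]
    exact RFM.inv_fix (h1 y hy)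

theorem fixS_normal (G : Subgroup Hm) (Y : Set ℝ) (hY : Inv G Y) : (FixS G Y).Normal := by
  refine ⟨fun m hm g y hy => ?_⟩
  have h1 : (g.1)⁻¹ y ∈ Y := hY _ (G.inv_mem g.2) y hy
  have h2 : m.1 ((g.1)⁻¹ y) = (g.1)⁻¹ y := hm _ h1
  rw [Subgroup.coe_mul, Subgroup.coe_mul, Subgroup.coe_inv, RelIso.mul_apply, RelIso.mul_apply, h2,
    ← RelIso.mul_apply, mul_inv_cancel]
  rfl

theorem inv_closure (G : Subgroup Hm) (U : Set ℝ) (hU : Inv G U) : Inv G (closure U) := by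
  intro g hg y hy
  exact map_mem_closure g.continuous hy (fun z hz => hU g hg z hz)

theorem inv_sUnion (G : Subgroup Hm) (F : Set (Set ℝ)) (hF : ∀ Z ∈ F, Inv G Z) : Inv G (⋃₀ F) := by
  rintro g hg z ⟨Z, hZ, hz⟩
  exact ⟨Z, hZ, hF Z hZ g hg z hz⟩

theorem specLST (hB0 : SpecB0) (hQU : SpecQU) (hIND : SpecIND) (hDSP : SpecDSP) : SpecLST := by
  intro C hC G hpl hbal hfg
  obtain ⟨n, hn⟩ := hB0.ex G hpl hfg
  have hQ := hIND C hC n G hpl hbal hfg hn
  set F : Set (Set ℝ) := {Z | IsClosed Z ∧ Inv G Z ∧ Q C G Z} with hF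
  set Y : Set ℝ := closure (⋃₀ F) with hY
  have hYinv : Inv G Y := inv_closure G _ (inv_sUnion G F fun Z hZ => hZ.2.1)
  obtain ⟨A, instA, f, hA, hf⟩ := hQ
  have hMn : (FixS G Y).Normal := fixS_normal G Y hYinv
  have hle : f.ker ≤ FixS G Y := fun g hg => hf g hg
  have hCM : C (↥G ⧸ FixS G Y) := quo_le hC _ _ _ hle (quo_ker hC _ _ f hA)
  refine ⟨⁅⁅FixS G Y, FixS G Y⁆, ⁅FixS G Y, FixS G Y⁆⁆, inferInstance, quo_met hC hQU _ _ hCM, ?_⟩
  intro N' hN' hCN'
  refine hDSP G hpl N' (FixS G Y) hN' fun x hx m hm => hm x ?_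
  -- the fixed points of `N'` are in `Y`
  have hZ : {x : ℝ | ∀ n ∈ N', n.1 x = x} ∈ F := by
    refine ⟨?_, ?_, ?_⟩
    · have : {x : ℝ | ∀ n ∈ N', n.1 x = x} = ⋂ n ∈ N', {x : ℝ | n.1 x = x} := by
        ext x
        simp only [Set.mem_ofPred_eq, mem_iInter]
      rw [this]
      exact isClosed_biInter fun n _ => isClosed_eq n.1.continuous continuous_id
    · intro g hg z hz n hn'
      have h1 : (⟨g, hg⟩ : ↥G)⁻¹ * n * ((⟨g, hg⟩ : ↥G)⁻¹)⁻¹ ∈ N' := hN'.conj_mem n hn' _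
      have h2 := hz _ h1
      rw [inv_inv, Subgroup.coe_mul, Subgroup.coe_mul, Subgroup.coe_inv, RelIso.mul_apply,
        RelIso.mul_apply] at h2
      have h3 := congrArg g h2
      rw [← RelIso.mul_apply, mul_inv_cancel] at h3
      exact h3
    · refine ⟨↥G ⧸ N', inferInstance, QuotientGroup.mk' N', hCN', fun g hg z hz => hz g ?_⟩
      exact (QuotientGroup.eq_one_iff g).1 hg
  exact subset_closure ⟨_, hZ, hx⟩

end FPT.RC.LSTM
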