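import Pool.Agent.Lib.MP_c27bde_al.RC.Spec

/-!
MP_c27bde_al, RC, module NOF: Thompson's group F is not residually `C` and has no normal system with
factors in `C` if it is not in `C`.
-/

set_option autoImplicit false

namespace FPT.RC.NOFM

open Set FPT FPT.GF
open scoped commutatorElement

/-- the commutator subgroup of F is contained in every non-trivial normal subgroup -/
theorem comm_le {L : Type} [Group L] (e : L ≃* FT) (N : Subgroup L) (hN : N.Normal)
    (hne : N ≠ ⊥) : commutator L ≤ N := by
  have h1 : (N.map e.toMonoidHom).Normal := hN.map _ e.surjective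
  have h2 : N.map e.toMonoidHom ≠ ⊥ := by
    intro h
    exact hne ((Subgroup.map_eq_bot_iff_of_injective _ e.injective).1 h)
  have h3 : commutator FT ≤ N.map e.toMonoidHom := EAM.comm_le FINM.fq _ h2
  intro x hx
  have h4 : e.toMonoidHom x ∈ (commutator L).map e.toMonoidHom := ⟨x, hx, rfl⟩
  have h5 : (commutator L).map e.toMonoidHom ≤ commutator FT := by
    rw [commutator_def, commutator_def, Subgroup.map_commutator]
    exact Subgroup.commutator_mono le_top le_top
  obtain ⟨y, hy, hxy⟩ := h3 (h5 h4)
  have h6 : y = x := e.injective hxy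
  rw [← h6]
  exact hy

/-- the commutator subgroup is not trivial -/
theorem comm_ne {L : Type} [Group L] (e : L ≃* FT) : ∃ g : L, g ≠ 1 ∧ g ∈ commutator L := by
  refine ⟨e.symm s1, ?_, ?_⟩
  · intro h
    have h1 : s1 = 1 := by
      have h2 := congrArg e h
      rwa [MulEquiv.apply_symm_apply, map_one] at h2
    apply FINM.s12
    rw [h1, one_mul, mul_one]
  · have h4 : e.symm.toMonoidHom s1 ∈ (commutator FT).map e.symm.toMonoidHom :=
      ⟨s1, FINM.fc.s1c, rfl⟩
    have h5 : (commutator FT).map e.symm.toMonoidHom ≤ commutator L := by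
      rw [commutator_def, commutator_def, Subgroup.map_commutator]
      exact Subgroup.commutator_mono le_top le_top
    exact h5 h4

/-- the quotient by the trivial subgroup -/
theorem of_bot {C : (G : Type) → [Group G] → Prop} (hC : Cls C) {L : Type} [Group L]
    (N : Subgroup L) (hN : N.Normal) (h : N = ⊥) (hq : C (L ⧸ N)) : C L := by
  subst h
  exact hC.iso _ _ QuotientGroup.quotientBot hq

theorem specNOF : SpecNOF where
  res := by
    intro C hC hF L _ e h
    obtain ⟨g, hg1, hg⟩ := comm_ne e
    obtain ⟨N, hN, hgN, hq⟩ := h g hg1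
    have hbot : N = ⊥ := by
      by_contra hne
      exact hgN (comm_le e N hN hne hg)
    exact hF (hC.iso _ _ e (of_bot hC N hN hbot hq))
  sys := by
    intro C hC hF L _ e h
    obtain ⟨S, hS⟩ := h
    obtain ⟨g, hg1, hg⟩ := comm_ne e
    have hcb : commutator L ≠ ⊥ := by
      intro hb
      rw [hb, Subgroup.mem_bot] at hg
      exact hg1 hg
    have htop : (⊤ : Subgroup L) ≠ ⊥ := by
      intro hb
      apply hcb
      rw [eq_bot_iff, ← hb]
      exact le_top
    obtain ⟨N1, hN1⟩ : ∃ N1 : Subgroup L, N1 = sInf {N | N ∈ S ∧ N ≠ ⊥} := ⟨_, rfl⟩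
    have hN1S : N1 ∈ S := by
      rw [hN1]
      exact hS.inf _ (fun N hN => hN.1) ⟨⊤, hS.top, htop⟩
    have hle : commutator L ≤ N1 := by
      rw [hN1]
      exact le_sInf fun N hN => comm_le e N (hS.nor N hN.1) hN.2
    have hN1b : N1 ≠ ⊥ := by
      intro hb
      rw [hb, le_bot_iff] at hle
      exact hcb hle
    have hnor : ((⊥ : Subgroup L).subgroupOf N1).Normal := by
      rw [Subgroup.bot_subgroupOf]
      infer_instance
    have hfac := hS.fac ⊥ hS.bot N1 hN1S (bot_lt_iff_ne_bot.2 hN1b) (by
      intro D hD _ hDN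
      by_cases hDb : D = ⊥
      · exact Or.inl hDb
      · refine Or.inr (le_antisymm hDN ?_)
        rw [hN1]
        exact sInf_le ⟨hD, hDb⟩) hnor
    have hCN1 : C ↥N1 := of_bot hC _ hnor (Subgroup.bot_subgroupOf N1) hfac
    have hCc : C ↥(commutator L) :=
      hC.iso _ _ (Subgroup.subgroupOfEquivOfLe hle) (hC.sub _ ((commutator L).subgroupOf N1) hCN1)
    have hCq : C (L ⧸ commutator L) := by
      apply hC.ab
      intro a b
      exact @mul_comm (Abelianization L) _ a b
    exact hF (hC.iso _ _ e (hC.ext L (commutator L) hCc hCq))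

end FPT.RC.NOFM
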