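import Pool.Agent.Lib.MP_c27bde_al.RC.Spec

set_option autoImplicit false

namespace FPT.RC.OFM

open Set FPT FPT.GF FPT.RC

/-- RC module OF: finitely many orbitals -/
theorem specOF : SpecOF := by
  intro G hG hfg
  obtain ⟨S, hS⟩ := hfg
  have hsub : ∀ g ∈ (S : Set Hm), g ∈ G := fun g hg => hS ▸ Subgroup.subset_closure hg
  have hfin := GF.RDM.orb_fin (S : Set Hm) S.finite_toSet (fun g hg => hG g (hsub g hg))
  rw [hS] at hfin
  refine ⟨_, hfin, ?_, ?_⟩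
  · rintro r ⟨h1, h2, h3, h4⟩
    exact ⟨h1, h2, h3, h4⟩
  · intro x hx
    obtain ⟨a, b, ha, hb, fa, fb, mv⟩ := FINM.ord.orbital G hG x hx
    exact ⟨(a, b), ⟨ha.trans hb, fa, fb, mv⟩, ha, hb⟩

end FPT.RC.OFM
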