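import Pool.Agent.Lib.MP_c27bde_al.RC.Spec

/-! MP_c27bde_al, RC: module PW (helper47) -/

set_option autoImplicit false

namespace FPT.RC.PWM

open Set FPT FPT.GF FPT.RC

/-! ### Groups -/

theorem of_ker {C : (G : Type) → [Group G] → Prop} (hC : Cls C) {L1 L2 A1 : Type} [Group L1]
    [Group L2] [Group A1] (hA : C A1) (f : L1 →* A1) (g : L1 →* L2)
    (hg : Function.Surjective g) (h : ∀ x, f x = 1 → g x = 1) : C L2 := by
  have hR : C ↥f.range := hC.sub A1 f.range hA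
  let e := QuotientGroup.quotientKerEquivRange f
  let θ : ↥f.range →* L2 := (QuotientGroup.lift f.ker g h).comp e.symm.toMonoidHom
  have hθ : Function.Surjective θ := by
    intro y
    obtain ⟨x, rfl⟩ := hg y
    refine ⟨e (QuotientGroup.mk x), ?_⟩
    show QuotientGroup.lift f.ker g h (e.symm (e _)) = _
    rw [e.symm_apply_apply]
    rfl
  exact hC.iso _ _ (QuotientGroup.quotientKerEquivOfSurjective θ hθ) (hC.quo _ θ.ker hR)

theorem core {C : (G : Type) → [Group G] → Prop} (hC : Cls C) {G : Type} [Group G]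
    (N M : Subgroup G) [N.Normal] [M.Normal] {A0 A : Type} [Group A0] [Group A] (f0 : G →* A0)
    (hA0 : C A0) (h0 : ∀ g, f0 g = 1 → g ∈ M) (hA : C A) {ι : Type} (φ : ι → (↥M →* A))
    (hfin : ∀ m, {i | φ i m ≠ 1}.Finite)
    (hN : ∀ m : ↥M, (∀ i, φ i m = 1) → (m : G) ∈ N) : C (G ⧸ N) := by
  let Φ : ↥M →* (ι → A) :=
    { toFun := fun m i => φ i m
      map_one' := funext fun i => map_one _
      map_mul' := fun x y => funext fun i => map_mul _ _ _ }
  have hR : C ↥Φ.range := by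
    refine hC.pow _ A ι (fun i => (Pi.evalMonoidHom (fun _ => A) i).comp Φ.range.subtype) hA ?_ ?_
    · rintro ⟨_, m, rfl⟩
      exact hfin m
    · rintro ⟨y, hy⟩ h
      apply Subtype.ext
      funext i
      exact h i
  let M' : Subgroup (G ⧸ N) := M.map (QuotientGroup.mk' N)
  haveI : M'.Normal := Subgroup.Normal.map inferInstance _ (QuotientGroup.mk'_surjective N)
  refine hC.ext _ M' ?_ ?_
  · refine of_ker hC hR Φ.rangeRestrict ((QuotientGroup.mk' N).subgroupMap M)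
      (MonoidHom.subgroupMap_surjective _ _) fun m hm => ?_
    apply Subtype.ext
    show QuotientGroup.mk' N (m : G) = 1
    rw [QuotientGroup.mk'_apply, QuotientGroup.eq_one_iff]
    refine hN m fun i => ?_
    exact congrFun (congrArg Subtype.val hm) i
  · refine of_ker hC hA0 f0 ((QuotientGroup.mk' M').comp (QuotientGroup.mk' N))
      ((QuotientGroup.mk'_surjective M').comp (QuotientGroup.mk'_surjective N)) fun x hx => ?_
    rw [MonoidHom.comp_apply, QuotientGroup.mk'_apply, QuotientGroup.eq_one_iff]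
    exact ⟨x, h0 x hx, rfl⟩

/-! ### Pointwise stabilizers -/

/-- pointwise stabilizer -/
def pt (G : Subgroup Hm) (W : Set ℝ) : Subgroup ↥G := (Fx G W).subgroupOf G

theorem mem_pt {G : Subgroup Hm} {W : Set ℝ} {g : ↥G} : g ∈ pt G W ↔ ∀ z ∈ W, g.1 z = z :=
  ⟨fun h => h.2, fun h => ⟨g.2, h⟩⟩

theorem pt_normal {G : Subgroup Hm} {W : Set ℝ} (hW : Inv G W) : (pt G W).Normal := by
  constructor
  intro n hn g
  rw [mem_pt] at hn ⊢
  intro z hz
  show (g.1 * n.1 * g.1⁻¹) z = z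
  rw [RelIso.mul_apply, RelIso.mul_apply, hn _ (hW _ (G.inv_mem g.2) z hz)]
  exact RelIso.apply_inv_self g.1 z

/-- the gaps in one orbit -/
theorem orbitQ (hLIN : SpecLIN) (hGP : SpecGP) {C : (G : Type) → [Group G] → Prop} (hC : Cls C)
    {G : Subgroup Hm} {a b : ℝ} {Z : Set ℝ} (hS : Setg G a b Z) {Y : Set ℝ} (hY : Inv G Y)
    (hQ : Q C G Z) (hgap : ∀ (p q : ℝ) (Γ : Subgroup Hm), Gap a b Z p q → RJ G p q Γ →
      Q C Γ (Y ∩ Ioo p q)) {p0 q0 : ℝ} (h0 : Gap a b Z p0 q0) :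
    Q C G (Z ∪ {y | y ∈ Y ∧ ∃ h ∈ G, h p0 < y ∧ y < h q0}) := by
  classical
  obtain ⟨A0, _, f0, hA0, hf0⟩ := hQ
  obtain ⟨f, hres, -⟩ := GF.MainM.ra (Sb G p0 q0) p0 q0 h0.pq (fun g hg => hS.pl g hg.1)
    (fun g hg => hg.2.1) (fun g hg => hg.2.2)
  have hRJ : RJ G p0 q0 f.range := by
    intro γ
    constructor
    · rintro ⟨k, rfl⟩
      exact ⟨k.1, k.2, fun w h1 h2 => hres.1 k w h1 h2, fun w hw => hres.2 k w hw⟩
    · rintro ⟨g, hg, h1, h2⟩
      refine ⟨⟨g, hg⟩, ?_⟩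
      apply RelIso.ext
      intro w
      by_cases hw : w ≤ p0 ∨ q0 ≤ w
      · rw [hres.2 _ w hw, h2 w hw]
      · push Not at hw
        rw [hres.1 _ w hw.1.le hw.2.le, h1 w hw.1.le hw.2.le]
  obtain ⟨A, _, fr, hA, hfr⟩ := hgap p0 q0 f.range h0 hRJ
  let θ : ↥(Sb G p0 q0) →* A := fr.comp f.rangeRestrict
  have hθ1 : ∀ s, θ s = 1 → ∀ z ∈ Y, p0 < z → z < q0 → s.1 z = z := by
    intro s hs z hz h1 h2
    have h3 := hfr (f.rangeRestrict s) hs z ⟨hz, h1, h2⟩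
    rw [← hres.1 s z h1.le h2.le]
    exact h3
  have hθ2 : ∀ s, (∀ w, p0 ≤ w → w ≤ q0 → s.1 w = w) → θ s = 1 := by
    intro s hs
    have h3 : f s = 1 := by
      apply RelIso.ext
      intro w
      by_cases hw : w ≤ p0 ∨ q0 ≤ w
      · rw [hres.2 _ w hw]
        rfl
      · push Not at hw
        rw [hres.1 _ w hw.1.le hw.2.le, hs w hw.1.le hw.2.le]
        rfl
    have h4 : f.rangeRestrict s = 1 := Subtype.ext h3
    show fr (f.rangeRestrict s) = 1
    rw [h4, map_one]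
  set W : Set ℝ := Z ∪ {y | y ∈ Y ∧ ∃ h ∈ G, h p0 < y ∧ y < h q0} with hWdef
  have hWinv : Inv G W := by
    rintro g hg z (hz | ⟨hz, h, hh, h1, h2⟩)
    · exact Or.inl (hS.inv g hg z hz)
    · refine Or.inr ⟨hY g hg z hz, g * h, G.mul_mem hg hh, ?_, ?_⟩
      · rw [RelIso.mul_apply]
        exact g.lt_iff_lt.2 h1
      · rw [RelIso.mul_apply]
        exact g.lt_iff_lt.2 h2
  haveI := pt_normal hWinv
  haveI := pt_normal hS.inv
  have hend : ∀ (m : ↥(pt G Z)) (z : ℝ), (z = a ∨ z = b ∨ z ∈ Z) → m.1.1 z = z := by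
    rintro m z (rfl | rfl | hz)
    · exact hS.orb.fa _ m.1.2
    · exact hS.orb.fb _ m.1.2
    · exact mem_pt.1 m.2 z hz
  have hp : ∀ h ∈ G, h p0 = a ∨ h p0 = b ∨ h p0 ∈ Z := by
    intro h hh
    rcases h0.pz with e | e
    · rw [e]
      exact Or.inl (hS.orb.fa h hh)
    · exact Or.inr (Or.inr (hS.inv h hh _ e))
  have hq : ∀ h ∈ G, h q0 = a ∨ h q0 = b ∨ h q0 ∈ Z := by
    intro h hh
    rcases h0.qz with e | e
    · rw [e]
      exact Or.inr (Or.inl (hS.orb.fb h hh))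
    · exact Or.inr (Or.inr (hS.inv h hh _ e))
  have hconj : ∀ (h : ↥G) (m : ↥(pt G Z)), h.1⁻¹ * m.1.1 * h.1 ∈ Sb G p0 q0 := by
    intro h m
    refine ⟨G.mul_mem (G.mul_mem (G.inv_mem h.2) m.1.2) h.2, ?_, ?_⟩
    · rw [RelIso.mul_apply, RelIso.mul_apply, hend m _ (hp h.1 h.2)]
      exact RelIso.inv_apply_self h.1 p0
    · rw [RelIso.mul_apply, RelIso.mul_apply, hend m _ (hq h.1 h.2)]
      exact RelIso.inv_apply_self h.1 q0
  let κ : ↥G → (↥(pt G Z) →* ↥(Sb G p0 q0)) := fun h =>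
    { toFun := fun m => ⟨h.1⁻¹ * m.1.1 * h.1, hconj h m⟩
      map_one' := by
        apply Subtype.ext
        show h.1⁻¹ * 1 * h.1 = 1
        group
      map_mul' := fun x y => by
        apply Subtype.ext
        show h.1⁻¹ * (x.1.1 * y.1.1) * h.1 = (h.1⁻¹ * x.1.1 * h.1) * (h.1⁻¹ * y.1.1 * h.1)
        group }
  let ι : Type := {r : ℝ × ℝ // ∃ h ∈ G, h p0 = r.1 ∧ h q0 = r.2}
  choose hh hhG hh1 hh2 using fun i : ι => i.2
  let φ : ι → (↥(pt G Z) →* A) := fun i => θ.comp (κ ⟨hh i, hhG i⟩)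
  have hgi : ∀ i : ι, Gap a b Z i.1.1 i.1.2 := by
    intro i
    have h1 := hGP.im G a b Z hS p0 q0 h0 (hh i) (hhG i)
    rwa [hh1 i, hh2 i] at h1
  have hfin : ∀ m, {i | φ i m ≠ 1}.Finite := by
    intro m
    have hy : ∀ i : ι, ∃ y : ℝ, φ i m ≠ 1 →
        i.1.1 < y ∧ y < i.1.2 ∧ er m.1.1 y ≠ el m.1.1 y := by
      intro i
      by_cases hi : φ i m ≠ 1
      · have h1 : ∃ w, p0 ≤ w ∧ w ≤ q0 ∧ m.1.1 (hh i w) ≠ hh i w := by
          by_contra hcon
          push Not at hcon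
          refine hi (hθ2 _ fun w hw1 hw2 => ?_)
          show ((hh i)⁻¹ * m.1.1 * hh i) w = w
          rw [RelIso.mul_apply, RelIso.mul_apply, hcon w hw1 hw2]
          exact RelIso.inv_apply_self (hh i) w
        obtain ⟨w, hw1, hw2, hw3⟩ := h1
        have e1 : m.1.1 i.1.1 = i.1.1 := by
          rw [← hh1 i]
          exact hend m _ (hp _ (hhG i))
        have e2 : m.1.1 i.1.2 = i.1.2 := by
          rw [← hh2 i]
          exact hend m _ (hq _ (hhG i))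
        have l1 : i.1.1 < hh i w := by
          have h2 : i.1.1 ≤ hh i w := by
            rw [← hh1 i]
            exact (hh i).le_iff_le.2 hw1
          refine lt_of_le_of_ne h2 fun h3 => hw3 ?_
          rw [← h3, e1]
        have l2 : hh i w < i.1.2 := by
          have h2 : hh i w ≤ i.1.2 := by
            rw [← hh2 i]
            exact (hh i).le_iff_le.2 hw2
          refine lt_of_le_of_ne h2 fun h3 => hw3 ?_
          rw [h3, e2]
        obtain ⟨y, y1, y2, y3⟩ := hLIN.brk m.1.1 (hS.pl _ m.1.2) _ _ e1 e2 _ l1 l2 hw3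
        exact ⟨y, fun _ => ⟨y1, y2, y3⟩⟩
      · exact ⟨0, fun h => absurd h hi⟩
    choose y hy using hy
    refine Set.Finite.of_injOn (f := y) (t := {x | er m.1.1 x ≠ el m.1.1 x}) ?_ ?_
      (FINM.plb.brk _ (hS.pl _ m.1.2))
    · intro i hi
      exact (hy i hi).2.2
    · intro i hi j hj hij
      have h1 := hy i hi
      have h2 := hy j hj
      rw [← hij] at h2
      have h3 := hGP.uq a b Z _ _ _ _ _ (hgi i) (hgi j) h1.1 h1.2.1 h2.1 h2.2.1
      exact Subtype.ext (Prod.ext h3.1 h3.2)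
  have hN : ∀ m : ↥(pt G Z), (∀ i, φ i m = 1) → (m : ↥G) ∈ pt G W := by
    intro m hm
    rw [mem_pt]
    rintro z (hz | ⟨hz, h, hhh, z1, z2⟩)
    · exact mem_pt.1 m.2 z hz
    · let i : ι := ⟨(h p0, h q0), h, hhh, rfl, rfl⟩
      have k1 : hh i p0 = h p0 := hh1 i
      have k2 : hh i q0 = h q0 := hh2 i
      have y1 : p0 < (hh i)⁻¹ z := by
        apply (hh i).lt_iff_lt.1
        rw [RelIso.apply_inv_self, k1]
        exact z1
      have y2 : (hh i)⁻¹ z < q0 := by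
        apply (hh i).lt_iff_lt.1
        rw [RelIso.apply_inv_self, k2]
        exact z2
      have h3 := hθ1 _ (hm i) _ (hY _ (G.inv_mem (hhG i)) z hz) y1 y2
      have h4 : ((hh i)⁻¹ * m.1.1 * hh i) ((hh i)⁻¹ z) = (hh i)⁻¹ z := h3
      rw [RelIso.mul_apply, RelIso.mul_apply, RelIso.apply_inv_self] at h4
      exact (hh i)⁻¹.injective h4
  refine ⟨↥G ⧸ pt G W, inferInstance, QuotientGroup.mk' (pt G W),
    core hC (pt G W) (pt G Z) f0 hA0 (fun g hg => mem_pt.2 (hf0 g hg)) hA φ hfin hN, ?_⟩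
  intro g hg z hz
  rw [QuotientGroup.mk'_apply, QuotientGroup.eq_one_iff] at hg
  exact mem_pt.1 hg z hz

theorem specPW (hLIN : SpecLIN) (hGP : SpecGP) (_hRS : SpecRS) (hGO : SpecGO)
    (hQU : SpecQU) : SpecPW := by
  intro C hC G a b Z hS Y hY hZY hQ hgap
  obtain ⟨F, hF, hFg, hFo⟩ := hGO G a b Z hS
  let Wr : ℝ × ℝ → Set ℝ := fun r => Z ∪ {y | y ∈ Y ∧ ∃ h ∈ G, h r.1 < y ∧ y < h r.2}
  let W0 : Set ℝ := Z ∪ {y | ∀ s ∈ G, (∀ z ∈ Z, s z = z) → s y = y}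
  have hW0 : Q C G W0 := by
    obtain ⟨A0, _, f0, hA0, hf0⟩ := hQ
    refine ⟨A0, _, f0, hA0, fun g hg z hz => ?_⟩
    rcases hz with hz | hz
    · exact hf0 g hg z hz
    · exact hz g.1 g.2 (hf0 g hg)
  have h1 : Q C G (⋃₀ (insert W0 (Wr '' F))) := by
    refine hQU.fin C hC G _ ((hF.image Wr).insert W0) ?_
    rintro W (rfl | ⟨r, hr, rfl⟩)
    · exact hW0
    · exact orbitQ hLIN hGP hC hS hY hQ hgap (hFg r hr)
  refine hQU.mono C G _ _ h1 ?_
  rintro y ⟨hyY, hya, hyb⟩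
  by_cases hyZ : y ∈ Z
  · exact ⟨W0, Or.inl rfl, Or.inl hyZ⟩
  by_cases hfix : ∀ s ∈ G, (∀ z ∈ Z, s z = z) → s y = y
  · exact ⟨W0, Or.inl rfl, Or.inr hfix⟩
  push Not at hfix
  obtain ⟨s, hs, hsZ, hsy⟩ := hfix
  obtain ⟨p, q, hg, hpy, hyq⟩ := hGP.ex G a b Z hS y hya hyb hyZ
  have hsp : s p = p := by
    rcases hg.pz with e | e
    · rw [e]
      exact hS.orb.fa s hs
    · exact hsZ p e
  have hsq : s q = q := by
    rcases hg.qz with e | e
    · rw [e]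
      exact hS.orb.fb s hs
    · exact hsZ q e
  obtain ⟨r, hr, h, hh, e1, e2⟩ := hFo p q hg ⟨s, ⟨hs, hsp, hsq⟩, y, hpy, hyq, hsy⟩
  exact ⟨Wr r, Or.inr ⟨r, hr, rfl⟩, Or.inr ⟨hyY, h, hh, by rw [e1]; exact hpy, by rw [e2]; exact hyq⟩⟩

end FPT.RC.PWM
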