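import Pool.Agent.Lib.MP_c27bde_al.RC.Spec

/-! # RC: module QJ (restriction of `Q` to a gap) -/

set_option autoImplicit false

namespace FPT.RC.QJM

open Set FPT FPT.GF FPT.RC

section

variable {G Γ : Subgroup Hm} {p q : ℝ}

theorem inG (hR : RJ G p q Γ) (γ : ↥Γ) : ∃ g : ↥G, g.1 ∈ Sb G p q ∧
    ∀ w, p ≤ w → w ≤ q → γ.1 w = g.1 w := by
  obtain ⟨g, hg, h1, -⟩ := (hR γ.1).1 γ.2
  exact ⟨⟨g, hg.1⟩, hg, h1⟩

/-- the chosen element of `G` inducing `γ` -/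
noncomputable def sel (hR : RJ G p q Γ) (γ : ↥Γ) : ↥G := (inG hR γ).choose

theorem sel_mem (hR : RJ G p q Γ) (γ : ↥Γ) : (sel hR γ).1 ∈ Sb G p q :=
  (inG hR γ).choose_spec.1

theorem sel_eq (hR : RJ G p q Γ) (γ : ↥Γ) : ∀ w, p ≤ w → w ≤ q → γ.1 w = (sel hR γ).1 w :=
  (inG hR γ).choose_spec.2

/-- the elements of `G` in `Sb G p q` -/
def SS (G : Subgroup Hm) (p q : ℝ) : Subgroup ↥G := (Sb G p q).subgroupOf G

theorem mem_SS {g : ↥G} : g ∈ SS G p q ↔ g.1 ∈ Sb G p q := Subgroup.mem_subgroupOf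

/-- the elements of `Sb G p q` which are trivial on `[p,q]` -/
def S0 (G : Subgroup Hm) (p q : ℝ) : Subgroup ↥G where
  carrier := {g | g.1 ∈ Sb G p q ∧ ∀ w, p ≤ w → w ≤ q → g.1 w = w}
  mul_mem' := by
    rintro g h ⟨h1, h2⟩ ⟨h3, h4⟩
    refine ⟨(Sb G p q).mul_mem h1 h3, fun w hp hq => ?_⟩
    have e : (g * h).1 w = g.1 (h.1 w) := rfl
    rw [e, h4 w hp hq, h2 w hp hq]
  one_mem' := ⟨(Sb G p q).one_mem, fun _ _ _ => rfl⟩
  inv_mem' := by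
    rintro g ⟨h1, h2⟩
    refine ⟨(Sb G p q).inv_mem h1, fun w hp hq => ?_⟩
    exact RFM.inv_fix (h2 w hp hq)

/-- elements of `Sb G p q` preserve `[p,q]` -/
theorem sb_icc {g : Hm} (hg : g ∈ Sb G p q) {w : ℝ} (hp : p ≤ w) (hq : w ≤ q) :
    p ≤ g w ∧ g w ≤ q := by
  obtain ⟨-, h1, h2⟩ := hg
  constructor
  · rw [← h1]; exact g.monotone hp
  · rw [← h2]; exact g.monotone hq

theorem inv_apply_self' (g : Hm) (w : ℝ) : g⁻¹ (g w) = w := by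
  have : (g⁻¹ * g) w = w := by rw [inv_mul_cancel]; rfl
  exact this

theorem apply_inv_self' (g : Hm) (w : ℝ) : g (g⁻¹ w) = w := by
  have : (g * g⁻¹) w = w := by rw [mul_inv_cancel]; rfl
  exact this

/-- two elements of `Sb G p q` which agree on `[p,q]` differ by an element of `S0` -/
theorem diff_mem {g h : ↥G} (hg : g.1 ∈ Sb G p q) (hh : h.1 ∈ Sb G p q)
    (he : ∀ w, p ≤ w → w ≤ q → g.1 w = h.1 w) : g⁻¹ * h ∈ S0 G p q := by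
  refine ⟨(Sb G p q).mul_mem ((Sb G p q).inv_mem hg) hh, fun w hp hq => ?_⟩
  have e : (g⁻¹ * h).1 w = g.1⁻¹ (h.1 w) := rfl
  rw [e, ← he w hp hq, inv_apply_self']

theorem conj_mem {g s : ↥G} (hg : g ∈ SS G p q) (hs : s ∈ S0 G p q) :
    g * s * g⁻¹ ∈ S0 G p q := by
  rw [mem_SS] at hg
  refine ⟨(Sb G p q).mul_mem ((Sb G p q).mul_mem hg hs.1) ((Sb G p q).inv_mem hg),
    fun w hp hq => ?_⟩
  have e : (g * s * g⁻¹).1 w = g.1 (s.1 (g.1⁻¹ w)) := rfl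
  obtain ⟨h1, h2⟩ := sb_icc ((Sb G p q).inv_mem hg) hp hq
  rw [e, hs.2 _ h1 h2, apply_inv_self']

end

theorem specQJ : SpecQJ := by
  intro C hC G Γ p q hpq hR Z' hcl hinv hQ
  have hInv : Inv Γ (Z' ∩ Icc p q) := by
    intro γ hγ z hz
    obtain ⟨s, hs, h1, -⟩ := (hR γ).1 hγ
    rw [h1 z hz.2.1 hz.2.2]
    exact ⟨hinv s hs.1 z hz.1, sb_icc hs hz.2.1 hz.2.2⟩
  refine ⟨hcl.inter isClosed_Icc, hInv, ?_⟩
  obtain ⟨A, _, f, hA, hf⟩ := hQ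
  let B : Subgroup A := (SS G p q).map f
  let N : Subgroup ↥B := ((S0 G p q).map f).subgroupOf B
  have hN : N.Normal := by
    constructor
    rintro ⟨n, hn⟩ hnN ⟨b, hb⟩
    obtain ⟨g, hg, rfl⟩ := hb
    rw [Subgroup.mem_subgroupOf] at hnN ⊢
    obtain ⟨s, hs, rfl⟩ := hnN
    exact ⟨g * s * g⁻¹, conj_mem hg hs, by simp⟩
  have hCB : C ↥B := hC.sub A B hA
  have hCN : C (↥B ⧸ N) := hC.quo ↥B N hCB
  have hmem : ∀ γ : ↥Γ, f (sel hR γ) ∈ B := fun γ =>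
    ⟨sel hR γ, mem_SS.2 (sel_mem hR γ), rfl⟩
  let φ : ↥Γ →* ↥B ⧸ N := MonoidHom.mk'
    (fun γ => QuotientGroup.mk (⟨f (sel hR γ), hmem γ⟩ : ↥B)) (by
      intro a b
      rw [← QuotientGroup.mk_mul, QuotientGroup.eq]
      rw [Subgroup.mem_subgroupOf]
      refine ⟨(sel hR (a * b))⁻¹ * (sel hR a * sel hR b), ?_, by simp⟩
      refine diff_mem (sel_mem hR _) ((Sb G p q).mul_mem (sel_mem hR a) (sel_mem hR b)) ?_
      intro w hp hq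
      have e : (sel hR a * sel hR b).1 w = (sel hR a).1 ((sel hR b).1 w) := rfl
      obtain ⟨h1, h2⟩ := sb_icc (sel_mem hR b) hp hq
      rw [e, ← sel_eq hR _ w hp hq, ← sel_eq hR a _ h1 h2, ← sel_eq hR b w hp hq]
      rfl)
  refine ⟨↥B ⧸ N, inferInstance, φ, hCN, ?_⟩
  intro γ hγ z hz
  have h1 : (QuotientGroup.mk (⟨f (sel hR γ), hmem γ⟩ : ↥B) : ↥B ⧸ N) = 1 := hγ
  rw [QuotientGroup.eq_one_iff, Subgroup.mem_subgroupOf] at h1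
  obtain ⟨s0, hs0, hs⟩ := h1
  have h2 : f (sel hR γ * s0⁻¹) = 1 := by
    rw [map_mul, map_inv]
    have : f s0 = f (sel hR γ) := hs
    rw [this, mul_inv_cancel]
  have h3 := hf _ h2 z hz.1
  have e : (sel hR γ * s0⁻¹).1 z = (sel hR γ).1 (s0.1⁻¹ z) := rfl
  rw [e, RFM.inv_fix (hs0.2 z hz.2.1 hz.2.2)] at h3
  rw [sel_eq hR γ z hz.2.1 hz.2.2, h3]

end FPT.RC.QJM
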