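import Pool.Agent.Lib.MP_c27bde_al.RC.Spec

/-!
# RC, module RS (helper32): restriction of the stabilizer of an interval
-/

set_option autoImplicit false

namespace FPT.RC.RSM

open Set FPT FPT.GF FPT.RC

theorem ex (G : Subgroup Hm) (hPL : PLs G) (p q : ℝ) (hpq : p < q) :
    ∃ Γ, RJ G p q Γ ∧ PLs Γ ∧ (Bal G → Bal Γ) := by
  have hK : PLs (Sb G p q) := fun g hg => hPL g hg.1
  have hp : ∀ g ∈ Sb G p q, g p = p := fun g hg => hg.2.1
  have hq : ∀ g ∈ Sb G p q, g q = q := fun g hg => hg.2.2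
  obtain ⟨f, hf, hfPL⟩ := GF.MainM.ra (Sb G p q) p q hpq hK hp hq
  refine ⟨f.range, ?_, ?_, ?_⟩
  · intro γ
    constructor
    · rintro ⟨k, rfl⟩
      exact ⟨k.1, k.2, fun w h1 h2 => hf.1 k w h1 h2, fun w h => hf.2 k w h⟩
    · rintro ⟨g, hg, h1, h2⟩
      refine ⟨⟨g, hg⟩, ?_⟩
      ext w
      rcases le_or_gt w p with h3 | h3
      · rw [hf.2 _ w (Or.inl h3), h2 w (Or.inl h3)]
      · rcases le_or_gt q w with h4 | h4
        · rw [hf.2 _ w (Or.inr h4), h2 w (Or.inr h4)]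
        · rw [hf.1 _ w h3.le h4.le, h1 w h3.le h4.le]
  · rintro _ ⟨k, rfl⟩
    exact hfPL k
  · intro hB
    have hB' : Bal (Sb G p q) := fun G' hG' => hB G' fun g hg => (hG' hg).1
    exact GF.MainM.rb (Sb G p q) p q hpq hK hp hq hB' f hf hfPL

theorem brk (G Γ : Subgroup Hm) (p q : ℝ) (hPL : PLs G) (_ : PLs Γ) (hJ : RJ G p q Γ)
    (x : ℝ) (hx : BrO Γ x) : p < x ∧ x < q ∧ (∃ s ∈ Sb G p q, s x ≠ x) ∧
      ∃ s ∈ Sb G p q, er s x ≠ el s x := by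
  obtain ⟨⟨γ, hγ, hm⟩, γ', hγ', hb⟩ := hx
  obtain ⟨s, hs, h1, h2⟩ := (hJ γ).1 hγ
  obtain ⟨s', hs', h1', h2'⟩ := (hJ γ').1 hγ'
  have hp : p < x := by
    by_contra hc
    exact hm (h2 x (Or.inl (not_lt.1 hc)))
  have hq : x < q := by
    by_contra hc
    exact hm (h2 x (Or.inr (not_lt.1 hc)))
  refine ⟨hp, hq, ⟨s, hs, ?_⟩, s', hs', ?_⟩
  · rw [← h1 x hp.le hq.le]; exact hm
  · have e1 : er γ' x = er s' x := by
      obtain ⟨e, he⟩ := (hPL s' hs'.1).2.2.1 x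
      have h3 : HasR γ' x e := GF.RBM.hasR_congr hq
        (fun y hy1 hy2 => h1' y (hp.le.trans hy1) hy2) he
      rw [FINM.plb.erU _ _ _ he, FINM.plb.erU _ _ _ h3]
    have e2 : el γ' x = el s' x := by
      obtain ⟨e, he⟩ := (hPL s' hs'.1).2.2.2 x
      have h3 : HasL γ' x e := GF.RBM.hasL_congr hp
        (fun y hy1 hy2 => h1' y hy1 (hy2.trans hq.le)) he
      rw [FINM.plb.elU _ _ _ he, FINM.plb.elU _ _ _ h3]
    rw [← e1, ← e2]; exact hb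

/-- module RS -/
theorem specRS : SpecRS := ⟨ex, brk⟩

end FPT.RC.RSM
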