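import Pool.Agent.Lib.MP_c27bde_al.RC.Spec

/-!
MP_c27bde_al, RC, module ST1: strict descent, step (i).
-/

set_option autoImplicit false

namespace FPT.RC.ST1M

open Set FPT FPT.GF FPT.RC

/-- the complement of the translates of the moved points of the gap -/
def Zs (G : Subgroup Hm) (a b p q x : ℝ) : Prop :=
  a < x ∧ x < b ∧ ∀ g ∈ G, p < g x → g x < q → ∀ s ∈ Sb G p q, s (g x) = g x

theorem mem_ab {G : Subgroup Hm} {a b : ℝ} (ho : Orb G a b) {g : Hm} (hg : g ∈ G) {x : ℝ}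
    (h1 : a < x) (h2 : x < b) : a < g x ∧ g x < b := by
  have ha := ho.fa g hg
  have hb := ho.fb g hg
  constructor
  · calc a = g a := ha.symm
      _ < g x := g.lt_iff_lt.2 h1
  · calc g x < g b := g.lt_iff_lt.2 h2
      _ = b := hb

theorem zs_inv {G : Subgroup Hm} {a b p q x : ℝ} (ho : Orb G a b) {g : Hm} (hg : g ∈ G)
    (hx : Zs G a b p q x) : Zs G a b p q (g x) := by
  obtain ⟨h1, h2, h3⟩ := hx
  obtain ⟨h4, h5⟩ := mem_ab ho hg h1 h2
  refine ⟨h4, h5, fun h hh hp hq s hs => ?_⟩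
  exact h3 (h * g) (G.mul_mem hh hg) hp hq s hs

theorem zin {G : Subgroup Hm} {a b : ℝ} {Z : Set ℝ} (hS : Setg G a b Z) {p q : ℝ}
    (hg : Gap a b Z p q) {z : ℝ} (hz : z ∈ Z) {g : Hm} (hgG : g ∈ G) : ¬ (p < g z ∧ g z < q) :=
  hg.no _ (hS.inv g hgG z hz)

/-- the left end of an orbital of the stabilizer -/
theorem zs_left (hGP : SpecGP) {G : Subgroup Hm} {a b : ℝ} {Z : Set ℝ} (hS : Setg G a b Z)
    {p q : ℝ} (hg : Gap a b Z p q) {o : ℝ} (hao : a < o) (hob : o < b) (hpo : p ≤ o) (hoq : o < q)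
    (hfix : ∀ s ∈ Sb G p q, s o = o) : Zs G a b p q o := by
  refine ⟨hao, hob, fun h hh h1 h2 s hs => ?_⟩
  rcases hpo.lt_or_eq with hlt | heq
  · have hhS : h ∈ Sb G p q := hGP.st G a b Z hS p q hg h hh o hlt hoq h1 h2
    rw [hfix h hhS, hfix s hs]
  · exfalso
    rcases hg.pz with h3 | h3
    · exact absurd hao (by rw [← heq, h3]; exact lt_irrefl _)
    · rw [← heq] at h1 h2
      exact zin hS hg h3 hh ⟨h1, h2⟩

theorem step (hGP : SpecGP) (G : Subgroup Hm) (a b : ℝ) (Z : Set ℝ) (hS : Setg G a b Z) (p q : ℝ)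
    (hgap : Gap a b Z p q)
    (hW : ∀ x, a < x → x < b → (∃ g ∈ G, er g x ≠ el g x) →
      ∃ g ∈ G, p < g x ∧ g x < q ∧ ∃ s ∈ Sb G p q, s (g x) ≠ g x)
    (k : Hm) (hk : k ∈ G) (x : ℝ) (hax : a < x) (hxb : x < b)
    (hx : ∀ g ∈ G, p < g x → g x < q → ∀ s ∈ Sb G p q, s (g x) = g x)
    (hkx : k x = x) (hex : er k x ≠ 0) : er k a ≠ 0 := by
  have ho := hS.orb
  have hkpl : IsPL k := hS.pl k hk
  set E : Set ℝ := {y | a ≤ y ∧ y ≤ x ∧ k y = y ∧ er k y ≠ 0 ∧ (y = a ∨ Zs G a b p q y)} with hE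
  have hfin : E.Finite := (FINM.plb.fixR k hkpl).subset (fun y hy => ⟨hy.2.2.1, hy.2.2.2.1⟩)
  have hxE : x ∈ E := ⟨hax.le, le_rfl, hkx, hex, Or.inr ⟨hax, hxb, hx⟩⟩
  obtain ⟨c, hcE, hmin⟩ := Set.exists_min_image E id hfin ⟨x, hxE⟩
  obtain ⟨hac', hcx, hkc, hec, hc⟩ := hcE
  rcases hc with rfl | hcZ
  · exact hec
  exfalso
  obtain ⟨hac, hcb, hcfix⟩ := hcZ
  have hnb : er k c = el k c := by
    by_contra hne
    obtain ⟨g, hg, h1, h2, s, hs, h3⟩ := hW c hac hcb ⟨k, hk, hne⟩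
    exact h3 (hcfix g hg h1 h2 s hs)
  have hel : el k c ≠ 0 := by rw [← hnb]; exact hec
  have hmv : ∃ ε > 0, ∀ u, c - ε < u → u < c → k u ≠ u := by
    rcases lt_or_gt_of_ne hel with h | h
    · obtain ⟨ε, hε, h'⟩ := FINM.pl2.eln k c hkpl hkc h
      exact ⟨ε, hε, fun u h1 h2 => (h' u h1.le h2).ne'⟩
    · obtain ⟨ε, hε, h'⟩ := FINM.pl2.elp k c hkpl hkc h
      exact ⟨ε, hε, fun u h1 h2 => (h' u h1.le h2).ne⟩
  obtain ⟨r, har, hrc, hkr, hmr⟩ := FINM.ord.last k a c (ho.fa k hk) hac hmv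
  have her : er k r ≠ 0 := by
    intro h0
    obtain ⟨ε, hε, h'⟩ := FINM.pl2.er0 k r hkpl hkr h0
    have h1 : r < min (r + ε) ((r + c) / 2) := lt_min (by linarith) (by linarith)
    have h2 : min (r + ε) ((r + c) / 2) < c := lt_of_le_of_lt (min_le_right _ _) (by linarith)
    exact hmr _ h1 h2 (h' _ h1.le (min_le_left _ _))
  have hnE : ∀ y, y < c → y ∉ E := fun y hy hyE => absurd (hmin y hyE) (not_le.2 hy)
  have hra : r ≠ a := by
    rintro rfl
    exact hnE r hrc ⟨le_rfl, hrc.le.trans hcx, hkr, her, Or.inl rfl⟩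
  have har' : a < r := lt_of_le_of_ne har (Ne.symm hra)
  have hrb : r < b := hrc.trans hcb
  have hrZ : ¬ Zs G a b p q r := fun h => hnE r hrc ⟨har, hrc.le.trans hcx, hkr, her, Or.inr h⟩
  have hrZ' : ∃ g ∈ G, p < g r ∧ g r < q ∧ ∃ s ∈ Sb G p q, s (g r) ≠ g r := by
    by_contra hno
    apply hrZ
    refine ⟨har', hrb, fun g hg h1 h2 s hs => ?_⟩
    by_contra h3
    exact hno ⟨g, hg, h1, h2, s, hs, h3⟩
  obtain ⟨g, hg, hpg, hgq, s, hs, hsg⟩ := hrZ'
  have hgpl : IsPL g := hS.pl g hg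
  set k' : Hm := g * k * g⁻¹ with hk'
  have hk'G : k' ∈ G := G.mul_mem (G.mul_mem hg hk) (G.inv_mem hg)
  have hk'app : ∀ v, k' (g v) = g (k v) := by
    intro v
    show g (k (g⁻¹ (g v))) = g (k v)
    rw [RFM.apply_inv]
  have hk'r : k' (g r) = g r := by rw [hk'app, hkr]
  have hk'S : k' ∈ Sb G p q :=
    hGP.st G a b Z hS p q hgap k' hk'G (g r) hpg hgq (by rw [hk'r]; exact hpg)
      (by rw [hk'r]; exact hgq)
  have hSle : Sb G p q ≤ G := fun t ht => ht.1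
  have hSpl : PLs (Sb G p q) := fun t ht => hS.pl t ht.1
  obtain ⟨o, o', ho1, ho2, hfo, hfo', hmo⟩ := FINM.ord.orbital (Sb G p q) hSpl (g r) ⟨s, hs, hsg⟩
  have hpo : p ≤ o := by
    by_contra hlt
    obtain ⟨t, ht, hne⟩ := hmo p (not_le.1 hlt) (hpg.trans ho2)
    exact hne ht.2.1
  have ho'q : o' ≤ q := by
    by_contra hlt
    obtain ⟨t, ht, hne⟩ := hmo q (ho1.trans hgq) (not_le.1 hlt)
    exact hne ht.2.2
  have hgrc : g r < g c := g.lt_iff_lt.2 hrc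
  have ho'c : o' ≤ g c := by
    by_contra hlt
    rw [not_le] at hlt
    obtain ⟨t, ht, hne⟩ := hmo (g c) (ho1.trans hgrc) hlt
    exact hne (hcfix g hg (hpg.trans hgrc) (hlt.trans_le ho'q) t ht)
  have ho'eq : o' = g c := by
    rcases ho'c.lt_or_eq with hlt | heq
    · exfalso
      have h1 : r < g⁻¹ o' := by
        rw [← g.lt_iff_lt, RFM.inv_apply]; exact ho2
      have h2 : g⁻¹ o' < c := by
        rw [← g.lt_iff_lt, RFM.inv_apply]; exact hlt
      apply hmr _ h1 h2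
      have h3 : k' o' = o' := hfo' k' hk'S
      have h4 : k' (g (g⁻¹ o')) = g (k (g⁻¹ o')) := hk'app _
      rw [RFM.inv_apply, h3] at h4
      rw [← g.injective.eq_iff, ← h4, RFM.inv_apply]
    · exact heq
  have hel' : el k' o' ≠ 0 := by
    rw [ho'eq, hk', FINM.pl2.elC k g c hkpl hgpl hkc]
    exact hel
  have her' : er k' o ≠ 0 := by
    intro h0
    exact hel' (hS.bal (Sb G p q) hSle o o' (ho1.trans ho2) hfo hfo' hmo k' hk'S h0)
  set y : ℝ := g⁻¹ o with hy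
  have hgy : g y = o := RFM.inv_apply g o
  have hky : k y = y := by
    have h3 : k' o = o := hfo k' hk'S
    have h4 : k' (g y) = g (k y) := hk'app _
    rw [hgy, h3] at h4
    rw [← g.injective.eq_iff, ← h4, hgy]
  have hery : er k y ≠ 0 := by
    rw [← FINM.pl2.erC k g y hkpl hgpl hky, hgy]
    exact her'
  have hyr : y < r := by
    rw [← g.lt_iff_lt, hgy]; exact ho1
  have hay : a ≤ y := by
    rw [← g.le_iff_le, hgy, ho.fa g hg]
    exact hgap.ap.trans hpo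
  have hyZ : y = a ∨ Zs G a b p q y := by
    rcases (hgap.ap.trans hpo).lt_or_eq with hlt | heq
    · right
      have h1 : Zs G a b p q o :=
        zs_left hGP hS hgap hlt (ho1.trans (hgq.trans_le hgap.qb)) hpo (ho1.trans hgq) hfo
      exact zs_inv ho (G.inv_mem hg) h1
    · left
      rw [← g.injective.eq_iff, hgy, ho.fa g hg, ← heq]
  exact hnE y (hyr.trans hrc) ⟨hay, (hyr.trans hrc).le.trans hcx, hky, hery, hyZ⟩

theorem specST1 (hGP : SpecGP) : SpecST1 where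
  zin := fun _ _ _ _ hS _ _ hg _ hz _ hgG => zin hS hg hz hgG
  step := fun G a b Z hS p q hg hW k hk x hax hxb hx hkx hex =>
    step hGP G a b Z hS p q hg hW k hk x hax hxb hx hkx hex

end FPT.RC.ST1M
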