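import Pool.Agent.Lib.MP_c27bde_al.RC.Spec

/-!
MP_c27bde_al, RC, module STR (helper87): strict descent, steps (ii)-(iv).
-/

set_option autoImplicit false

namespace FPT.RC.STRM

open Set FPT FPT.GF FPT.RC

/-- the set `Z*` -/
def Zs (G : Subgroup Hm) (a b p q : ℝ) : Set ℝ :=
  {x | a < x ∧ x < b ∧ ∀ g ∈ G, p < g x → g x < q → ∀ s ∈ Sb G p q, s (g x) = g x}

theorem zs_inv {G : Subgroup Hm} {a b p q : ℝ} (ho : Orb G a b) {k : Hm} (hk : k ∈ G) {x : ℝ}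
    (hx : x ∈ Zs G a b p q) : k x ∈ Zs G a b p q := by
  obtain ⟨h1, h2, h3⟩ := hx
  refine ⟨?_, ?_, ?_⟩
  · have := k.lt_iff_lt.2 h1
    rwa [ho.fa k hk] at this
  · have := k.lt_iff_lt.2 h2
    rwa [ho.fb k hk] at this
  · intro g hg h4 h5 s hs
    exact h3 (g * k) (G.mul_mem hg hk) h4 h5 s hs

/-- `Z*` is closed in `(a,b)` -/
theorem zs_closed {G : Subgroup Hm} {a b p q : ℝ} {c : ℝ} (h1 : a < c) (h2 : c < b)
    (h3 : c ∉ Zs G a b p q) : ∃ ε > 0, ∀ y, |y - c| < ε → y ∉ Zs G a b p q := by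
  have h4 : ∃ g ∈ G, p < g c ∧ g c < q ∧ ∃ s ∈ Sb G p q, s (g c) ≠ g c := by
    by_contra hcon
    push Not at hcon
    exact h3 ⟨h1, h2, fun g hg h5 h6 s hs => hcon g hg h5 h6 s hs⟩
  obtain ⟨g, hg, h5, h6, s, hs, h7⟩ := h4
  have hU : IsOpen {y : ℝ | p < g y ∧ g y < q ∧ s (g y) ≠ g y} := by
    have e1 : IsOpen {y : ℝ | p < g y} := isOpen_lt continuous_const g.continuous
    have e2 : IsOpen {y : ℝ | g y < q} := isOpen_lt g.continuous continuous_const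
    have e3 : IsOpen {y : ℝ | s (g y) ≠ g y} :=
      isOpen_ne_fun (s.continuous.comp g.continuous) g.continuous
    exact e1.inter (e2.inter e3)
  obtain ⟨ε, hε, hball⟩ := Metric.isOpen_iff.1 hU c ⟨h5, h6, h7⟩
  refine ⟨ε, hε, fun y hy hyz => ?_⟩
  have h8 : y ∈ Metric.ball c ε := by rw [Metric.mem_ball, Real.dist_eq]; exact hy
  obtain ⟨h9, h10, h11⟩ := hball h8
  exact h11 (hyz.2.2 g hg h9 h10 s hs)

/-- step (ii) -/
theorem step2 {G : Subgroup Hm} {a b : ℝ} {Z : Set ℝ} (hS : Setg G a b Z) {p q : ℝ}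
    (hst : ∀ k ∈ G, ∀ x, a < x → x < b →
      (∀ g ∈ G, p < g x → g x < q → ∀ s ∈ Sb G p q, s (g x) = g x) →
      k x = x → er k x ≠ 0 → er k a ≠ 0)
    {k : Hm} (hk : k ∈ G) (h0 : er k a = 0) {z : ℝ} (hz : z ∈ Zs G a b p q) : k z = z := by
  by_contra hne
  obtain ⟨D, hD⟩ : ∃ D : Set ℝ, D = {y | y ∈ Zs G a b p q ∧ k y ≠ y} := ⟨_, rfl⟩
  have hzD : z ∈ D := by rw [hD]; exact ⟨hz, hne⟩
  have hDb : BddBelow D := ⟨a, by rw [hD]; rintro y ⟨hy, -⟩; exact hy.1.le⟩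
  have hpl := hS.pl k hk
  obtain ⟨ε, hε, he⟩ := FINM.pl2.er0 k a hpl (hS.orb.fa k hk) h0
  have hlow : ∀ y ∈ D, a + ε ≤ y := by
    rw [hD]
    rintro y ⟨hy, hy2⟩
    by_contra hlt
    push Not at hlt
    exact hy2 (he y hy.1.le hlt.le)
  have hc1 : a + ε ≤ sInf D := le_csInf ⟨z, hzD⟩ hlow
  have hc2 : sInf D ≤ z := csInf_le hDb hzD
  obtain ⟨c, hc⟩ : ∃ c, c = sInf D := ⟨_, rfl⟩
  rw [← hc] at hc1 hc2
  have hac : a < c := by linarith
  have hcb : c < b := hc2.trans_lt hz.2.1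
  have hnear : ∀ δ > 0, ∃ y ∈ D, c ≤ y ∧ y < c + δ := by
    intro δ hδ
    obtain ⟨y, hy, hy2⟩ := exists_lt_of_csInf_lt ⟨z, hzD⟩ (show sInf D < c + δ by rw [← hc]; linarith)
    exact ⟨y, hy, by rw [hc]; exact csInf_le hDb hy, hy2⟩
  have hcZ : c ∈ Zs G a b p q := by
    by_contra hcon
    obtain ⟨δ, hδ, hd⟩ := zs_closed hac hcb hcon
    obtain ⟨y, hy, hy1, hy2⟩ := hnear δ hδ
    refine hd y ?_ ?_
    · rw [abs_of_nonneg (by linarith)]; linarith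
    · rw [hD] at hy; exact hy.1
  have hkc : k c = c := by
    by_contra hkc
    have h1 : k c ∈ D := by
      rw [hD]
      exact ⟨zs_inv hS.orb hk hcZ, fun h => hkc (k.injective h)⟩
    have h2 : k⁻¹ c ∈ D := by
      rw [hD]
      refine ⟨zs_inv hS.orb (G.inv_mem hk) hcZ, fun h => ?_⟩
      rw [RFM.inv_apply] at h
      apply hkc
      conv_lhs => rw [h]
      rw [RFM.inv_apply]
    have h3 : c ≤ k c := by
      have := csInf_le hDb h1
      rwa [← hc] at this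
    have h4 : c ≤ k⁻¹ c := by
      have := csInf_le hDb h2
      rwa [← hc] at this
    have h5 : k c ≤ c := by
      have := k.le_iff_le.2 h4
      rwa [RFM.inv_apply] at this
    exact hkc (le_antisymm h5 h3)
  have her : er k c ≠ 0 := by
    intro h
    obtain ⟨δ, hδ, hd⟩ := FINM.pl2.er0 k c hpl hkc h
    obtain ⟨y, hy, hy1, hy2⟩ := hnear δ hδ
    rw [hD] at hy
    exact hy.2 (hd y hy1 hy2.le)
  exact hst k hk c hac hcb hcZ.2.2 hkc her h0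

/-- elements of `Z` are in `Z*` -/
theorem zsub {G : Subgroup Hm} {a b : ℝ} {Z : Set ℝ} (hST1 : SpecST1) (hS : Setg G a b Z)
    {p q : ℝ} (hG : Gap a b Z p q) {z : ℝ} (hz : z ∈ Z) : z ∈ Zs G a b p q :=
  ⟨(hS.sub z hz).1, (hS.sub z hz).2, fun g hg h1 h2 =>
    absurd ⟨h1, h2⟩ (hST1.zin G a b Z hS p q hG z hz g hg)⟩

/-- step (iii) -/
theorem step3 {G : Subgroup Hm} {a b : ℝ} {Z : Set ℝ} (hGP : SpecGP) (hST1 : SpecST1)
    (hS : Setg G a b Z) {p q : ℝ} (hG : Gap a b Z p q)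
    (hst : ∀ k ∈ G, ∀ x, a < x → x < b →
      (∀ g ∈ G, p < g x → g x < q → ∀ s ∈ Sb G p q, s (g x) = g x) →
      k x = x → er k x ≠ 0 → er k a ≠ 0)
    {s : Hm} (hs : s ∈ Sb G p q) : er s a = 0 := by
  by_contra hn
  obtain ⟨c, hcZ, hsc⟩ : ∃ c ∈ Z, s c = c := by
    rcases hGP.ne G a b Z hS p q hG with h | h
    · exact ⟨p, h.2, hs.2.1⟩
    · exact ⟨q, h.2, hs.2.2⟩
  have hcs := zsub hST1 hS hG hcZ
  obtain ⟨g, hg, hgc⟩ := hS.orb.mv c hcs.1 hcs.2.1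
  apply hgc
  have hgpl := hS.pl g hg
  have hspl := hS.pl s hs.1
  have hga := hS.orb.fa g hg
  have hsa := hS.orb.fa s hs.1
  have hk : g ^ (er s a) * s ^ (-(er g a)) ∈ G :=
    G.mul_mem (G.zpow_mem hg _) (G.zpow_mem hs.1 _)
  have h0 : er (g ^ (er s a) * s ^ (-(er g a))) a = 0 := by
    rw [FINM.plb.erM _ _ _ (FINM.pl2.zpow g _ hgpl) (FINM.pl2.zpow s _ hspl),
      FINM.ord.zpowf s _ a hsa, FINM.pl2.erZ g _ a hgpl hga, FINM.pl2.erZ s _ a hspl hsa]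
    ring
  have h1 := step2 hS hst hk h0 hcs
  rw [RelIso.mul_apply, FINM.ord.zpowf s _ c hsc] at h1
  exact FINM.ord.zpowi g _ c hn h1

theorem specSTR (hLIN : SpecLIN) (hGP : SpecGP) (hST1 : SpecST1) : SpecSTR := by
  intro G a b Z hS p q Γ hG hRJ hfg
  by_contra hcon
  push Not at hcon
  have hW : ∀ x, a < x → x < b → (∃ g ∈ G, er g x ≠ el g x) →
      ∃ g ∈ G, p < g x ∧ g x < q ∧ ∃ s ∈ Sb G p q, s (g x) ≠ g x := by
    rintro x h1 h2 ⟨g, hg, h3⟩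
    obtain ⟨g', h4, h5, h6, s, h7, h8⟩ := hcon x h1 h2 ⟨g, hg, h3⟩
    exact ⟨g', h4, h5, h6, s, h7, h8⟩
  have hst := hST1.step G a b Z hS p q hG hW
  have hiii : ∀ s ∈ Sb G p q, er s a = 0 := fun s hs => step3 hGP hST1 hS hG hst hs
  have hab := hS.orb.lt
  -- some `t` with `er t a ≠ 0`
  obtain ⟨t, ht, hta⟩ : ∃ t ∈ G, er t a ≠ 0 := by
    by_contra hno
    push Not at hno
    obtain ⟨X0, hX0, hXf⟩ := (Subgroup.fg_iff G).1 hS.fg
    have hall : ∀ x ∈ X0, ∃ ε > 0, ∀ y, a ≤ y → y ≤ a + ε → x y = y := by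
      intro x hx
      have hxG : x ∈ G := by rw [← hX0]; exact Subgroup.subset_closure hx
      exact FINM.pl2.er0 x a (hS.pl x hxG) (hS.orb.fa x hxG) (hno x hxG)
    obtain ⟨ε, hε, hfix⟩ := RDM.common_eps X0 hXf a hall
    set u := a + min ε ((b - a) / 2) with hu
    have hm0 : 0 < min ε ((b - a) / 2) := lt_min hε (by linarith)
    have hm1 := min_le_left ε ((b - a) / 2)
    have hm2 := min_le_right ε ((b - a) / 2)
    obtain ⟨g, hg, hgu⟩ := hS.orb.mv u (by linarith) (by linarith)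
    rw [← hX0] at hg
    exact hgu (RDM.fix_closure X0 u (fun x hx => hfix x hx u (by linarith) (by linarith)) g hg)
  have htpl := hS.pl t ht
  obtain ⟨x, hx1, hx2, hx3⟩ : ∃ x, a < x ∧ x < b ∧ t x ≠ x := by
    by_contra hno
    push Not at hno
    apply hta
    apply FINM.pl2.er0'
    refine ⟨(b - a) / 2, by linarith, fun y h1 h2 => ?_⟩
    rcases eq_or_lt_of_le h1 with h3 | h3
    · rw [← h3]; exact hS.orb.fa t ht
    · exact hno y h3 (by linarith)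
  obtain ⟨y, hy1, hy2, hy3⟩ := hLIN.brk t htpl a b (hS.orb.fa t ht) (hS.orb.fb t ht) x hx1 hx2 hx3
  obtain ⟨g0, hg0, hp0, hq0, s0, hs0, hmv0⟩ := hW y hy1 hy2 ⟨t, ht, hy3⟩
  obtain ⟨y', hy'⟩ : ∃ y', y' = g0 y := ⟨_, rfl⟩
  rw [← hy'] at hp0 hq0 hmv0
  have hSpl : PLs (Sb G p q) := fun g hg => hS.pl g hg.1
  obtain ⟨o, o', ho1, ho2, hfo, hfo', hmo⟩ := FINM.ord.orbital (Sb G p q) hSpl y' ⟨s0, hs0, hmv0⟩
  have hpo : p ≤ o := by
    by_contra hlt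
    push Not at hlt
    obtain ⟨s, hs, hsm⟩ := hmo p hlt (hp0.trans ho2)
    exact hsm hs.2.1
  have hoq : o' ≤ q := by
    by_contra hlt
    push Not at hlt
    obtain ⟨s, hs, hsm⟩ := hmo q (ho1.trans hq0) hlt
    exact hsm hs.2.2
  -- some `s ∈ Sb` with `er s o ≠ 0`
  obtain ⟨s, hs, hso⟩ : ∃ s ∈ Sb G p q, er s o ≠ 0 := by
    by_contra hno
    push Not at hno
    obtain ⟨T, hT, hTf⟩ := (Subgroup.fg_iff Γ).1 hfg
    have hall : ∀ γ ∈ T, ∃ ε > 0, ∀ w, o ≤ w → w ≤ o + ε → γ w = w := by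
      intro γ hγ
      have hγΓ : γ ∈ Γ := by rw [← hT]; exact Subgroup.subset_closure hγ
      obtain ⟨s, hs, h1, h2⟩ := (hRJ γ).1 hγΓ
      obtain ⟨ε, hε, he⟩ := FINM.pl2.er0 s o (hSpl s hs) (hfo s hs) (hno s hs)
      refine ⟨ε, hε, fun w hw1 hw2 => ?_⟩
      by_cases hwq : w ≤ q
      · rw [h1 w (hpo.trans hw1) hwq]
        exact he w hw1 hw2
      · exact h2 w (Or.inr (not_le.1 hwq).le)
    obtain ⟨ε, hε, hfix⟩ := RDM.common_eps T hTf o hall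
    set u := o + min ε ((o' - o) / 2) with hu
    have hoo : o < o' := ho1.trans ho2
    have hm0 : 0 < min ε ((o' - o) / 2) := lt_min hε (by linarith)
    have hm1 := min_le_left ε ((o' - o) / 2)
    have hm2 := min_le_right ε ((o' - o) / 2)
    obtain ⟨s, hs, hsu⟩ := hmo u (by linarith) (by linarith)
    obtain ⟨f, hf, -⟩ := GF.MainM.ra (Sb G p q) p q hG.pq hSpl (fun g hg => hg.2.1)
      (fun g hg => hg.2.2)
    have hfs : f ⟨s, hs⟩ ∈ Γ := (hRJ _).2 ⟨s, hs, fun w h1 h2 => hf.1 ⟨s, hs⟩ w h1 h2,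
      fun w hw => hf.2 ⟨s, hs⟩ w hw⟩
    have h3 : f ⟨s, hs⟩ u = u := by
      rw [← hT] at hfs
      exact RDM.fix_closure T u (fun x hx => hfix x hx u (by linarith) (by linarith)) _ hfs
    have h4 := hf.1 ⟨s, hs⟩ u (by linarith) (by linarith)
    rw [h3] at h4
    exact hsu h4.symm
  -- `o = a` or `o ∈ Z*`
  rcases eq_or_lt_of_le (hG.ap.trans hpo) with hao | hao
  · apply hso
    rw [← hao]
    exact hiii s hs
  · have hob : o < b := ho1.trans (hq0.trans_le hG.qb)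
    refine hst s hs.1 o hao hob ?_ (hfo s hs) hso (hiii s hs)
    intro g hg h1 h2 s' hs'
    rcases eq_or_lt_of_le hpo with h3 | h3
    · exfalso
      rcases hG.pz with h4 | h4
      · rw [← h3, h4] at hao
        exact lt_irrefl _ hao
      · rw [← h3] at h1 h2
        exact hST1.zin G a b Z hS p q hG p h4 g hg ⟨h1, h2⟩
    · have hgS : g ∈ Sb G p q := hGP.st G a b Z hS p q hG g hg o h3 (ho1.trans hq0) h1 h2
      rw [hfo g hgS]
      exact hfo s' hs'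

end FPT.RC.STRM
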