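import Pool.Agent.Lib.MP_c27bde_al.RC.Spec

/-!
MP_c27bde_al, RC, module SYS (helper87): normal systems with factors in a class.
-/

set_option autoImplicit false

namespace FPT.RC.SYSM

open Set FPT FPT.GF FPT.RC

/-- surjective images -/
theorem surj {C : (G : Type) → [Group G] → Prop} (hC : Cls C) {X Y : Type} [Group X] [Group Y]
    (f : X →* Y) (hf : Function.Surjective f) (h : C X) : C Y :=
  hC.iso _ _ (QuotientGroup.quotientKerEquivOfSurjective f hf) (hC.quo X f.ker h)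

/-- if `ker χ ≤ ker ψ` then the range of `ψ` is in the class if the target of `χ` is -/
theorem range_of_ker {C : (G : Type) → [Group G] → Prop} (hC : Cls C) {X P P' : Type} [Group X]
    [Group P] [Group P'] (χ : X →* P) (ψ : X →* P') (hk : χ.ker ≤ ψ.ker) (h : C P) :
    C ↥ψ.range := by
  have h1 : C ↥χ.range := hC.sub P χ.range h
  have h2 : C (X ⧸ χ.ker) := hC.iso _ _ (QuotientGroup.quotientKerEquivRange χ).symm h1
  have hk' : χ.ker ≤ ψ.rangeRestrict.ker := by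
    rw [MonoidHom.ker_rangeRestrict]; exact hk
  refine surj hC (QuotientGroup.lift χ.ker ψ.rangeRestrict hk') ?_ h2
  rintro ⟨_, x, rfl⟩
  exact ⟨(x : X ⧸ χ.ker), rfl⟩

/-- extension: `C (L/N0)`, and `N0 → L/K` has range in `C` -/
theorem quot_ext {C : (G : Type) → [Group G] → Prop} (hC : Cls C) (hQU : SpecQU) {L : Type}
    [Group L] (N0 K : Subgroup L) [N0.Normal] [K.Normal] (hle : K ≤ N0) (h0 : C (L ⧸ N0))
    (h1 : C ↥((QuotientGroup.mk' K).comp N0.subtype).range) : C (L ⧸ K) := by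
  have hl : K ≤ (QuotientGroup.mk' N0).ker := by rw [QuotientGroup.ker_mk']; exact hle
  have hker : (QuotientGroup.lift K (QuotientGroup.mk' N0) hl).ker =
      ((QuotientGroup.mk' K).comp N0.subtype).range := by
    ext y
    obtain ⟨x, rfl⟩ := QuotientGroup.mk'_surjective K y
    rw [MonoidHom.mem_ker, MonoidHom.mem_range]
    constructor
    · intro h
      have h2 : (QuotientGroup.mk' N0) x = 1 := h
      have h3 : x ∈ N0 := by
        rw [← MonoidHom.mem_ker, QuotientGroup.ker_mk'] at h2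
        exact h2
      exact ⟨⟨x, h3⟩, rfl⟩
    · rintro ⟨z, hz⟩
      rw [← hz]
      have h3 : (QuotientGroup.mk' N0) z.1 = 1 := by
        rw [← MonoidHom.mem_ker, QuotientGroup.ker_mk']
        exact z.2
      exact h3
  refine hQU.ker C hC (L ⧸ K) (L ⧸ N0) (QuotientGroup.lift K (QuotientGroup.mk' N0) hl) h0 ?_
  rw [hker]
  exact h1

/-- metabelian case -/
theorem range_met {C : (G : Type) → [Group G] → Prop} (hC : Cls C) (hQU : SpecQU) {L : Type}
    [Group L] (N0 K : Subgroup L) [K.Normal] (hle : ⁅⁅N0, N0⁆, ⁅N0, N0⁆⁆ ≤ K) :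
    C ↥((QuotientGroup.mk' K).comp N0.subtype).range := by
  set ψ : ↥N0 →* L ⧸ K := (QuotientGroup.mk' K).comp N0.subtype with hψ
  apply hQU.met C hC
  have hs : Function.Surjective ψ.rangeRestrict := ψ.rangeRestrict_surjective
  rw [← map_derivedSeries_eq hs 2, eq_bot_iff, Subgroup.map_le_iff_le_comap]
  intro x hx
  rw [Subgroup.mem_comap, Subgroup.mem_bot, ← MonoidHom.mem_ker, MonoidHom.ker_rangeRestrict,
    MonoidHom.mem_ker]
  have h1 : derivedSeries ↥N0 2 = ⁅⁅(⊤ : Subgroup ↥N0), (⊤ : Subgroup ↥N0)⁆,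
      ⁅(⊤ : Subgroup ↥N0), (⊤ : Subgroup ↥N0)⁆⁆ := by
    simp [derivedSeries]
  have h2 : x.1 ∈ (derivedSeries ↥N0 2).map N0.subtype := ⟨x, hx, rfl⟩
  rw [h1, Subgroup.map_commutator, Subgroup.map_commutator, ← MonoidHom.range_eq_map,
    Subgroup.range_subtype] at h2
  have h3 : x.1 ∈ K := hle h2
  show (QuotientGroup.mk' K) x.1 = 1
  rw [← MonoidHom.mem_ker, QuotientGroup.ker_mk']
  exact h3

/-- the set of points fixed by the elements of `N` -/
def Fi {G : Subgroup Hm} (N : Subgroup ↥G) : Set ℝ := {x | ∀ n ∈ N, n.1 x = x}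

theorem Fi_closed {G : Subgroup Hm} (N : Subgroup ↥G) : IsClosed (Fi N) := by
  have : Fi N = ⋂ n ∈ N, {x | n.1 x = x} := by
    ext x; simp [Fi]
  rw [this]
  exact isClosed_biInter fun n _ => isClosed_eq n.1.continuous continuous_id

theorem Fi_inv {G : Subgroup Hm} (N : Subgroup ↥G) (hN : N.Normal) : Inv G (Fi N) := by
  intro g hg z hz n hn
  have h1 := hN.conj_mem n hn (⟨g, hg⟩ : ↥G)⁻¹
  have h2 := hz _ h1
  have h3 : g⁻¹ (n.1 (g z)) = z := by
    have : (((⟨g, hg⟩ : ↥G)⁻¹ * n * ((⟨g, hg⟩ : ↥G)⁻¹)⁻¹ : ↥G) : Hm) = g⁻¹ * n.1 * g := by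
      simp
    rw [this] at h2
    exact h2
  have h4 := congrArg g h3
  rwa [RFM.inv_apply] at h4

theorem Fi_anti {G : Subgroup Hm} {N N' : Subgroup ↥G} (h : N ≤ N') : Fi N' ⊆ Fi N :=
  fun _ hx n hn => hx n (h hn)

theorem specSYS (hB0 : SpecB0) (hQU : SpecQU) (hACC : SpecACC) (hDSP : SpecDSP)
    (hLST : SpecLST) : SpecSYS := by
  intro C hC G hpl hbal hfg S hS
  obtain ⟨N0, hN0, hCN0, hleast⟩ := hLST C hC G hpl hbal hfg
  by_cases hbot : N0 = ⊥
  · subst hbot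
    exact hC.iso _ _ QuotientGroup.quotientBot hCN0
  exfalso
  have hT1ne : (⊥ : Subgroup ↥G) ∈ {N ∈ S | ¬ N0 ≤ N} := ⟨hS.bot, fun h => hbot (le_bot_iff.1 h)⟩
  have hT2ne : (⊤ : Subgroup ↥G) ∈ {N ∈ S | N0 ≤ N} := ⟨hS.top, le_top⟩
  set A : Subgroup ↥G := sSup {N ∈ S | ¬ N0 ≤ N} with hA
  set B : Subgroup ↥G := sInf {N ∈ S | N0 ≤ N} with hB
  have hAS : A ∈ S := hS.sup _ (fun N hN => hN.1) ⟨_, hT1ne⟩
  have hBS : B ∈ S := hS.inf _ (fun N hN => hN.1) ⟨_, hT2ne⟩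
  have hN0B : N0 ≤ B := le_sInf fun N hN => hN.2
  have hAn : A.Normal := hS.nor A hAS
  by_cases hcase : N0 ≤ A
  · -- Case 2
    obtain ⟨n, hn⟩ := hB0.ex G hpl hfg
    have hch : ∀ N ∈ {N ∈ S | ¬ N0 ≤ N}, ∀ N' ∈ {N ∈ S | ¬ N0 ≤ N}, N ≤ N' ∨ N' ≤ N :=
      fun N hN N' hN' => hS.chain N hN.1 N' hN'.1
    have hnor : ∀ N ∈ {N ∈ S | ¬ N0 ≤ N}, (N ⊓ N0).Normal := fun N hN =>
      haveI := hS.nor N hN.1
      Subgroup.normal_inf_normal N N0
    obtain ⟨Z, hZ, hfix⟩ := hACC n G hpl hbal hfg hn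
      ((fun N => Fi (N ⊓ N0)) '' {N ∈ S | ¬ N0 ≤ N}) ⟨_, mem_image_of_mem _ hT1ne⟩
      (by
        rintro _ ⟨N, hN, rfl⟩
        exact ⟨Fi_closed _, Fi_inv _ (hnor N hN)⟩)
      (by
        rintro _ ⟨N, hN, rfl⟩ _ ⟨N', hN', rfl⟩
        rcases hch N hN N' hN' with h | h
        · exact Or.inr (Fi_anti (inf_le_inf_right _ h))
        · exact Or.inl (Fi_anti (inf_le_inf_right _ h)))
    obtain ⟨N, hN, rfl⟩ := hZ
    have hKn : (N ⊓ N0).Normal := hnor N hN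
    have hdir : DirectedOn (· ≤ ·) {N ∈ S | ¬ N0 ≤ N} := by
      intro N1 h1 N2 h2
      rcases hch N1 h1 N2 h2 with h | h
      · exact ⟨N2, h2, h, le_rfl⟩
      · exact ⟨N1, h1, le_rfl, h⟩
    have hd : ⁅⁅N0, N0⁆, ⁅N0, N0⁆⁆ ≤ N ⊓ N0 := by
      refine hDSP G hpl (N ⊓ N0) N0 hKn ?_
      intro x hx m hm
      refine hfix m.1 m.2 ?_ x hx
      intro z hz
      have hmA : m ∈ sSup {N ∈ S | ¬ N0 ≤ N} := hcase hm
      rw [Subgroup.mem_sSup_of_directedOn ⟨_, hT1ne⟩ hdir] at hmA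
      obtain ⟨N', hN', hmN'⟩ := hmA
      exact hz (Fi (N' ⊓ N0)) ⟨N', hN', rfl⟩ m ⟨hmN', hm⟩
    have hCK : C (↥G ⧸ (N ⊓ N0)) :=
      quot_ext hC hQU N0 (N ⊓ N0) inf_le_right hCN0 (range_met hC hQU N0 (N ⊓ N0) hd)
    exact hN.2 ((hleast (N ⊓ N0) hKn hCK).trans inf_le_left)
  · -- Case 1
    have hAB : A ≤ B := by
      rcases hS.chain A hAS B hBS with h | h
      · exact h
      · exact absurd (hN0B.trans h) hcase
    have hABlt : A < B := lt_of_le_of_ne hAB (fun h => hcase (h ▸ hN0B))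
    have hfac := hS.fac A hAS B hBS hABlt (by
      intro D hD h1 h2
      by_cases h3 : N0 ≤ D
      · exact Or.inr (le_antisymm h2 (sInf_le ⟨hD, h3⟩))
      · exact Or.inl (le_antisymm (le_sSup ⟨hD, h3⟩) h1)) (Subgroup.Normal.subgroupOf hAn B)
    have : (A.subgroupOf B).Normal := Subgroup.Normal.subgroupOf hAn B
    have hKn : (N0 ⊓ A).Normal := Subgroup.normal_inf_normal N0 A
    have hCr : C ↥((QuotientGroup.mk' (N0 ⊓ A)).comp N0.subtype).range := by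
      refine range_of_ker hC ((QuotientGroup.mk' (A.subgroupOf B)).comp (Subgroup.inclusion hN0B))
        _ ?_ hfac
      intro x hx
      rw [MonoidHom.mem_ker] at hx ⊢
      have h1 : (Subgroup.inclusion hN0B x) ∈ A.subgroupOf B := by
        have h2 : (QuotientGroup.mk' (A.subgroupOf B)) (Subgroup.inclusion hN0B x) = 1 := hx
        rwa [← MonoidHom.mem_ker, QuotientGroup.ker_mk'] at h2
      have h3 : x.1 ∈ A := h1
      show (QuotientGroup.mk' (N0 ⊓ A)) x.1 = 1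
      rw [← MonoidHom.mem_ker, QuotientGroup.ker_mk']
      exact ⟨x.2, h3⟩
    have hCK : C (↥G ⧸ (N0 ⊓ A)) := quot_ext hC hQU N0 (N0 ⊓ A) inf_le_left hCN0 hCr
    exact hcase ((hleast (N0 ⊓ A) hKn hCK).trans inf_le_right)

end FPT.RC.SYSM
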