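import Pool.Agent.Lib.MP_c27bde_al.RC.FN
import Pool.Agent.Lib.MP_c27bde_al.RC.LIN
import Pool.Agent.Lib.MP_c27bde_al.RC.GP
import Pool.Agent.Lib.MP_c27bde_al.RC.RS
import Pool.Agent.Lib.MP_c27bde_al.RC.FGJ
import Pool.Agent.Lib.MP_c27bde_al.RC.GO
import Pool.Agent.Lib.MP_c27bde_al.RC.ST1
import Pool.Agent.Lib.MP_c27bde_al.RC.STR
import Pool.Agent.Lib.MP_c27bde_al.RC.BJ
import Pool.Agent.Lib.MP_c27bde_al.RC.B0
import Pool.Agent.Lib.MP_c27bde_al.RC.OF
import Pool.Agent.Lib.MP_c27bde_al.RC.QU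
import Pool.Agent.Lib.MP_c27bde_al.RC.QJ
import Pool.Agent.Lib.MP_c27bde_al.RC.PW
import Pool.Agent.Lib.MP_c27bde_al.RC.IND
import Pool.Agent.Lib.MP_c27bde_al.RC.CPT
import Pool.Agent.Lib.MP_c27bde_al.RC.ACC
import Pool.Agent.Lib.MP_c27bde_al.RC.DSP
import Pool.Agent.Lib.MP_c27bde_al.RC.LST
import Pool.Agent.Lib.MP_c27bde_al.RC.SYS
import Pool.Agent.Lib.MP_c27bde_al.RC.NOF
import Pool.Agent.Lib.MP_c27bde_al.RC.CLA

/-!
MP_c27bde_al, RC: all modules closed.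
-/

set_option autoImplicit false

namespace FPT.RC.MainM

open Set FPT FPT.GF FPT.RC

theorem lin : SpecLIN := LINM.specLIN
theorem gp : SpecGP := GPM.specGP
theorem rs : SpecRS := RSM.specRS
theorem fgj : SpecFGJ := FGJM.specFGJ lin gp
theorem go : SpecGO := GOM.specGO lin gp
theorem st1 : SpecST1 := ST1M.specST1 gp
theorem str : SpecSTR := STRM.specSTR lin gp st1
theorem bj : SpecBJ := BJM.specBJ gp rs str
theorem b0 : SpecB0 := B0M.specB0 lin
theorem orf : SpecOF := OFM.specOF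
theorem qu : SpecQU := QUM.specQU
theorem qj : SpecQJ := QJM.specQJ
theorem pw : SpecPW := PWM.specPW lin gp rs go qu
theorem ind : SpecIND := INDM.specIND gp rs fgj bj b0 orf qu qj pw
theorem cpt : SpecCPT := CPTM.specCPT
theorem acc : SpecACC := ACCM.specACC gp rs fgj go bj b0 orf cpt
theorem dsp : SpecDSP := DSPM.specDSP
theorem lst : SpecLST := LSTM.specLST b0 qu ind dsp
theorem sys : SpecSYS := SYSM.specSYS b0 qu acc dsp lst
theorem nof : SpecNOF := NOFM.specNOF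
theorem cla : SpecCLA := CLAM.specCLA

end FPT.RC.MainM
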