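import Pool.Agent.Lib.MP_c27bde_al.RC.Spec

/-!
MP_c27bde_al, RC: module QU (closure properties of classes and of `Q`).
-/

open Set
open scoped commutatorElement

namespace FPT.RC.QUM

/-- the kernel form of extensions -/
lemma ker_aux (C : (G : Type) → [Group G] → Prop) (hC : Cls C) (L A : Type) [Group L] [Group A]
    (f : L →* A) (hA : C A) (hk : C ↥f.ker) : C L := by
  refine hC.ext L f.ker hk ?_
  exact hC.iso _ _ (QuotientGroup.quotientKerEquivRange f).symm (hC.sub A f.range hA)

/-- subgroups up to isomorphism -/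
lemma inj_aux (C : (G : Type) → [Group G] → Prop) (hC : Cls C) (L A : Type) [Group L] [Group A]
    (f : L →* A) (hf : Function.Injective f) (hA : C A) : C L :=
  hC.iso _ _ (MonoidHom.ofInjective hf).symm (hC.sub A f.range hA)

lemma prod_aux (C : (G : Type) → [Group G] → Prop) (hC : Cls C) (A A' : Type) [Group A] [Group A']
    (hA : C A) (hA' : C A') : C (A × A') := by
  refine ker_aux C hC (A × A') A' (MonoidHom.snd A A') hA' ?_
  refine inj_aux C hC _ A ((MonoidHom.fst A A').comp (MonoidHom.snd A A').ker.subtype) ?_ hA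
  intro x y hxy
  have hx : x.1.2 = 1 := x.2
  have hy : y.1.2 = 1 := y.2
  have h1 : x.1.1 = y.1.1 := hxy
  apply Subtype.ext
  exact Prod.ext h1 (hx.trans hy.symm)

lemma fix_aux (C : (G : Type) → [Group G] → Prop) (hC : Cls C) (G : Subgroup Hm) (Z : Set ℝ)
    (h : ∀ g ∈ G, ∀ z ∈ Z, g z = z) : Q C G Z :=
  ⟨PUnit, inferInstance, 1, hC.ab PUnit (fun _ _ => rfl), fun g _ z hz => h g.1 g.2 z hz⟩

lemma union_aux (C : (G : Type) → [Group G] → Prop) (hC : Cls C) (G : Subgroup Hm) (Z Z' : Set ℝ)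
    (h : Q C G Z) (h' : Q C G Z') : Q C G (Z ∪ Z') := by
  obtain ⟨A, iA, f, hA, hf⟩ := h
  obtain ⟨A', iA', f', hA', hf'⟩ := h'
  refine ⟨A × A', inferInstance, f.prod f', prod_aux C hC A A' hA hA', ?_⟩
  intro g hg z hz
  have h1 : f g = 1 ∧ f' g = 1 := by
    rw [MonoidHom.prod_apply] at hg
    exact Prod.mk.inj hg
  rcases hz with hz | hz
  · exact hf g h1.1 z hz
  · exact hf' g h1.2 z hz

lemma fin_aux (C : (G : Type) → [Group G] → Prop) (hC : Cls C) (G : Subgroup Hm)
    (F : Set (Set ℝ)) (hF : F.Finite) (h : ∀ W ∈ F, Q C G W) : Q C G (⋃₀ F) := by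
  induction F, hF using Set.Finite.induction_on with
  | empty =>
    rw [sUnion_empty]
    exact fix_aux C hC G ∅ (fun _ _ z hz => absurd hz (notMem_empty z))
  | @insert W F _ _ ih =>
    rw [sUnion_insert]
    exact union_aux C hC G _ _ (h W (mem_insert _ _)) (ih fun W' hW' => h W' (mem_insert_of_mem _ hW'))

lemma met_aux (C : (G : Type) → [Group G] → Prop) (hC : Cls C) (L : Type) [Group L]
    (h : derivedSeries L 2 = ⊥) : C L := by
  refine hC.ext L (commutator L) ?_ ?_
  · refine hC.ab _ ?_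
    intro a b
    have h1 : ⁅a.1, b.1⁆ ∈ derivedSeries L 2 := by
      rw [derivedSeries_succ, derivedSeries_one]
      exact Subgroup.commutator_mem_commutator a.2 b.2
    rw [h, Subgroup.mem_bot, commutatorElement_eq_one_iff_mul_comm] at h1
    exact Subtype.ext h1
  · refine hC.ab _ ?_
    intro a b
    obtain ⟨x, rfl⟩ := QuotientGroup.mk_surjective a
    obtain ⟨y, rfl⟩ := QuotientGroup.mk_surjective b
    rw [← QuotientGroup.mk_mul, ← QuotientGroup.mk_mul, QuotientGroup.eq]
    have h1 : (x * y)⁻¹ * (y * x) = ⁅y⁻¹, x⁻¹⁆ := by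
      rw [commutatorElement_def]
      group
    rw [h1, commutator_def]
    exact Subgroup.commutator_mem_commutator (Subgroup.mem_top _) (Subgroup.mem_top _)

/-- **QU**. -/
theorem specQU : SpecQU where
  fix := fun C hC G Z h => fix_aux C hC G Z h
  mono := fun _ _ _ _ ⟨A, iA, f, hA, hf⟩ hZ => ⟨A, iA, f, hA, fun g hg z hz => hf g hg z (hZ hz)⟩
  fin := fun C hC G F hF h => fin_aux C hC G F hF h
  prod := fun C hC A A' _ _ hA hA' => prod_aux C hC A A' hA hA'
  ker := fun C hC L A _ _ f hA hk => ker_aux C hC L A f hA hk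
  met := fun C hC L _ h => met_aux C hC L h

end FPT.RC.QUM
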