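import Pool.Agent.Lib.MP_c27bde_al.GF.Main
import Pool.Agent.Lib.MP_c27bde_al.RF.Main

/-!
MP_c27bde_al, RC (helper17): RESIDUAL CLASSES AND NORMAL SYSTEMS IN SUBGROUPS OF THOMPSON'S GROUP F.

Theorem.  Let `X` be a class of groups closed under subgroups, quotients, extensions and (subgroups of)
restricted direct powers, containing the abelian groups (elementary amenable groups; solvable groups;
amenable groups; ...).  Let `H` be a finitely generated subgroup of F without a copy of F.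
(1) `H` has a LEAST normal subgroup `N` with `H/N ∈ X`; so if `H` is residually `X` then `H ∈ X`.
(2) If `H` has a normal system (complete chain of normal subgroups of any order type, from 1 to `H`) with
factors in `X`, then `H ∈ X`.
So: if every f.g. subgroup of a subgroup `H ≤ F` has a normal system with elementary amenable factors
(e.g. is residually elementary amenable) then `H` is elementary amenable (Brin-Sapir for these `H`); a f.g.
subgroup of F is residually solvable iff it is solvable.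

THE PROOF.  Everything is done in a group `G` of PL homeomorphisms (slopes 2^k), balanced (`Bal`: no copy of F,
Brin's ubiquity theorem) and f.g.  `BN G n`: the break points of elements of `G` that are moved by `G` lie in `n`
`G`-orbits.
STRICT DESCENT (STR).  Let `(a,b)` be an orbital of `G`, `Z ⊆ (a,b)` closed in `(a,b)`, invariant, NON-EMPTY, `J` a gap of `Z`,
`Γ_J` = the group induced on `J` by its stabilizer `S_J`.  Then `Γ_J` is f.g. (FGJ) and `BN G (n+1)` implies `BN Γ_J n`: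
Suppose that every break of `G` in `(a,b)` has a translate in `J` moved by `S_J`.  `W` = the points of `(a,b)` which have a
translate in `J` moved by `S_J`, `Z* = (a,b) \ W ⊇ Z`, closed in `(a,b)` and invariant: NO element of `G` has a break
in `Z*`.  (i) If `k ∈ G` fixes `x ∈ Z*`, `er k x ≠ 0`, then `er k a ≠ 0`: take the least `c ∈ Z* ∪ {a}`, `k c = c`, `er k c ≠ 0`.  If `c > a`:
no break at `c`, so `el k c ≠ 0`; `r` = last fixed point of `k` before `c`; `er k r ≠ 0`, so `r ∉ Z*`, so `r` is in a component `O` of `W`,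
on which its stabilizer (conjugate to `S_J`) has no fixed point, `k O = O`, so `c` = right end of `O`; `el k c ≠ 0`, so by
balance `er k o ≠ 0` for the left end `o < c` of `O`, `o ∈ Z* ∪ {a}`: contradiction.  (ii) So `K = {k : er k a = 0}` fixes
`Z*` pointwise (first moved point).  (iii) `S_J ⊆ K`: otherwise some `s ∈ S_J`, `er s a ≠ 0`, fixes an end `c ∈ Z` of `J`, so a power of every
`g ∈ G` fixes `c`, so `G` fixes `c`.  (iv) `G` has breaks in `(a,b)`, so `S_J` has an orbital `O = (o,o')` in `J`; `Γ_J` f.g., so some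
`s ∈ S_J` has `er s o ≠ 0`, `o ∈ Z* ∪ {a}`, so `er s a ≠ 0` by (i): contradiction to (iii).  QED
INDUCTION (IND): `G` acts through a group in `X` on the closure `Y` of the union of all closed invariant sets on which
it acts through a group in `X`.  Orbital `(a,b)`: nothing to do if all these sets miss it; otherwise take one, `Z`,
meeting it; the kernel of the action on `Z` acts on the gaps `J` through `Γ_J`, an element moves finitely many gaps, there
are finitely many orbits of gaps with `Γ_J ≠ 1`, and on `Y ∩ J` the group `Γ_J` acts through a group in `X` by induction on `n`.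
(1): if `H/N ∈ X` then `H` acts through a group in `X` on `Fix N`, so `Fix N ⊆ Y`; `M` = kernel of the action on `Y`; `N` moves every point
that the kernel of the action on `Fix N` moves, so (displacement, RF.Disp) `N ⊇ M''`.  So `M''` is least.
(2): chain condition (ACC), by the same induction.

Module `XXX` = file `RC/XXX.lean`, imports `RC.Spec` only, theorem `specXXX (hypotheses named in the docstring) : SpecXXX` in
the namespace `FPT.RC.XXXM`.  Closed facts available: `FINM.plb`, `FINM.pl2`, `FINM.ord` (SpecPLB, SpecPL2, SpecORD), `GF.MainM.ra`,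
`GF.MainM.rb` (restriction to an invariant interval), `GF.RDM.orb_fin`, `GF.RDM.common_eps`, `GF.RDM.fix_closure`, `RFM.comm_mem`,
`PLBM.*`.  Products are compositions.
-/

set_option autoImplicit false

namespace FPT.RC

open Set FPT FPT.GF

/-! ### Classes of groups -/

/-- closed under isomorphisms, subgroups, quotients, extensions, subgroups of restricted powers; contains
the abelian groups -/
structure Cls (C : (G : Type) → [Group G] → Prop) : Prop where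
  iso : ∀ (G G' : Type) [Group G] [Group G'], (G ≃* G') → C G → C G'
  ab : ∀ (G : Type) [Group G], (∀ a b : G, a * b = b * a) → C G
  sub : ∀ (G : Type) [Group G] (K : Subgroup G), C G → C ↥K
  quo : ∀ (G : Type) [Group G] (N : Subgroup G) [N.Normal], C G → C (G ⧸ N)
  ext : ∀ (G : Type) [Group G] (N : Subgroup G) [N.Normal], C ↥N → C (G ⧸ N) → C G
  /-- `G` embeds in a restricted power of `A` -/
  pow : ∀ (G A : Type) [Group G] [Group A] (ι : Type) (f : ι → (G →* A)), C A →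
    (∀ g, {i | f i g ≠ 1}.Finite) → (∀ g, (∀ i, f i g = 1) → g = 1) → C G

/-- a normal system with factors in `C` -/
structure NSys (C : (G : Type) → [Group G] → Prop) (L : Type) [Group L] (S : Set (Subgroup L)) :
    Prop where
  nor : ∀ N ∈ S, N.Normal
  chain : ∀ N ∈ S, ∀ N' ∈ S, N ≤ N' ∨ N' ≤ N
  bot : ⊥ ∈ S
  top : ⊤ ∈ S
  sup : ∀ T ⊆ S, T.Nonempty → sSup T ∈ S
  inf : ∀ T ⊆ S, T.Nonempty → sInf T ∈ S
  fac : ∀ A ∈ S, ∀ B ∈ S, A < B → (∀ D ∈ S, A ≤ D → D ≤ B → D = A ∨ D = B) →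
    ∀ _ : (A.subgroupOf B).Normal, C (↥B ⧸ A.subgroupOf B)

/-! ### Dynamics -/

/-- `Z` is invariant -/
def Inv (G : Subgroup Hm) (Z : Set ℝ) : Prop := ∀ g ∈ G, ∀ z ∈ Z, g z ∈ Z

/-- `G` acts on `Z` through a group in `C` -/
def Q (C : (G : Type) → [Group G] → Prop) (G : Subgroup Hm) (Z : Set ℝ) : Prop :=
  ∃ (A : Type) (_ : Group A) (f : ↥G →* A), C A ∧ ∀ g : ↥G, f g = 1 → ∀ z ∈ Z, g.1 z = z

/-- `(a,b)` is an orbital of `G` -/
structure Orb (G : Subgroup Hm) (a b : ℝ) : Prop where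
  lt : a < b
  fa : ∀ g ∈ G, g a = a
  fb : ∀ g ∈ G, g b = b
  mv : ∀ u, a < u → u < b → ∃ g ∈ G, g u ≠ u

/-- `x` is moved by `G` and a break point of some element of `G` -/
def BrO (G : Subgroup Hm) (x : ℝ) : Prop := (∃ g ∈ G, g x ≠ x) ∧ ∃ g ∈ G, er g x ≠ el g x

/-- the moved break points lie in at most `n` orbits -/
def BN (G : Subgroup Hm) (n : ℕ) : Prop :=
  ∃ E : Finset ℝ, E.card ≤ n ∧ ∀ x, BrO G x → ∃ e ∈ E, ∃ g ∈ G, g e = x

/-- the setting -/
structure Setg (G : Subgroup Hm) (a b : ℝ) (Z : Set ℝ) : Prop where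
  pl : PLs G
  bal : Bal G
  fg : G.FG
  orb : Orb G a b
  sub : ∀ z ∈ Z, a < z ∧ z < b
  inv : Inv G Z
  cl : ∀ x, a < x → x < b → x ∈ closure Z → x ∈ Z
  ne : Z.Nonempty

/-- `(p,q)` is a gap (component of `(a,b) \ Z`) -/
structure Gap (a b : ℝ) (Z : Set ℝ) (p q : ℝ) : Prop where
  ap : a ≤ p
  pq : p < q
  qb : q ≤ b
  pz : p = a ∨ p ∈ Z
  qz : q = b ∨ q ∈ Z
  no : ∀ z ∈ Z, ¬ (p < z ∧ z < q)

/-- the stabilizer of the interval `(p,q)` -/
def Sb (G : Subgroup Hm) (p q : ℝ) : Subgroup Hm where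
  carrier := {g | g ∈ G ∧ g p = p ∧ g q = q}
  mul_mem' := by
    rintro g h ⟨h1, h2, h3⟩ ⟨h4, h5, h6⟩
    exact ⟨G.mul_mem h1 h4, by rw [RelIso.mul_apply, h5, h2], by rw [RelIso.mul_apply, h6, h3]⟩
  one_mem' := ⟨G.one_mem, rfl, rfl⟩
  inv_mem' := by
    rintro g ⟨h1, h2, h3⟩
    exact ⟨G.inv_mem h1, RFM.inv_fix h2, RFM.inv_fix h3⟩

/-- the elements of `G` that fix `Z` pointwise -/
def Fx (G : Subgroup Hm) (Z : Set ℝ) : Subgroup Hm where
  carrier := {g | g ∈ G ∧ ∀ z ∈ Z, g z = z}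
  mul_mem' := by
    rintro g h ⟨h1, h2⟩ ⟨h3, h4⟩
    exact ⟨G.mul_mem h1 h3, fun z hz => by rw [RelIso.mul_apply, h4 z hz, h2 z hz]⟩
  one_mem' := ⟨G.one_mem, fun _ _ => rfl⟩
  inv_mem' := by
    rintro g ⟨h1, h2⟩
    exact ⟨G.inv_mem h1, fun z hz => RFM.inv_fix (h2 z hz)⟩

/-- `Γ` is the group induced on `(p,q)` (extended by the identity) by the stabilizer of `(p,q)` -/
def RJ (G : Subgroup Hm) (p q : ℝ) (Γ : Subgroup Hm) : Prop :=
  ∀ γ : Hm, γ ∈ Γ ↔ ∃ g ∈ Sb G p q, (∀ w, p ≤ w → w ≤ q → γ w = g w) ∧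
    ∀ w, w ≤ p ∨ q ≤ w → γ w = w

/-! ### Modules -/

/-- LIN (no hypotheses).  `lin`: `k = er g p`; `T` = set of `y ∈ [p,q]` with the formula on `[p,y]`; `y0 = sup T ∈ T` (continuity); if
`y0 < q`: `el g y0 = k` (PLBM.elU with the formula, if `y0 > p`), so `er g y0 = k` (no break), so the formula holds a bit
further (HasR).  `brk`: otherwise `lin` gives `g y = p + 2^k (y - p)`, `g q = q` gives `2^k = 1`. -/
structure SpecLIN : Prop where
  lin : ∀ g, IsPL g → ∀ p q, p < q → (∀ x, p < x → x < q → er g x = el g x) →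
    ∀ y, p ≤ y → y ≤ q → g y = g p + (2:ℝ) ^ (er g p) * (y - p)
  brk : ∀ g, IsPL g → ∀ p q, g p = p → g q = q → ∀ x, p < x → x < q → g x ≠ x →
    ∃ y, p < y ∧ y < q ∧ er g y ≠ el g y

/-- GP (no hypotheses).  `ex`: `p = sup ({a} ∪ Z ∩ (-∞,x])`, `q = inf ({b} ∪ Z ∩ [x,∞))`; they are in `Z` or `= a`, `= b` (`Z` closed in
`(a,b)`: `Setg.cl`), and `≠ x`.  `im`: `Z` is invariant under `g` and `g⁻¹`, `g a = a`, `g b = b`.  `uq`: if `p < p'` then `p' ∈ Z` or `p' = a`; both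
impossible.  `ne`: `Z` is not empty.  `st`: `im` and `uq` at `g x`. -/
structure SpecGP : Prop where
  ex : ∀ G a b Z, Setg G a b Z → ∀ x, a < x → x < b → x ∉ Z →
    ∃ p q, Gap a b Z p q ∧ p < x ∧ x < q
  im : ∀ G a b Z, Setg G a b Z → ∀ p q, Gap a b Z p q → ∀ g ∈ G, Gap a b Z (g p) (g q)
  uq : ∀ a b Z p q p' q' x, Gap a b Z p q → Gap a b Z p' q' → p < x → x < q → p' < x → x < q' →
    p = p' ∧ q = q'
  ne : ∀ G a b Z, Setg G a b Z → ∀ p q, Gap a b Z p q → (a < p ∧ p ∈ Z) ∨ (q < b ∧ q ∈ Z)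
  st : ∀ G a b Z, Setg G a b Z → ∀ p q, Gap a b Z p q → ∀ g ∈ G, ∀ x, p < x → x < q →
    p < g x → g x < q → g ∈ Sb G p q

/-- RS (no hypotheses; uses GF.MainM.ra, rb).  `ex`: RA applied to `K = Sb G p q` gives `f : ↥K →* Hm`; `Γ = f.range` (an element `γ` as on the
right hand side of `RJ` equals `f g`); `Bal (Sb G p q)` from `Bal G` (subgroup), RB.  `brk`: `γ ∈ Γ` moves `x` or has a break at
`x`, from `RJ` take `s`; `x` moved: `p < x < q`; near `x` the functions `γ` and `s` agree: `s x ≠ x`; `er`, `el` of `γ` and `s` at `x` agree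
(GF.RBM.hasR_congr, hasL_congr, PLBM.hasR_er, FINM.plb.erU). -/
structure SpecRS : Prop where
  ex : ∀ G : Subgroup Hm, PLs G → ∀ p q : ℝ, p < q → ∃ Γ, RJ G p q Γ ∧ PLs Γ ∧ (Bal G → Bal Γ)
  brk : ∀ (G Γ : Subgroup Hm) (p q : ℝ), PLs G → PLs Γ → RJ G p q Γ → ∀ x, BrO Γ x →
    p < x ∧ x < q ∧ (∃ s ∈ Sb G p q, s x ≠ x) ∧ ∃ s ∈ Sb G p q, er s x ≠ el s x

/-- FGJ (hypotheses SpecLIN, SpecGP).  `Γ_J` is finitely generated.  `𝒢` = the set of gaps `(h p, h q)`, `h ∈ G`.  Call `g ∈ G` linear on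
`P = (u,v)` if `g y = g u + (g v - g u)/(v - u) (y - u)` on `[u,v]`.  `P ~ P'` if some `g ∈ G` maps `P` to `P'` and is linear on `P`: equivalence
relation on `𝒢` (inverse, composition).  Choose a representative `r(P)` in each class (`Quotient.out`), `v_c ∈ G` with
`v_c (p,q) = c` for `c ∈ 𝒢`, `a_P ∈ G` linear on `r(P)` with `a_P r(P) = P`; `u_P = a_P v_{r(P)}`.  So `u_P (p,q) = P` and `u_{P'} u_P⁻¹` is linear on `P` if
`P ~ P'`.  `G = closure S`, `S` finite.  The gaps on which `s ∈ S` is not linear contain a break of `s` (LIN.lin): finitely many (a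
point is in one gap, GP.uq; `FINM.plb.brk`).  `T` = the restrictions to `(p,q)` of `u_{sP}⁻¹ s u_P ∈ Sb G p q`, `s ∈ S`, `P ∈ 𝒢`, `s` not linear on `P`:
finite subset of `Γ`.  CLAIM: for all `g ∈ G`, `P ∈ 𝒢` the restriction of `u_{gP}⁻¹ g u_P` is in `closure T`.  Induction on `g ∈ closure S`: `s` not linear on `P`: in
`T`.  `s` linear on `P`: `P ~ sP`, same representative `c`, `a_{sP}⁻¹ s a_P` is linear on `c` and maps `c` to itself, so it is the identity on `c`,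
so the restriction is 1.  Products, inverses: clear.  For `P = (p,q)`, `u = u_P`, `g ∈ Sb G p q`: `u⁻¹ g u ∈ closure T` (restricted), for all `g`; so
`closure T = Γ` (`g = u h u⁻¹`). -/
def SpecFGJ : Prop := ∀ G a b Z, Setg G a b Z → ∀ (p q : ℝ) (Γ : Subgroup Hm), Gap a b Z p q →
  RJ G p q Γ → Γ.FG

/-- GO (hypotheses SpecLIN, SpecGP).  Finitely many orbits of gaps with `Γ_J ≠ 1`.  `G = closure S`; `F` = the gaps containing a break of some
`s ∈ S`: finite (`FINM.plb.brk`, GP.uq).  Let `(p,q)` be a gap such that no `(h p, h q)`, `h ∈ G`, is in `F`.  For all `g ∈ G` (closure induction), for all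
`h ∈ G`, `g` is linear on `(h p, h q)`: for `s ∈ S` by LIN.lin; `g⁻¹` on `(h p, h q)`: `g` is linear on `(g⁻¹ h p, g⁻¹ h q)`.  So `s ∈ Sb G p q` is linear on `[p,q]` and
fixes `p, q`: identity there. -/
def SpecGO : Prop := ∀ G a b Z, Setg G a b Z → ∃ F : Set (ℝ × ℝ), F.Finite ∧
  (∀ r ∈ F, Gap a b Z r.1 r.2) ∧ ∀ p q, Gap a b Z p q →
    (∃ s ∈ Sb G p q, ∃ x, p < x ∧ x < q ∧ s x ≠ x) → ∃ r ∈ F, ∃ h ∈ G, h r.1 = p ∧ h r.2 = q

/-- ST1 (hypotheses SpecGP).  The set `Z*` and step (i) of STRICT DESCENT.  `hW`: every break of `G` in `(a,b)` has a translate in `(p,q)`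
moved by `Sb G p q`.  `Zs` := `{x | a < x ∧ x < b ∧ ∀ g ∈ G, p < g x → g x < q → ∀ s ∈ Sb G p q, s (g x) = g x}`.
`step`: the set `E` of `y ∈ [a,x]` with `k y = y`, `er k y ≠ 0` and (`y = a` or `y ∈ Zs`) is finite (plb.fixR), contains `x`; let `c` be its least element.
If `c = a`: done.  `c ∈ Zs`: no break at `c` (`hW` contradicts `c ∈ Zs`), so `el k c = er k c ≠ 0`.  `k` moves a left neighbourhood of `c` (if there were
fixed points `< c` arbitrarily near then `el k c = 0`; use PL2.elp, eln); ORD.last (`o = a`, `b = c`): `r ∈ [a,c)`, `k r = r`, `k` moves `(r,c)`; `er k r ≠ 0` (else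
trivial right of `r`, PL2.er0).  If `r = a` then `a ∈ E`, `a < c`: contradiction.  `r ∉ Zs` (minimality), `a < r < b`: so there are `g ∈ G`, `p < g r < q`, `s ∈ Sb` moving
`g r`.  `k' = g k g⁻¹` fixes `g r`, so `k' ∈ Sb G p q` (GP.st).  ORD.orbital for `Sb G p q` (PLs) at `g r`: `o < g r < o'` fixed by `Sb`, everything between moved by `Sb`; so
`p ≤ o`, `o' ≤ q` (p, q are fixed by Sb).  `g c ∈ Zs` (invariant), so `g c ∉ (o,o')` (points of `(o,o')` are in `(p,q)` and moved): `o' ≤ g c`; `k'` moves `(g r, g c)` and fixes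
`o'`: `o' = g c`.  `el k' o' = el k c ≠ 0` (PL2.elC).  `Bal G` for the subgroup `Sb G p q` on `(o,o')`: `er k' o ≠ 0`.  `y = g⁻¹ o`: `k y = y`, `er k y ≠ 0` (erC), `y < r < c`, `y ∈ Zs` or
`y = a`: if `o > a` then `o ∈ Zs` [if `h o ∈ (p,q)`, `h ∈ G`, and `o ∈ (p,q)`: `h ∈ Sb` by GP.st, `h o = o` fixed; if `o = p`: `p ∈ Z` (Gap.pz), `h o ∈ Z` is not in the gap].
Contradiction to the minimality of `c`. -/
structure SpecST1 : Prop where
  zin : ∀ G a b Z, Setg G a b Z → ∀ p q, Gap a b Z p q → ∀ z ∈ Z, ∀ g ∈ G, ¬ (p < g z ∧ g z < q)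
  step : ∀ G a b Z, Setg G a b Z → ∀ p q, Gap a b Z p q →
    (∀ x, a < x → x < b → (∃ g ∈ G, er g x ≠ el g x) →
      ∃ g ∈ G, p < g x ∧ g x < q ∧ ∃ s ∈ Sb G p q, s (g x) ≠ g x) →
    ∀ k ∈ G, ∀ x, a < x → x < b →
      (∀ g ∈ G, p < g x → g x < q → ∀ s ∈ Sb G p q, s (g x) = g x) →
      k x = x → er k x ≠ 0 → er k a ≠ 0

/-- STR (hypotheses SpecLIN, SpecGP, SpecRS, SpecST1).  Steps (ii)-(iv) of STRICT DESCENT.  Suppose not (`push_neg` gives `hW` of ST1).  `Zs` as in ST1; it is invariant,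
contains `Z` (ST1.zin), and closed in `(a,b)`: if `x ∈ (a,b)` is not in `Zs`, then `g x ∈ (p,q)`, `s (g x) ≠ g x`: the same for points near `x` (continuity).
(ii) `k ∈ G`, `er k a = 0`: `k` fixes `Zs`: let `c` be the infimum of the points of `Zs` moved by `k`; `k` is trivial on `[a,a+ε]` (er0): `c > a`; `c < b`; `c ∈ Zs`
(closed); if `k c ≠ c` then `k c < c` or `k⁻¹ c < c`, both in `Zs` and moved: contradiction; so `k c = c`, there are moved points of `Zs` arbitrarily near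
right of `c`, so `er k c ≠ 0` (er0), so `er k a ≠ 0` (ST1.step): contradiction.
(iii) `er s a = 0` for `s ∈ Sb G p q`: GP.ne: `c ∈ {p,q}`, `c ∈ Z ⊆ Zs`, `a < c < b`, `s c = c`.  If `er s a = n ≠ 0`: for `g ∈ G`, `m = er g a`, `k = g^n s^{-m}` has `er k a = 0` (erZ, erM), so
`k c = c`, `g^n c = c`, `g c = c` (zpowi); contradiction to `orb.mv`.
(iv) some `t ∈ G` has `er t a ≠ 0` (G.FG: otherwise the finitely many generators are trivial on `[a,a+ε]`: RDM.common_eps, fix_closure) so it moves points just right of `a`, so it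
has a break in `(a,b)` (LIN.brk); `hW`: there are `y ∈ (p,q)` and `s ∈ Sb` moving `y`.  ORD.orbital for `Sb G p q` at `y`: `(o,o')`, `p ≤ o`, `o' ≤ q`.  `Γ.FG`: finitely many
`γ_i ∈ Γ` generate, `γ_i = s_i` on `[p,q]`, `s_i ∈ Sb`; if all `er s_i o = 0` then all `γ_i` are trivial on some `[o,o+ε]`, so is all of `Γ`, so is `Sb` (RJ: every element of
`Sb` induces an element of `Γ`, use RS.ex for the existence and RJ), contradiction.  So `s ∈ Sb`, `er s o ≠ 0`.  If `o = a`: contradiction to (iii).  Otherwise `o ∈ Zs`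
(as in ST1: `o ∈ (p,q)` and GP.st, or `o = p ∈ Z`), `er s a ≠ 0` by ST1.step: contradiction to (iii). -/
def SpecSTR : Prop := ∀ G a b Z, Setg G a b Z → ∀ (p q : ℝ) (Γ : Subgroup Hm), Gap a b Z p q →
  RJ G p q Γ → Γ.FG → ∃ x, a < x ∧ x < b ∧ (∃ g ∈ G, er g x ≠ el g x) ∧
    ∀ g ∈ G, p < g x → g x < q → ∀ s ∈ Sb G p q, s (g x) = g x

/-- BJ (hypotheses SpecGP, SpecRS, SpecSTR).  `E` for `G`, `|E| ≤ n+1`.  STR: `x0`; `BrO G x0` (moved: orb.mv); `e0 ∈ E`, `g0 e0 = x0`.  For `e ∈ E \ {e0}` with some `y` in its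
orbit, `BrO Γ y`, choose such a `y_e`; `E'` = image of `E.erase e0`, `|E'| ≤ n`.  `BrO Γ x`: by RS.brk `p < x < q`, `x` is moved by some `s ∈ Sb ≤ G`, a break of some `s ∈ Sb ≤ G`:
`BrO G x`, so `g e = x`, `e ∈ E`.  `e = e0` is impossible (`x = g g0⁻¹ x0` is moved by `Sb`: STR).  `y_e = g' e` (`y_e` exists), `h = g g'⁻¹` maps `y_e` to `x`, both in
`(p,q)` (RS.brk): `h ∈ Sb` (GP.st); its restriction `γ ∈ Γ` (exists by RS.ex + RJ; or build it with GF.MainM.ra) maps `y_e` to `x`. -/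
def SpecBJ : Prop := ∀ G a b Z, Setg G a b Z → ∀ (p q : ℝ) (Γ : Subgroup Hm), Gap a b Z p q →
  RJ G p q Γ → PLs Γ → Γ.FG → ∀ n, BN G (n + 1) → BN Γ n

/-- B0 (hypothesis SpecLIN).  `ex`: `G = closure S`, `E` = the set of break points of `s` and `s⁻¹`, `s ∈ S` (finite).  For all `g ∈ closure S`: a break `x` of `g` is in `G E`: `er (gh) x = er g (h x) + er h x`, the same
for `el`: so a break of `gh` at `x` is one of `h` at `x` or of `g` at `h x`; `erI`, `elI` for inverses.  `zero`: if `x` is moved by `G`: ORD.orbital `(a,b)`; some `t ∈ G` has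
`er t a ≠ 0` (otherwise the generators are trivial on `[a,a+ε]`), it moves a point of `(a,b)`, LIN.brk: break `y ∈ (a,b)`, `BrO G y`, `E` is empty. -/
structure SpecB0 : Prop where
  ex : ∀ G : Subgroup Hm, PLs G → G.FG → ∃ n, BN G n
  zero : ∀ G : Subgroup Hm, PLs G → G.FG → BN G 0 → ∀ g ∈ G, ∀ x, g x = x

/-- OF (no hypotheses).  Finitely many orbitals: GF.RDM.orb_fin (its `IsOrb` is our `Orb`), ORD.orbital. -/
def SpecOF : Prop := ∀ G : Subgroup Hm, PLs G → G.FG → ∃ F : Set (ℝ × ℝ), F.Finite ∧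
  (∀ r ∈ F, Orb G r.1 r.2) ∧ ∀ x, (∃ g ∈ G, g x ≠ x) → ∃ r ∈ F, r.1 < x ∧ x < r.2

/-- QU (no hypotheses).  `fin`: induction; for two sets `f.prod f' : G →* A × A'`; `C (A × A')` by `ext` with `N` = kernel of the second projection (`N ≃* A`, `(A × A')/N ≃* A'`).
`two`: if `N` is normal in `L`, `C (L/N)`, `C (L/N')` then `C (L/(N ∩ N'))` (embeds in the product).  `ker`: `ext` for homomorphisms: `f : L →* A`, `C A`, `C` of the kernel. `met`: a group whose second derived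
subgroup is trivial. -/
structure SpecQU : Prop where
  fix : ∀ C, Cls C → ∀ (G : Subgroup Hm) (Z : Set ℝ), (∀ g ∈ G, ∀ z ∈ Z, g z = z) → Q C G Z
  mono : ∀ C (G : Subgroup Hm) (Z Z' : Set ℝ), Q C G Z → Z' ⊆ Z → Q C G Z'
  fin : ∀ C, Cls C → ∀ (G : Subgroup Hm) (F : Set (Set ℝ)), F.Finite → (∀ W ∈ F, Q C G W) →
    Q C G (⋃₀ F)
  prod : ∀ C, Cls C → ∀ (A A' : Type) [Group A] [Group A'], C A → C A' → C (A × A')
  ker : ∀ C, Cls C → ∀ (L A : Type) [Group L] [Group A] (f : L →* A), C A → C ↥f.ker → C L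
  met : ∀ C, Cls C → ∀ (L : Type) [Group L], derivedSeries L 2 = ⊥ → C L

/-- QJ (no hypotheses).  `f : ↥G →* A` for `Z'`.  `S = Sb G p q`, `S0` = its elements trivial on `[p,q]` (normal in `S`).  `B = f(S)`, `N = f(S0)` normal in `B`, `C (B/N)` (sub, quo).
`Γ ≃ S/S0`: for `γ ∈ Γ` take `s` from RJ, `γ ↦ f(s) N`: well defined, a homomorphism.  If `f(s) ∈ N`, `f(s) = f(s0)`: `s s0⁻¹` fixes `Z'`, so `s z = s (s0⁻¹ z) = z` for
`z ∈ Z' ∩ [p,q]` (`s0` trivial there).  Invariance: `γ z = s z ∈ Z' ∩ [p,q]`. -/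
def SpecQJ : Prop := ∀ C, Cls C → ∀ (G Γ : Subgroup Hm) (p q : ℝ), p < q → RJ G p q Γ →
  ∀ Z' : Set ℝ, IsClosed Z' → Inv G Z' → Q C G Z' →
    IsClosed (Z' ∩ Icc p q) ∧ Inv Γ (Z' ∩ Icc p q) ∧ Q C Γ (Z' ∩ Icc p q)

/-- PW (hypotheses SpecLIN, SpecGP, SpecRS, SpecGO, SpecQU).  `f0 : G →* A0` with kernel fixing `Z`; `M` = `Fx G Z` as a subgroup of `↥G` (normal, `Z` invariant).  GO: finite `F`.  For `r ∈ F` choose `Γ_r` (RS.ex) and
`f_r : Γ_r →* A_r` with kernel fixing `Y ∩ (r.1,r.2)`.  `A` = the (finite) product of the `A_r`; `C A`.  Index set `ι` = set of triples `(r,h)`, `r ∈ F`, `h ∈ G`, chosen ONE `h` for each gap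
`(h r.1, h r.2)` (choice).  For `m ∈ M`: `h⁻¹ m h ∈ M` fixes `Z`, so it is in `Sb G r.1 r.2`, its restriction `γ ∈ Γ_r` (hom `M →* Γ_r`), `φ_{(r,h)}(m) = f_r(γ) ∈ A_r ≤ A`.  Finite support: `φ ≠ 1` implies that `m`
moves a point of the gap `(h r.1, h r.2)`, so it has a break there (LIN.brk), finitely many breaks, disjoint gaps (GP.uq), finitely many `r`.  If all `φ(m) = 1`: `m` fixes `Z`, and `Y ∩ J` for every
gap `J`: if `m` moves a point of `J`, GO gives `r, h` with `J = h (r.1,r.2)` (the chosen `h`), `h⁻¹ m h` fixes `Y ∩ (r.1,r.2)`, `Y` invariant, so `m` fixes `Y ∩ J`.  `Y ∩ (a,b) ⊆ Z ∪ gaps` (GP.ex).  So with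
`M0` = elements of `M` fixing `Y ∩ (a,b)`: `C (M/M0)` (Cls.pow applied to `M/M0`, the `φ` factor if one divides `A` by nothing: take `pow` for the group `M / ⋂ ker φ`, then `M0 ≥ ⋂ ker φ`, `quo`; or define
everything on `L = G / Fx G (Y ∩ (a,b))`).  `Fx G (Y ∩ (a,b)) ≤ M` as `Z ⊆ Y ∩ (a,b)`.  `ext`: `C (G / Fx G (Y ∩ (a,b)))`: the image of `M` is `M/M0`, the quotient is `G/M`, a quotient of `G / ker f0`. -/
def SpecPW : Prop := ∀ C, Cls C → ∀ G a b Z, Setg G a b Z → ∀ Y : Set ℝ, Inv G Y → Z ⊆ Y →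
  Q C G Z → (∀ (p q : ℝ) (Γ : Subgroup Hm), Gap a b Z p q → RJ G p q Γ → Q C Γ (Y ∩ Ioo p q)) →
  Q C G (Y ∩ Ioo a b)

/-- IND (hypotheses SpecGP, SpecRS, SpecFGJ, SpecBJ, SpecB0, SpecOF, SpecQU, SpecQJ, SpecPW).  Induction on `n`.  `Y` = the closure; it is invariant (homeomorphisms).  OF: `F`.  `Y ⊆ ⋃_{r ∈ F} (Y ∩ (r.1,r.2)) ∪ {points fixed by G}`; by
QU.fin, QU.fix, QU.mono it suffices to show `Q C G (Y ∩ (a,b))` for `(a,b) = r ∈ F`.  If no `Z'` of the family meets `(a,b)`, then `Y ∩ (a,b) = ∅` (open): QU.fix.  Otherwise `Z = Z' ∩ (a,b) ≠ ∅`; `Setg G a b Z`.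
`n = 0`: B0.zero contradicts orb.mv.  `n = m + 1`: PW with `Y`: for a gap `(p,q)` and `Γ` with RJ: PLs, Bal (RS.ex gives one `Γ'`, RJ determines it: `Γ = Γ'`), FG (FGJ), `BN Γ m` (BJ); induction: `Q C Γ (closure ⋃ ..)`; `Y ∩ (p,q)` is contained in that
closure: `y ∈ Y ∩ (p,q)` is in the closure of the union of the `Z'' ∩ (p,q)`, and `Z'' ∩ [p,q]` is in the family of `Γ` (QJ). -/
def SpecIND : Prop := ∀ C, Cls C → ∀ (n : ℕ) (G : Subgroup Hm), PLs G → Bal G → G.FG → BN G n →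
  Q C G (closure (⋃₀ {Z | IsClosed Z ∧ Inv G Z ∧ Q C G Z}))

/-- CPT (no hypotheses).  `G = closure S`, `S` finite; `u ∈ (a,b)` any point, `v` = maximum of `u`, `s u`, `s⁻¹ u`, `s ∈ S`.  Let `z ∈ Z`, `a < z < b`.  Suppose no `g z` is in `[u,v]`.  ORD.orbL: `g0 z < u`.  If `g z < u`, then `s g z < s u ≤ v`, so
`s g z < u`, also for `s⁻¹`.  So (closure induction) `g g0 z < u` for all `g ∈ G`: contradiction to ORD.orbR. -/
def SpecCPT : Prop := ∀ (G : Subgroup Hm) (a b : ℝ), G.FG → Orb G a b →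
  ∃ u v, a < u ∧ u ≤ v ∧ v < b ∧ ∀ Z, Inv G Z → (∃ z ∈ Z, a < z ∧ z < b) → ∃ z ∈ Z, u ≤ z ∧ z ≤ v

/-- ACC (hypotheses SpecGP, SpecRS, SpecFGJ, SpecGO, SpecBJ, SpecB0, SpecOF, SpecCPT).  Induction on `n`.  `Z∞ = ⋂₀ 𝒵`.  By OF it suffices (finitely many orbitals, chain: take the smallest of the finitely many `Z`) to find for each orbital `(a,b)` some
`Z ∈ 𝒵` such that every `g ∈ G` fixing `Z∞` fixes `Z ∩ (a,b)`.  Case `Z∞ ∩ (a,b) = ∅`: if all `Z ∈ 𝒵` meet `(a,b)`, they meet `[u,v]` (CPT), the sets `Z ∩ [u,v]` are compact, non-empty, a chain: a common point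
(`IsCompact.nonempty_sInter_of_directedOn..`), contradiction; so some `Z` misses `(a,b)`.  Case `Z∞ ∩ (a,b) = Z0 ≠ ∅`: Setg G a b Z0 (closed in `(a,b)`, invariant).  `n = 0`: B0.zero.  `n = m+1`: GO: finite `F`.  For `r ∈ F`, `Γ_r` (RS.ex), apply the induction
hypothesis to the chain `{Z ∩ [r.1,r.2]}` (closed, invariant under `Γ_r`): some `Z_r ∈ 𝒵` such that every `γ ∈ Γ_r` which fixes `Z∞ ∩ [r.1,r.2]` fixes `Z_r ∩ [r.1,r.2]`; every `γ ∈ Γ_r` fixes `Z∞ ∩ [r.1,r.2] ⊆ {r.1,r.2}`.  `Z` = smallest of the `Z_r` (or any `Z ∈ 𝒵` if `F`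
is empty).  Let `g ∈ G` fix `Z∞`, `z ∈ Z ∩ (a,b)`; `z ∈ Z0`: fixed.  Otherwise `z` is in a gap `(p,q)` of `Z0` (GP.ex), `g ∈ Sb G p q`; if `g z ≠ z`, GO: `(p,q) = h (r.1,r.2)`; `h⁻¹ g h` induces `γ ∈ Γ_r`, `h⁻¹ z ∈ Z ∩ (r.1,r.2) ⊆ Z_r`, so it is fixed by `γ`:
contradiction. -/
def SpecACC : Prop := ∀ (n : ℕ) (G : Subgroup Hm), PLs G → Bal G → G.FG → BN G n →
  ∀ 𝒵 : Set (Set ℝ), 𝒵.Nonempty → (∀ Z ∈ 𝒵, IsClosed Z ∧ Inv G Z) →
    (∀ Z ∈ 𝒵, ∀ Z' ∈ 𝒵, Z ⊆ Z' ∨ Z' ⊆ Z) →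
    ∃ Z ∈ 𝒵, ∀ g ∈ G, (∀ z, (∀ Z' ∈ 𝒵, z ∈ Z') → g z = z) → ∀ z ∈ Z, g z = z

/-- DSP (no hypotheses; RFM.comm_mem).  `N` normal in `G`; `M` = the elements of `G` that fix all points fixed by `N`.  Then `N ⊇ M''`.  Apply comm_mem with `H = Fx G (Fix N)`, `N`.  Formulated with subgroups of `↥G`: `M ≤ Fx ..` gives `⁅⁅M,M⁆,⁅M,M⁆⁆ ≤ N`. -/
def SpecDSP : Prop := ∀ G : Subgroup Hm, PLs G → ∀ N M : Subgroup ↥G, N.Normal →
  (∀ x : ℝ, (∀ n ∈ N, n.1 x = x) → ∀ m ∈ M, m.1 x = x) → ⁅⁅M, M⁆, ⁅M, M⁆⁆ ≤ N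

/-- LST (hypotheses SpecB0, SpecQU, SpecIND, SpecDSP).  `Y` from IND (`n` from B0), `f : G →* A` with kernel fixing `Y`.  `M` = the subgroup of `↥G` fixing `Y` pointwise: normal (`Y` invariant), `C (G/M)` (G/M is a quotient of `G/ker f ≃ range f`: sub, iso, quo).  `N0 = ⁅⁅M,M⁆,⁅M,M⁆⁆`: normal in `G`;
`C (G/N0)`: ext: `M/N0` is metabelian (QU.met), `(G/N0)/(M/N0) ≃ G/M`.  If `N'` is normal, `C (G/N')`: `Z' = Fix N'` is closed, invariant, `Q C G Z'` (quotient map), so `Z' ⊆ Y`, `M` fixes `Z'`, DSP: `N0 ≤ N'`. -/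
def SpecLST : Prop := ∀ C, Cls C → ∀ G : Subgroup Hm, PLs G → Bal G → G.FG →
  ∃ (N : Subgroup ↥G) (_ : N.Normal), C (↥G ⧸ N) ∧
    ∀ (N' : Subgroup ↥G) (_ : N'.Normal), C (↥G ⧸ N') → N ≤ N'

/-- SYS (hypotheses SpecB0, SpecQU, SpecACC, SpecDSP, SpecLST).  `L = ↥G`, `N0` from LST.  If `N0 = ⊥`: `C L` (iso).  Suppose `N0 ≠ ⊥`.  `T1 = {N ∈ S | ¬ N0 ≤ N} ∋ ⊥`, `A = sSup T1 ∈ S`; `T2 = {N ∈ S | N0 ≤ N} ∋ ⊤`, `B = sInf T2 ∈ S`, `N0 ≤ B`.
Case 1: not `N0 ≤ A`.  `A < B` (chain), no `D ∈ S` strictly between (`N0 ≤ D`: `B ≤ D`; else `D ≤ A`), so `C (B/A)`.  `C (L/(N0 ∩ A))`: hom `L → L/N0`.. : `N0/(N0 ∩ A)` embeds in `B/A`, `L/N0` in `C`, ext.  So `N0 ≤ N0 ∩ A`: contradiction.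
Case 2: `N0 ≤ A`; `A` is the union of the chain `T1`.  `𝒵 = {Fix (N ∩ N0) | N ∈ T1}`: closed, invariant, chain; ACC: `N ∈ T1` such that every `g ∈ G` fixing `⋂ 𝒵` fixes `Fix (N ∩ N0)`.  Every `g ∈ N0` is in some `N' ∈ T1`, so it fixes `Fix (N' ∩ N0) ⊇ ⋂ 𝒵`.  So `N0` fixes
`Fix (N ∩ N0)`, DSP with `M = N0`: `⁅⁅N0,N0⁆,⁅N0,N0⁆⁆ ≤ N ∩ N0`.  So `N0/(N ∩ N0)` is metabelian, `C (L/(N ∩ N0))`, `N0 ≤ N`: contradiction. -/
def SpecSYS : Prop := ∀ C, Cls C → ∀ G : Subgroup Hm, PLs G → Bal G → G.FG →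
  ∀ S : Set (Subgroup ↥G), NSys C ↥G S → C ↥G

/-- NOF (no hypotheses).  A non-trivial normal subgroup `N` of `FT` contains `commutator FT`: otherwise `FT → FT/N` is injective by FINM.fq (if the images of `a0, a1` do not commute), or `FT/N` is abelian.  `res`: for `g ∈ commutator FT`, `g ≠ 1` (exists: FINM.s12), `N` with `g ∉ N`, `C (FT/N)`: `N = ⊥`, so `C FT`.
`sys`: `N1 = sInf {N ∈ S | N ≠ ⊥}` (`⊤` is in the set) contains `commutator FT`, so `N1 ≠ ⊥`, and there is nothing between `⊥` and `N1`: `C (N1/⊥)`, `C N1`, `C (commutator FT)`, `FT/commutator` abelian: `C FT`.  Transport along `e : L ≃* FT`. -/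
structure SpecNOF : Prop where
  res : ∀ C, Cls C → ¬ C FT → ∀ (L : Type) [Group L], (L ≃* FT) →
    ¬ ∀ g : L, g ≠ 1 → ∃ (N : Subgroup L) (_ : N.Normal), g ∉ N ∧ C (L ⧸ N)
  sys : ∀ C, Cls C → ¬ C FT → ∀ (L : Type) [Group L], (L ≃* FT) →
    ¬ ∃ S : Set (Subgroup L), NSys C L S

/-- CLA (no hypotheses).  `ea`: `EA` is a class; `pow`: it is enough to treat f.g. subgroups (directed unions), for a finitely generated `B ≤ G` only finitely many `f i` are non-trivial on `B`: `B` embeds in a finite product of copies of `A`; finite products by extensions.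
`loc`: directed unions.  `so`: `derivedSeries n` maps into `derivedSeries n` under every `f i`, so it is trivial if it is trivial in `A`.  `fts`: a solvable group is EA (induction on the derived length), so `FT` is not solvable (EAM.specEA with the identity). -/
structure SpecCLA : Prop where
  ea : Cls (fun G [Group G] => EA G)
  so : Cls (fun G [Group G] => Group.IsSolvable G)
  loc : ∀ (H : Type) [Group H], (∀ L : Subgroup H, L.FG → EA ↥L) → EA H
  fte : ¬ EA FT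
  fts : ¬ Group.IsSolvable FT

end FPT.RC
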